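import Pool.Agent.Helper29.HP.Defs
import Pool.Agent.Helper16.CommonZero

set_option autoImplicit false

/-!
Piece HP-IRR.  A smooth plane curve is irreducible.  Hint: if `δ = f g` with `f, g` not units
(both homogeneous) then `f, g` have a common zero (`exists_common_zero` of
`Pool.Agent.Helper16.CommonZero`), a singular point.  Second statement: smoothness away from the
line `z0 = 0` in affine form (Euler).
-/

namespace Pool.Agent.Helper29.HP

open MvPolynomial

/-- scaling of the variables -/
noncomputable def scl : P3 →ₐ[ℂ] Polynomial P3 :=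
  aeval fun i => Polynomial.C (X i) * Polynomial.X

theorem scl_monomial (d : Fin 3 →₀ ℕ) (c : ℂ) :
    scl (monomial d c) = Polynomial.C (monomial d c) * Polynomial.X ^ d.degree := by
  have h1 : scl (monomial d c) = algebraMap ℂ (Polynomial P3) c *
      d.prod fun i k => (Polynomial.C (X i : P3) * Polynomial.X) ^ k := by
    unfold scl
    exact aeval_monomial _ _ _
  have h2 : (d.prod fun i k => (Polynomial.C (X i : P3) * Polynomial.X) ^ k) =
      Polynomial.C (d.prod fun i k => (X i : P3) ^ k) * Polynomial.X ^ d.degree := by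
    simp only [Finsupp.prod, mul_pow, Finset.prod_mul_distrib, Finset.prod_pow_eq_pow_sum,
      map_prod, map_pow]
    rfl
  have h3 : algebraMap ℂ (Polynomial P3) c = Polynomial.C (C c) := rfl
  rw [h1, h2, h3, monomial_eq, map_mul, mul_assoc]

theorem scl_hom {f : P3} {n : ℕ} (h : f.IsHomogeneous n) :
    scl f = Polynomial.C f * Polynomial.X ^ n := by
  have h1 : scl f = ∑ d ∈ f.support, scl (monomial d (coeff d f)) := by
    rw [← map_sum, ← f.as_sum]
  have h2 : Polynomial.C f * Polynomial.X ^ n =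
      ∑ d ∈ f.support, Polynomial.C (monomial d (coeff d f)) * Polynomial.X ^ n := by
    rw [← Finset.sum_mul, ← map_sum, ← f.as_sum]
  rw [h1, h2]
  refine Finset.sum_congr rfl fun d hd => ?_
  rw [scl_monomial]
  have hn : d.degree = n := by
    by_contra hne
    exact (mem_support_iff.mp hd) (h.coeff_eq_zero hne)
  rw [hn]

theorem scl_coeff (f : P3) (k : ℕ) : (scl f).coeff k = homogeneousComponent k f := by
  have h1 : scl f = ∑ i ∈ Finset.range (f.totalDegree + 1),
      Polynomial.C (homogeneousComponent i f) * Polynomial.X ^ i := by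
    conv_lhs => rw [← sum_homogeneousComponent f]
    rw [map_sum]
    exact Finset.sum_congr rfl fun i _ => scl_hom (homogeneousComponent_isHomogeneous i f)
  rw [h1, Polynomial.finsetSum_coeff]
  simp only [Polynomial.coeff_C_mul, Polynomial.coeff_X_pow]
  by_cases hk : k ∈ Finset.range (f.totalDegree + 1)
  · rw [Finset.sum_eq_single_of_mem k hk]
    · simp
    · intro b _ hb
      simp [Ne.symm hb]
  · rw [Finset.sum_eq_zero]
    · symm
      apply homogeneousComponent_eq_zero
      simp only [Finset.mem_range, not_lt] at hk; omega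
    · intro i hi
      have : k ≠ i := by rintro rfl; exact hk hi
      simp [this]

theorem scl_ne_zero {f : P3} (hf : f ≠ 0) : scl f ≠ 0 := by
  intro h
  apply hf
  rw [← sum_homogeneousComponent f]
  apply Finset.sum_eq_zero
  intro i _
  rw [← scl_coeff, h, Polynomial.coeff_zero]

/-- a factor of a homogeneous polynomial is homogeneous -/
theorem hom_of_mul {f g : P3} {n : ℕ} (h : (f * g).IsHomogeneous n) (h0 : f * g ≠ 0) :
    ∃ a, f.IsHomogeneous a := by
  have hf : f ≠ 0 := left_ne_zero_of_mul h0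
  have hg : g ≠ 0 := right_ne_zero_of_mul h0
  have h1 : scl f * scl g = Polynomial.C (f * g) * Polynomial.X ^ n := by
    rw [← map_mul, scl_hom h]
  have h2 := Polynomial.natDegree_mul (scl_ne_zero hf) (scl_ne_zero hg)
  have h3 := Polynomial.natTrailingDegree_mul (scl_ne_zero hf) (scl_ne_zero hg)
  have h4 : (Polynomial.C (f * g) * Polynomial.X ^ n : Polynomial P3).natDegree = n :=
    Polynomial.natDegree_C_mul_X_pow n _ h0
  have h5 : (Polynomial.C (f * g) * Polynomial.X ^ n : Polynomial P3).natTrailingDegree = n := by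
    rw [Polynomial.C_mul_X_pow_eq_monomial, Polynomial.natTrailingDegree_monomial h0]
  rw [h1, h4] at h2
  rw [h1, h5] at h3
  have h6 := Polynomial.natTrailingDegree_le_natDegree (scl f)
  have h7 := Polynomial.natTrailingDegree_le_natDegree (scl g)
  have h8 : (scl f).natDegree = (scl f).natTrailingDegree := by omega
  refine ⟨(scl f).natDegree, ?_⟩
  have h9 : f = homogeneousComponent (scl f).natDegree f := by
    conv_lhs => rw [← sum_homogeneousComponent f]
    apply Finset.sum_eq_single
    · intro k _ hk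
      rw [← scl_coeff]
      rcases lt_or_gt_of_ne hk with hlt | hgt
      · apply Polynomial.coeff_eq_zero_of_lt_natTrailingDegree
        omega
      · exact Polynomial.coeff_eq_zero_of_natDegree_lt hgt
    · intro hk
      apply homogeneousComponent_eq_zero
      simp only [Finset.mem_range, not_lt] at hk; omega
  have h10 := homogeneousComponent_isHomogeneous (scl f).natDegree f
  rwa [← h9] at h10

theorem hom_pos {f : P3} {a : ℕ} (h : f.IsHomogeneous a) (h0 : f ≠ 0) (hu : ¬ IsUnit f) :
    1 ≤ a := by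
  by_contra hlt
  have ha : a = 0 := by omega
  subst ha
  apply hu
  have h1 : f.totalDegree = 0 := h.totalDegree h0
  rw [MvPolynomial.totalDegree_eq_zero_iff_eq_C] at h1
  rw [h1]
  apply IsUnit.map
  rw [isUnit_iff_ne_zero]
  intro h2; apply h0; rw [h1, h2, map_zero]

theorem hom_eval_zero {f : P3} {a : ℕ} (h : f.IsHomogeneous a) (ha : 1 ≤ a) :
    eval 0 f = 0 := by
  have this : coeff 0 f = 0 := h.coeff_eq_zero (by simp; omega)
  have h2 : (eval (0 : Fin 3 → ℂ)) = (constantCoeff : P3 →+* ℂ) := by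
    apply MvPolynomial.ringHom_ext
    · intro r; simp
    · intro i; simp
  rw [h2, constantCoeff_eq]
  exact this

theorem irreducible_of_smooth {δ : P3} {n : ℕ} (hn : 1 ≤ n) (hδ : δ.IsHomogeneous n)
    (hsm : ∀ z : Fin 3 → ℂ, z ≠ 0 → eval z δ = 0 → ∃ i, eval z (pderiv i δ) ≠ 0) :
    Irreducible δ := by
  have h0 : δ ≠ 0 := by
    rintro rfl
    obtain ⟨i, hi⟩ := hsm 1 one_ne_zero (by simp)
    simp at hi
  constructor
  · intro hu
    have h1 := hu.map (eval (0 : Fin 3 → ℂ))
    rw [hom_eval_zero hδ hn] at h1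
    simp at h1
  · intro f g hfg
    by_contra hcon
    push Not at hcon
    obtain ⟨hfu, hgu⟩ := hcon
    have hf0 : f ≠ 0 := by rintro rfl; simp at hfg; exact h0 hfg
    have hg0 : g ≠ 0 := by rintro rfl; simp at hfg; exact h0 hfg
    obtain ⟨a, ha⟩ := hom_of_mul (f := f) (g := g) (hfg ▸ hδ) (hfg ▸ h0)
    obtain ⟨b, hb⟩ := hom_of_mul (f := g) (g := f) (by rw [mul_comm]; exact hfg ▸ hδ)
      (by rw [mul_comm]; exact hfg ▸ h0)
    have ha1 := hom_pos ha hf0 hfu
    have hb1 := hom_pos hb hg0 hgu
    obtain ⟨x, hx, hxz⟩ := Pool.Agent.Helper16.exists_common_zero (σ := Fin 3) ![f, g]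
      (by
        intro i
        fin_cases i
        · exact hom_eval_zero ha ha1
        · exact hom_eval_zero hb hb1) (by simp)
    have hxf : eval x f = 0 := hxz 0
    have hxg : eval x g = 0 := hxz 1
    obtain ⟨i, hi⟩ := hsm x hx (by rw [hfg, map_mul, hxf, zero_mul])
    apply hi
    rw [hfg, pderiv_mul, map_add, map_mul, map_mul, hxf, hxg]
    ring

theorem eval_dh2 (x : Fin 2 → ℂ) (G : P3) :
    eval x (dh2 G) = eval (Fin.cons 1 x : Fin 3 → ℂ) G := by
  have : (aeval x : P2 →ₐ[ℂ] ℂ).comp dh2 = aeval (Fin.cons 1 x : Fin 3 → ℂ) := by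
    apply MvPolynomial.algHom_ext
    intro i
    refine Fin.cases ?_ (fun j => ?_) i
    · simp [dh2]
    · simp [dh2]
  have h := DFunLike.congr_fun this G
  simpa [aeval_eq_eval] using h

theorem pderiv_dh2 (G : P3) (j : Fin 2) : pderiv j (dh2 G) = dh2 (pderiv j.succ G) := by
  induction G using MvPolynomial.induction_on with
  | C a =>
    have : dh2 (C a) = C a := dh2.commutes a
    rw [this, pderiv_C, pderiv_C, map_zero]
  | add p q hp hq => rw [map_add, map_add, map_add, map_add, hp, hq]
  | mul_X p i hp =>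
    rw [map_mul, pderiv_mul, pderiv_mul, map_add, map_mul, map_mul, hp]
    congr 2
    refine Fin.cases ?_ (fun k => ?_) i
    · have h1 : dh2 (X 0) = 1 := by simp [dh2]
      rw [h1, pderiv_one, pderiv_X_of_ne (Fin.succ_ne_zero j).symm, map_zero]
    · have h1 : dh2 (X k.succ) = X k := by simp [dh2]
      rw [h1, pderiv_X, pderiv_X]
      by_cases hk : k = j
      · subst hk; simp
      · rw [Pi.single_eq_of_ne hk, Pi.single_eq_of_ne (fun h => hk (Fin.succ_injective _ h)),
          map_zero]

theorem smooth_dh2 {δ : P3} {n : ℕ} (hδ : δ.IsHomogeneous n)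
    (hsm : ∀ z : Fin 3 → ℂ, z ≠ 0 → eval z δ = 0 → ∃ i, eval z (pderiv i δ) ≠ 0)
    (P : Fin 2 → ℂ) (h : eval P (dh2 δ) = 0) : ∃ i, eval P (pderiv i (dh2 δ)) ≠ 0 := by
  set z : Fin 3 → ℂ := Fin.cons 1 P with hz
  have hz0 : z ≠ 0 := by
    intro h0
    have := congr_fun h0 0
    simp [hz] at this
  rw [eval_dh2] at h
  obtain ⟨i, hi⟩ := hsm z hz0 h
  by_contra hcon
  push Not at hcon
  have h1 : ∀ j : Fin 2, eval z (pderiv j.succ δ) = 0 := by
    intro j
    rw [hz, ← eval_dh2, ← pderiv_dh2]
    exact hcon j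
  have h2 := congr_arg (eval z) hδ.sum_X_mul_pderiv
  rw [map_sum, Fin.sum_univ_succ] at h2
  simp only [map_mul, eval_X, h1, mul_zero, Finset.sum_const_zero, add_zero] at h2
  have h3 : eval z (pderiv 0 δ) = 0 := by
    have hz1 : z 0 = 1 := by simp [hz]
    rw [hz1, one_mul] at h2
    rw [h2, nsmul_eq_mul, map_mul, h, mul_zero]
  revert hi
  refine Fin.cases ?_ (fun j => ?_) i
  · intro hi; exact hi h3
  · intro hi; exact hi (h1 j)

theorem dh2_inj {G : P3} {n : ℕ} (hG : G.IsHomogeneous n) (h : dh2 G = 0) : G = 0 := by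
  have h0 : X 0 * G = 0 := by
    apply MvPolynomial.funext
    intro v
    rw [map_mul, eval_X, map_zero]
    by_cases hv : v 0 = 0
    · rw [hv, zero_mul]
    · have hv' : v = v 0 • (Fin.cons 1 (fun i => (v 0)⁻¹ * v i.succ) : Fin 3 → ℂ) := by
        funext i
        refine Fin.cases ?_ (fun j => ?_) i
        · simp
        · simp [hv]
      have h1 : eval v G = 0 := by
        have h2 : ∀ (c : ℂ) (w : Fin 3 → ℂ), eval (c • w) G = c ^ n * eval w G := by
          intro c w
          rw [eval_eq, eval_eq, Finset.mul_sum]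
          refine Finset.sum_congr rfl fun d hd => ?_
          have hn := hG.degree_eq_sum_deg_support hd
          simp only [Pi.smul_apply, smul_eq_mul, mul_pow]
          rw [Finset.prod_mul_distrib, Finset.prod_pow_eq_pow_sum, ← hn]
          ring
        rw [hv', h2, ← eval_dh2, h, map_zero, mul_zero]
      rw [h1, mul_zero]
  rcases mul_eq_zero.mp h0 with h1 | h1
  · exact absurd h1 (X_ne_zero 0)
  · exact h1

/-- homogenisation to degree `n` -/
noncomputable def hmg2 (n : ℕ) (p : P2) : P3 :=
  ∑ i ∈ Finset.range (n + 1), X 0 ^ (n - i) * rename Fin.succ (homogeneousComponent i p)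

theorem hmg2_hom (n : ℕ) (p : P2) : (hmg2 n p).IsHomogeneous n := by
  apply IsHomogeneous.sum
  intro i hi
  have h1 : (X 0 ^ (n - i) : P3).IsHomogeneous (n - i) := isHomogeneous_X_pow _ _
  have h2 : (rename Fin.succ (homogeneousComponent i p) : P3).IsHomogeneous i :=
    (homogeneousComponent_isHomogeneous i p).rename_isHomogeneous
  have h3 := h1.mul h2
  have : n - i + i = n := by
    have := Finset.mem_range.mp hi; omega
  rwa [this] at h3

theorem dh2_hmg2 {n : ℕ} {p : P2} (hp : p.totalDegree ≤ n) : dh2 (hmg2 n p) = p := by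
  have h1 : ∀ q : P2, dh2 (rename Fin.succ q) = q := by
    intro q
    rw [dh2, aeval_rename]
    have : ((Fin.cons 1 X : Fin 3 → P2) ∘ Fin.succ) = X := by
      funext i; simp
    rw [this]; simp
  have h2 : dh2 (X 0) = 1 := by simp [dh2]
  unfold hmg2
  rw [map_sum]
  simp only [map_mul, map_pow, h1, h2, one_pow, one_mul]
  have hs := sum_homogeneousComponent p
  have hsub : Finset.range (p.totalDegree + 1) ⊆ Finset.range (n + 1) :=
    Finset.range_mono (by omega)
  rw [← Finset.sum_subset hsub, hs]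
  intro i _ hi
  apply homogeneousComponent_eq_zero
  simp only [Finset.mem_range, not_lt] at hi; omega

theorem totalDegree_dh2_le {G : P3} {n : ℕ} (hG : G.IsHomogeneous n) :
    (dh2 G).totalDegree ≤ n := by
  rw [dh2, aeval_def, eval₂_eq]
  apply totalDegree_finsetSum_le
  intro d hd
  refine le_trans (totalDegree_mul _ _) ?_
  have h1 : (algebraMap ℂ P2 (coeff d G)).totalDegree = 0 := by
    rw [MvPolynomial.algebraMap_eq]; exact totalDegree_C _
  rw [h1, zero_add]
  refine le_trans (totalDegree_finsetProd _ _) ?_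
  have hn := hG.degree_eq_sum_deg_support hd
  rw [hn]
  apply Finset.sum_le_sum
  intro i _
  refine le_trans (totalDegree_pow _ _) ?_
  have : ((Fin.cons 1 X : Fin 3 → P2) i).totalDegree ≤ 1 := by
    refine Fin.cases ?_ (fun j => ?_) i
    · simp
    · simp
  calc d i * _ ≤ d i * 1 := Nat.mul_le_mul_left _ this
    _ = d i := mul_one _

theorem totalDegree_dh2 {δ : P3} {n : ℕ} (hδ : δ.IsHomogeneous n) (h0 : ¬ X 0 ∣ δ) :
    (dh2 δ).totalDegree = n := by
  apply le_antisymm (totalDegree_dh2_le hδ)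
  by_contra hlt
  push Not at hlt
  apply h0
  refine ⟨hmg2 (n - 1) (dh2 δ), ?_⟩
  have h2 : (δ - X 0 * hmg2 (n - 1) (dh2 δ)).IsHomogeneous n := by
    apply hδ.sub
    have := (isHomogeneous_X ℂ (0 : Fin 3)).mul (hmg2_hom (n - 1) (dh2 δ))
    have h3 : 1 + (n - 1) = n := by omega
    rwa [h3] at this
  have h3 : dh2 (δ - X 0 * hmg2 (n - 1) (dh2 δ)) = 0 := by
    rw [map_sub, map_mul, dh2_hmg2 (by omega)]
    simp [dh2]
  exact sub_eq_zero.mp (dh2_inj h2 h3)

theorem irreducible_dh2 {δ : P3} {n : ℕ} (hδ : δ.IsHomogeneous n) (hirr : Irreducible δ)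
    (h0 : ¬ X 0 ∣ δ) : Irreducible (dh2 δ) := by
  have hdeg := totalDegree_dh2 hδ h0
  have hn : 1 ≤ n := hom_pos hδ hirr.ne_zero hirr.not_isUnit
  have hne : dh2 δ ≠ 0 := by
    intro h; rw [h] at hdeg; simp at hdeg; omega
  constructor
  · intro hu
    have := MvPolynomial.isUnit_iff_totalDegree_of_isReduced.mp hu
    omega
  · intro a b hab
    have ha0 : a ≠ 0 := by rintro rfl; simp at hab; exact hne hab
    have hb0 : b ≠ 0 := by rintro rfl; simp at hab; exact hne hab
    have hd := totalDegree_mul_of_isDomain ha0 hb0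
    rw [← hab, hdeg] at hd
    have h1 : δ = hmg2 a.totalDegree a * hmg2 b.totalDegree b := by
      have h2 : (δ - hmg2 a.totalDegree a * hmg2 b.totalDegree b).IsHomogeneous n := by
        apply hδ.sub
        rw [hd]
        exact (hmg2_hom _ a).mul (hmg2_hom _ b)
      have h4 : dh2 (δ - hmg2 a.totalDegree a * hmg2 b.totalDegree b) = 0 := by
        rw [map_sub, map_mul, dh2_hmg2 le_rfl, dh2_hmg2 le_rfl, hab, sub_self]
      exact sub_eq_zero.mp (dh2_inj h2 h4)
    rcases hirr.isUnit_or_isUnit h1 with hu | hu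
    · left
      have := hu.map dh2
      rwa [dh2_hmg2 le_rfl] at this
    · right
      have := hu.map dh2
      rwa [dh2_hmg2 le_rfl] at this

theorem dvd_of_dh2_dvd {p q : P3} {n m : ℕ} (hp : p.IsHomogeneous n) (hq : q.IsHomogeneous m)
    (hirr : Irreducible p) (h0 : ¬ X 0 ∣ p) (h : dh2 p ∣ dh2 q) : p ∣ q := by
  obtain ⟨c, hc⟩ := h
  by_cases hc0 : c = 0
  · rw [hc0, mul_zero] at hc
    rw [dh2_inj hq hc]
    exact dvd_zero p
  have hdeg := totalDegree_dh2 hp h0
  have hn : 1 ≤ n := hom_pos hp hirr.ne_zero hirr.not_isUnit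
  have hne : dh2 p ≠ 0 := by
    intro h; rw [h] at hdeg; simp at hdeg; omega
  have hd := totalDegree_mul_of_isDomain hne hc0
  rw [← hc, hdeg] at hd
  have h4 := totalDegree_dh2_le hq
  refine ⟨hmg2 (m - n) c, ?_⟩
  have h2 : (q - p * hmg2 (m - n) c).IsHomogeneous m := by
    apply hq.sub
    have := hp.mul (hmg2_hom (m - n) c)
    have h5 : n + (m - n) = m := by omega
    rwa [h5] at this
  have h3 : dh2 (q - p * hmg2 (m - n) c) = 0 := by
    rw [map_sub, map_mul, dh2_hmg2 (by omega), hc, sub_self]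
  exact sub_eq_zero.mp (dh2_inj h2 h3)

end Pool.Agent.Helper29.HP
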