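import Pool.Agent.Helper29.HP.St.Ded

set_option autoImplicit false

/-!
Piece HP-SQ.  If `h` has even multiplicity everywhere on the smooth affine curve `f = 0` then
`(f, h) = b^2 + (f)` for an ideal `b`, and `b` has half the colength.  Hint: work in the Dedekind
domain `B = P2 / (f)` (`dedekind_of_smooth`): all exponents of the factorisation of `(h)` are even
(compare `α h = β σ^2` at each maximal ideal), so `(h) = 𝔟^2`.  Choose `b ∈ 𝔟` with
`(b) + 𝔟^2 = 𝔟` (`IsDedekindDomain.exists_sup_span_eq` or similar); multiplication by `b` induces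
`B / 𝔟 ≃ 𝔟 / 𝔟^2`, so `dim B / 𝔟^2 = 2 dim B / 𝔟`.
-/

namespace Pool.Agent.Helper29.HP

open MvPolynomial

/-- A nonzero ideal of a Dedekind domain all of whose exponents are even is a square. -/
theorem ideal_sq_of_even {B : Type*} [CommRing B] [IsDedekindDomain B] (I : Ideal B) (hI : I ≠ 0)
    (hev : ∀ p : Ideal B, p ∈ UniqueFactorizationMonoid.normalizedFactors I →
      Even ((UniqueFactorizationMonoid.normalizedFactors I).count p)) :
    ∃ J : Ideal B, J ^ 2 = I := by
  classical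
  set s := UniqueFactorizationMonoid.normalizedFactors I with hs
  let t : Multiset (Ideal B) :=
    Finsupp.toMultiset ((Multiset.toFinsupp s).mapRange (fun k => k / 2) (by simp))
  refine ⟨t.prod, ?_⟩
  have hst : s = t + t := by
    ext p
    rw [Multiset.count_add, Finsupp.count_toMultiset]
    simp only [Finsupp.mapRange_apply, Multiset.toFinsupp_apply]
    by_cases hp : p ∈ s
    · have := hev p hp
      obtain ⟨k, hk⟩ := this
      convert_to s.count p = s.count p / 2 + s.count p / 2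
      omega
    · have h0 : s.count p = 0 := Multiset.count_eq_zero.2 hp
      convert_to s.count p = s.count p / 2 + s.count p / 2
      rw [h0]
  have hprod : s.prod = I :=
    associated_iff_eq.1 (UniqueFactorizationMonoid.prod_normalizedFactors hI)
  rw [← hprod, hst, Multiset.prod_add, pow_two]

theorem exists_sq_ideal (f h : P2) (hf : Irreducible f)
    (hsm : ∀ P : Fin 2 → ℂ, eval P f = 0 → ∃ i, eval P (pderiv i f) ≠ 0) (hfh : ¬ f ∣ h)
    (hev : ∀ P : Fin 2 → ℂ, eval P f = 0 → ∃ α β σ : P2, eval P α ≠ 0 ∧ eval P β ≠ 0 ∧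
      f ∣ α * h - β * σ ^ 2)
    (hfin : FiniteDimensional ℂ (P2 ⧸ Ideal.span {f, h})) :
    ∃ b : Ideal P2, f ∈ b ∧ (∀ x ∈ b, ∀ y ∈ b, x * y ∈ Ideal.span {f, h}) ∧
      FiniteDimensional ℂ (P2 ⧸ b) ∧
      2 * Module.finrank ℂ (P2 ⧸ b) ≤ Module.finrank ℂ (P2 ⧸ Ideal.span {f, h}) := by
  classical
  have hprime : (Ideal.span {f} : Ideal P2).IsPrime :=
    (Ideal.span_singleton_prime hf.ne_zero).2 hf.prime
  have hded : IsDedekindDomain (P2 ⧸ Ideal.span {f}) := dedekind_of_smooth f hf hsm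
  let π : P2 →+* P2 ⧸ Ideal.span {f} := Ideal.Quotient.mk (Ideal.span {f})
  have hπ : Function.Surjective π := Ideal.Quotient.mk_surjective
  have hπ0 : ∀ x, π x = 0 ↔ f ∣ x := by
    intro x
    rw [show π x = Ideal.Quotient.mk (Ideal.span {f}) x from rfl, Ideal.Quotient.eq_zero_iff_mem,
      Ideal.mem_span_singleton]
  have hh0 : π h ≠ 0 := fun h' => hfh ((hπ0 h).1 h')
  have hI0 : (Ideal.span {π h} : Ideal (P2 ⧸ Ideal.span {f})) ≠ 0 := by
    rw [Ne, Ideal.zero_eq_bot, Ideal.span_singleton_eq_bot]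
    exact hh0
  obtain ⟨𝔟, h𝔟⟩ := ideal_sq_of_even (Ideal.span {π h}) hI0 (by
    intro p hp
    have hpp : Prime p := UniqueFactorizationMonoid.prime_of_normalized_factor p hp
    have hpprime : p.IsPrime := Ideal.isPrime_of_prime hpp
    have hpmax : p.IsMaximal := hpprime.isMaximal hpp.ne_zero
    have hcmax : (p.comap π).IsMaximal := Ideal.comap_isMaximal_of_surjective π hπ
    obtain ⟨P, hP⟩ := MvPolynomial.isMaximal_iff_eq_vanishingIdeal_singleton.1 hcmax
    have hmem : ∀ x : P2, π x ∈ p ↔ eval P x = 0 := by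
      intro x
      rw [← Ideal.mem_comap, hP, mem_vanishingIdeal_singleton_iff]
      rfl
    have hfP : eval P f = 0 := by
      rw [← hmem, (hπ0 f).2 dvd_rfl]
      exact p.zero_mem
    obtain ⟨α, β, σ, hα, hβ, hdiv⟩ := hev P hfP
    have heq : π α * π h = π β * π σ ^ 2 := by
      have h1 := (hπ0 _).2 hdiv
      rw [map_sub, map_mul, map_mul, map_pow] at h1
      exact sub_eq_zero.1 h1
    have hα0 : π α ≠ 0 := fun h' => hα ((hmem α).1 (by rw [h']; exact p.zero_mem))
    have hβ0 : π β ≠ 0 := fun h' => hβ ((hmem β).1 (by rw [h']; exact p.zero_mem))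
    have hσ0 : π σ ≠ 0 := by
      intro h'
      rw [h', zero_pow two_ne_zero, mul_zero] at heq
      exact (mul_ne_zero hα0 hh0) heq
    have hideal : Ideal.span {π α} * Ideal.span {π h} =
        Ideal.span {π β} * Ideal.span {π σ} ^ 2 := by
      rw [Ideal.span_singleton_pow, Ideal.span_singleton_mul_span_singleton,
        Ideal.span_singleton_mul_span_singleton, heq]
    have hnz : ∀ z, z ≠ 0 → (Ideal.span {z} : Ideal (P2 ⧸ Ideal.span {f})) ≠ 0 := by
      intro z hz
      rw [Ne, Ideal.zero_eq_bot, Ideal.span_singleton_eq_bot]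
      exact hz
    have hcnt : ∀ z, z ∉ p → z ≠ 0 → (UniqueFactorizationMonoid.normalizedFactors
        (Ideal.span {z} : Ideal (P2 ⧸ Ideal.span {f}))).count p = 0 := by
      intro z hz hz0
      rw [Multiset.count_eq_zero]
      intro hmemz
      have h1 := UniqueFactorizationMonoid.dvd_of_mem_normalizedFactors hmemz
      rw [Ideal.dvd_span_singleton] at h1
      exact hz h1
    have hfac := congrArg (fun I => (UniqueFactorizationMonoid.normalizedFactors I).count p) hideal
    rw [UniqueFactorizationMonoid.normalizedFactors_mul (hnz _ hα0) (hnz _ hh0),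
      UniqueFactorizationMonoid.normalizedFactors_mul (hnz _ hβ0) (pow_ne_zero 2 (hnz _ hσ0)),
      UniqueFactorizationMonoid.normalizedFactors_pow, Multiset.count_add, Multiset.count_add,
      Multiset.count_nsmul, hcnt _ (fun h' => hα ((hmem α).1 h')) hα0,
      hcnt _ (fun h' => hβ ((hmem β).1 h')) hβ0, zero_add, zero_add] at hfac
    rw [hfac]
    exact even_two_mul _)
  have h𝔟0 : 𝔟 ≠ 0 := by
    intro h'
    rw [h', zero_pow two_ne_zero] at h𝔟
    exact hI0 h𝔟.symm
  -- the ideal of the plane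
  have hJ : ∀ x : P2, x ∈ Ideal.span {f, h} ↔ π x ∈ 𝔟 ^ 2 := by
    intro x
    rw [h𝔟, Ideal.mem_span_singleton]
    constructor
    · intro hx
      obtain ⟨u, v, huv⟩ := Ideal.mem_span_pair.1 hx
      refine ⟨π v, ?_⟩
      rw [← huv, map_add, map_mul, map_mul, (hπ0 f).2 dvd_rfl, mul_zero, zero_add, mul_comm]
    · rintro ⟨v', hv'⟩
      obtain ⟨v, rfl⟩ := hπ v'
      have h1 : π (x - h * v) = 0 := by rw [map_sub, map_mul, hv', sub_self]
      obtain ⟨u, hu⟩ := (hπ0 _).1 h1
      refine Ideal.mem_span_pair.2 ⟨u, v, ?_⟩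
      linear_combination -hu
  have hsqle : 𝔟 ^ 2 ≤ 𝔟 := Ideal.pow_le_self two_ne_zero
  let b : Ideal P2 := 𝔟.comap π
  have hJb : Ideal.span {f, h} ≤ b := by
    intro x hx
    exact hsqle ((hJ x).1 hx)
  obtain ⟨a0, ha0⟩ := IsDedekindDomain.exists_sup_span_eq hsqle (pow_ne_zero 2 h𝔟0)
  obtain ⟨a, rfl⟩ := hπ a0
  have ha𝔟 : π a ∈ 𝔟 := by
    rw [← ha0]
    exact Ideal.mem_sup_right (Ideal.mem_span_singleton_self _)
  have hkey : ∀ x : P2, a * x ∈ Ideal.span {f, h} → x ∈ b := by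
    intro x hx
    have h1 : π a * π x ∈ 𝔟 ^ 2 := by
      rw [← map_mul]
      exact (hJ _).1 hx
    have h2 : Ideal.span {π x} * 𝔟 ≤ 𝔟 * 𝔟 := by
      rw [← pow_two]
      conv_lhs => rw [← ha0]
      rw [Ideal.mul_sup]
      refine sup_le ?_ ?_
      · exact Ideal.mul_le_right.trans le_rfl
      · rw [Ideal.span_singleton_mul_span_singleton, Ideal.span_singleton_le_iff_mem, mul_comm]
        exact h1
    have h3 : Ideal.span {π x} ≤ 𝔟 := by
      rw [← Ideal.dvd_iff_le] at h2 ⊢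
      exact (mul_dvd_mul_iff_right h𝔟0).1 h2
    exact h3 (Ideal.mem_span_singleton_self _)
  have hmul : ∀ x ∈ b, ∀ y ∈ b, x * y ∈ Ideal.span {f, h} := by
    intro x hx y hy
    rw [hJ, map_mul, pow_two]
    exact Ideal.mul_mem_mul hx hy
  -- linear algebra
  let F : (P2 ⧸ Ideal.span {f, h}) →ₐ[ℂ] (P2 ⧸ b) := Ideal.Quotient.factorₐ ℂ hJb
  have hFsurj : Function.Surjective F := by
    intro y
    obtain ⟨x, rfl⟩ := Ideal.Quotient.mk_surjective y
    exact ⟨Ideal.Quotient.mk _ x, rfl⟩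
  have hfinb : FiniteDimensional ℂ (P2 ⧸ b) :=
    Module.Finite.of_surjective F.toLinearMap hFsurj
  let G0 : P2 →ₗ[ℂ] (P2 ⧸ Ideal.span {f, h}) :=
    (Ideal.Quotient.mkₐ ℂ (Ideal.span {f, h})).toLinearMap ∘ₗ LinearMap.mulLeft ℂ a
  have hG0 : ∀ x, G0 x = Ideal.Quotient.mk (Ideal.span {f, h}) (a * x) := fun x => rfl
  let π2 : P2 →ₗ[ℂ] (P2 ⧸ b) := (Ideal.Quotient.mkₐ ℂ b).toLinearMap
  have hπ2 : Function.Surjective π2 := Ideal.Quotient.mk_surjective
  have hker : LinearMap.ker G0 = LinearMap.ker π2 := by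
    ext x
    rw [LinearMap.mem_ker, LinearMap.mem_ker, hG0, Ideal.Quotient.eq_zero_iff_mem]
    rw [show π2 x = Ideal.Quotient.mk b x from rfl, Ideal.Quotient.eq_zero_iff_mem]
    constructor
    · exact hkey x
    · intro hx
      exact hmul a ha𝔟 x hx
  have e1 : LinearMap.range G0 ≃ₗ[ℂ] (P2 ⧸ b) :=
    (G0.quotKerEquivRange.symm.trans (Submodule.quotEquivOfEq _ _ hker)).trans
      (π2.quotKerEquivOfSurjective hπ2)
  have hrange : LinearMap.range G0 ≤ LinearMap.ker F.toLinearMap := by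
    rintro _ ⟨x, rfl⟩
    rw [LinearMap.mem_ker, hG0]
    have : F.toLinearMap (Ideal.Quotient.mk (Ideal.span {f, h}) (a * x)) =
      Ideal.Quotient.mk b (a * x) := rfl
    rw [this, Ideal.Quotient.eq_zero_iff_mem]
    exact b.mul_mem_right x ha𝔟
  have h1 : Module.finrank ℂ (P2 ⧸ b) ≤ Module.finrank ℂ (LinearMap.ker F.toLinearMap) := by
    rw [← e1.finrank_eq]
    exact Submodule.finrank_mono hrange
  have h2 := LinearMap.finrank_range_add_finrank_ker F.toLinearMap
  rw [LinearMap.range_eq_top.2 hFsurj, finrank_top] at h2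
  refine ⟨b, ?_, hmul, hfinb, by omega⟩
  show π f ∈ 𝔟
  rw [(hπ0 f).2 dvd_rfl]
  exact 𝔟.zero_mem

end Pool.Agent.Helper29.HP
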