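import Pool.Agent.Helper29.HP.Defs

set_option autoImplicit false

/-!
Piece HP-BEZ.  Bezout for the dimension of the intersection algebra.  Hint: in degree at most
`d` the ideal contains `f C[x,y]_{≤ d-m} + h C[x,y]_{≤ d-n}`, whose dimension is at least
`D(d-m) + D(d-n) - D(d-m-n)`, `D(e) = (e+1)(e+2)/2` (a relation `f a = h b` forces `h ∣ a`), so
the image of `C[x,y]_{≤ d}` in the quotient has dimension at most `m n` for all `d ≥ m + n`.
-/

namespace Pool.Agent.Helper29.HP

open MvPolynomial

private noncomputable abbrev bezR (d : ℕ) : Submodule ℂ P2 := restrictTotalDegree (Fin 2) ℂ d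

private def bezT (d : ℕ) : Finset (Σ _ : ℕ, ℕ × ℕ) :=
  (Finset.range (d + 1)).sigma fun k => (Finset.HasAntidiagonal.antidiagonal k : Finset (ℕ × ℕ))

private lemma mem_bezT (d : ℕ) (q : Σ _ : ℕ, ℕ × ℕ) :
    q ∈ bezT d ↔ q.1 < d + 1 ∧ q.2.1 + q.2.2 = q.1 := by
  simp only [bezT, Finset.mem_sigma, Finset.mem_range, Finset.HasAntidiagonal.mem_antidiagonal]

private def bezE (d : ℕ) : {p : ℕ × ℕ // p.1 + p.2 ≤ d} ≃ {q // q ∈ bezT d} where
  toFun := fun p => ⟨⟨p.1.1 + p.1.2, p.1⟩, by
    have := p.2
    rw [mem_bezT]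
    exact ⟨by simp only; omega, rfl⟩⟩
  invFun := fun q => ⟨q.1.2, by
    have := (mem_bezT d _).mp q.2
    omega⟩
  left_inv := fun p => rfl
  right_inv := fun q => by
    obtain ⟨⟨k, p⟩, hq⟩ := q
    have h := (mem_bezT d _).mp hq
    obtain ⟨_, h2⟩ := h
    simp only at h2
    subst h2
    rfl

private lemma bez_card (d : ℕ) :
    2 * Nat.card {p : ℕ × ℕ // p.1 + p.2 ≤ d} = (d + 1) * (d + 2) := by
  classical
  rw [Nat.card_congr (bezE d), Nat.card_eq_fintype_card, Fintype.card_coe, bezT,
    Finset.card_sigma]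
  simp only [Finset.Nat.card_antidiagonal]
  induction d with
  | zero => simp
  | succ d ih =>
    rw [Finset.sum_range_succ, mul_add, ih]
    ring

private lemma bez_finrank (d : ℕ) :
    2 * Module.finrank ℂ (bezR d) = (d + 1) * (d + 2) := by
  classical
  rw [← bez_card d]
  congr 1
  unfold bezR
  rw [restrictTotalDegree, Module.finrank_eq_nat_card_basis (basisRestrictSupport ℂ _)]
  refine Nat.card_congr ?_
  refine ((Finsupp.equivFunOnFinite).trans (finTwoArrowEquiv ℕ)).subtypeEquiv ?_
  intro f
  have : (f.sum fun _ e => e) = ∑ i, f i := Finsupp.sum_fintype _ _ (fun _ => rfl)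
  simp only [Set.mem_ofPred_eq, this, Fin.sum_univ_two]
  rfl

private noncomputable def bezL (f h : P2) (i j : ℕ) : (bezR i × bezR j) →ₗ[ℂ] P2 :=
  LinearMap.coprod ((LinearMap.mulLeft ℂ f).comp (bezR i).subtype)
    ((LinearMap.mulLeft ℂ h).comp (bezR j).subtype)

private lemma bezL_apply (f h : P2) (i j : ℕ) (p : bezR i × bezR j) :
    bezL f h i j p = f * (p.1 : P2) + h * (p.2 : P2) := rfl

private lemma bez_ker (f h : P2) (hf0 : f ≠ 0) (hh0 : h ≠ 0) (hrel : IsRelPrime f h) (d : ℕ)
    (hd : f.totalDegree + h.totalDegree ≤ d) :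
    Module.finrank ℂ (LinearMap.ker (bezL f h (d - f.totalDegree) (d - h.totalDegree))) ≤
      Module.finrank ℂ (bezR (d - f.totalDegree - h.totalDegree)) := by
  set i := d - f.totalDegree with hi
  set j := d - h.totalDegree with hj
  set L := bezL f h i j with hL
  let J : (bezR i × bezR j) →ₗ[ℂ] P2 × P2 := LinearMap.prodMap (bezR i).subtype (bezR j).subtype
  have hJ : Function.Injective J := by
    rintro ⟨a, b⟩ ⟨a', b'⟩ hab
    have := Prod.mk.inj hab
    exact Prod.ext (Subtype.ext this.1) (Subtype.ext this.2)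
  let M : bezR (i - h.totalDegree) →ₗ[ℂ] P2 × P2 :=
    LinearMap.prod ((LinearMap.mulLeft ℂ h).comp (bezR (i - h.totalDegree)).subtype)
      ((LinearMap.mulLeft ℂ (-f)).comp (bezR (i - h.totalDegree)).subtype)
  have hsub : (LinearMap.ker L).map J ≤ LinearMap.range M := by
    rintro _ ⟨⟨a, b⟩, hab, rfl⟩
    have hab' : f * (a : P2) + h * (b : P2) = 0 := hab
    have h1 : h ∣ f * (a : P2) := by
      refine ⟨-(b : P2), ?_⟩
      linear_combination hab'
    have h2 : h ∣ (a : P2) := hrel.symm.dvd_of_dvd_mul_left h1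
    obtain ⟨c, hc⟩ := h2
    have hb : (b : P2) = -f * c := by
      apply mul_left_cancel₀ hh0
      rw [hc] at hab'
      linear_combination hab'
    have hcd : c ∈ bezR (i - h.totalDegree) := by
      rw [mem_restrictTotalDegree]
      by_cases hc0 : c = 0
      · rw [hc0, totalDegree_zero]
        exact Nat.zero_le _
      · have h3 : (a : P2).totalDegree ≤ i := (mem_restrictTotalDegree _ _ _).mp a.2
        rw [hc, totalDegree_mul_of_isDomain hh0 hc0] at h3
        omega
    refine ⟨⟨c, hcd⟩, ?_⟩
    change (h * c, -f * c) = ((a : P2), (b : P2))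
    rw [hc, hb]
  have e1 : Module.finrank ℂ ((LinearMap.ker L).map J) = Module.finrank ℂ (LinearMap.ker L) :=
    (LinearEquiv.finrank_eq (Submodule.equivMapOfInjective J hJ _)).symm
  rw [← e1]
  refine (Submodule.finrank_mono hsub).trans ?_
  exact LinearMap.finrank_range_le M

private noncomputable def bezS (f h : P2) (d : ℕ) : Submodule ℂ (P2 ⧸ Ideal.span {f, h}) :=
  (bezR d).map (Ideal.Quotient.mkₐ ℂ (Ideal.span {f, h})).toLinearMap

private lemma bez_S (f h : P2) (hf0 : f ≠ 0) (hh0 : h ≠ 0) (hrel : IsRelPrime f h) (d : ℕ)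
    (hd : f.totalDegree + h.totalDegree ≤ d) :
    Module.finrank ℂ (bezS f h d) ≤ f.totalDegree * h.totalDegree := by
  set I := Ideal.span {f, h} with hI
  let π : P2 →ₗ[ℂ] (P2 ⧸ I) := (Ideal.Quotient.mkₐ ℂ I).toLinearMap
  let ρ : bezR d →ₗ[ℂ] (P2 ⧸ I) := π.domRestrict (bezR d)
  have hrange : LinearMap.range ρ = bezS f h d := by
    rw [LinearMap.range_domRestrict]
    rfl
  have h1 := LinearMap.finrank_range_add_finrank_ker ρ
  set L := bezL f h (d - f.totalDegree) (d - h.totalDegree) with hL
  have h2 := LinearMap.finrank_range_add_finrank_ker L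
  rw [Module.finrank_prod] at h2
  have h3 := bez_ker f h hf0 hh0 hrel d hd
  rw [← hL] at h3
  have h4 : Module.finrank ℂ (LinearMap.range L) ≤ Module.finrank ℂ (LinearMap.ker ρ) := by
    have hsub : LinearMap.range L ≤ (LinearMap.ker ρ).map (bezR d).subtype := by
      rintro _ ⟨⟨a, b⟩, rfl⟩
      have hmem : L (a, b) ∈ bezR d := by
        rw [mem_restrictTotalDegree]
        change (f * (a : P2) + h * (b : P2)).totalDegree ≤ d
        have ha : (a : P2).totalDegree ≤ d - f.totalDegree :=
          (mem_restrictTotalDegree _ _ _).mp a.2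
        have hb : (b : P2).totalDegree ≤ d - h.totalDegree :=
          (mem_restrictTotalDegree _ _ _).mp b.2
        refine (totalDegree_add _ _).trans (max_le ?_ ?_)
        · refine (totalDegree_mul _ _).trans ?_
          omega
        · refine (totalDegree_mul _ _).trans ?_
          omega
      refine ⟨⟨L (a, b), hmem⟩, ?_, rfl⟩
      change Ideal.Quotient.mk I (f * (a : P2) + h * (b : P2)) = 0
      rw [Ideal.Quotient.eq_zero_iff_mem]
      refine I.add_mem (I.mul_mem_right _ (Ideal.subset_span ?_))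
        (I.mul_mem_right _ (Ideal.subset_span ?_))
      · simp
      · simp
    refine (Submodule.finrank_mono hsub).trans ?_
    exact Submodule.finrank_map_le _ _
  rw [hrange] at h1
  have k0 := bez_finrank d
  have k1 := bez_finrank (d - f.totalDegree)
  have k2 := bez_finrank (d - h.totalDegree)
  have k3 := bez_finrank (d - f.totalDegree - h.totalDegree)
  obtain ⟨e, he⟩ := Nat.exists_eq_add_of_le hd
  have e1 : d - f.totalDegree = h.totalDegree + e := by omega
  have e2 : d - h.totalDegree = f.totalDegree + e := by omega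
  have e3 : h.totalDegree + e - h.totalDegree = e := by omega
  have k0' : 2 * Module.finrank ℂ (bezR d) =
      (f.totalDegree + h.totalDegree + e + 1) * (f.totalDegree + h.totalDegree + e + 2) := by
    rw [k0, he]
  have k1' : 2 * Module.finrank ℂ (bezR (d - f.totalDegree)) =
      (h.totalDegree + e + 1) * (h.totalDegree + e + 2) := by
    rw [k1, e1]
  have k2' : 2 * Module.finrank ℂ (bezR (d - h.totalDegree)) =
      (f.totalDegree + e + 1) * (f.totalDegree + e + 2) := by
    rw [k2, e2]
  have k3' : 2 * Module.finrank ℂ (bezR (d - f.totalDegree - h.totalDegree)) =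
      (e + 1) * (e + 2) := by
    rw [k3, e1, e3]
  nlinarith

theorem bezout_dim (f h : P2) (m n : ℕ) (hf : f.totalDegree ≤ m) (hh : h.totalDegree ≤ n)
    (hrel : IsRelPrime f h) :
    FiniteDimensional ℂ (P2 ⧸ Ideal.span {f, h}) ∧
      Module.finrank ℂ (P2 ⧸ Ideal.span {f, h}) ≤ m * n := by
  classical
  by_cases htop : Ideal.span {f, h} = (⊤ : Ideal P2)
  · have hs : Subsingleton (P2 ⧸ Ideal.span {f, h}) := Ideal.Quotient.subsingleton_iff.mpr htop
    refine ⟨inferInstance, ?_⟩
    rw [Module.finrank_zero_of_subsingleton]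
    exact Nat.zero_le _
  have hf0 : f ≠ 0 := by
    rintro rfl
    apply htop
    have hu : IsUnit h := hrel (dvd_zero h) dvd_rfl
    exact Ideal.eq_top_of_isUnit_mem _ (Ideal.subset_span (by simp)) hu
  have hh0 : h ≠ 0 := by
    rintro rfl
    apply htop
    have hu : IsUnit f := hrel dvd_rfl (dvd_zero f)
    exact Ideal.eq_top_of_isUnit_mem _ (Ideal.subset_span (by simp)) hu
  have hr : Module.rank ℂ (P2 ⧸ Ideal.span {f, h}) ≤
      ((f.totalDegree * h.totalDegree : ℕ) : Cardinal) := by
    apply rank_le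
    intro s hs
    choose lift hlift using fun q : P2 ⧸ Ideal.span {f, h} => Ideal.Quotient.mk_surjective q
    let d := f.totalDegree + h.totalDegree + s.sup fun q => (lift q).totalDegree
    have hmem : ∀ q ∈ s, q ∈ bezS f h d := by
      intro q hq
      refine ⟨lift q, ?_, hlift q⟩
      rw [SetLike.mem_coe, mem_restrictTotalDegree]
      have := Finset.le_sup (f := fun q => (lift q).totalDegree) hq
      have h5 : (lift q).totalDegree ≤ d := by
        refine le_trans this ?_
        exact Nat.le_add_left _ _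
      exact h5
    have hb := bez_S f h hf0 hh0 hrel d (by omega)
    refine le_trans ?_ hb
    have hli : LinearIndependent ℂ fun i : s => (⟨i.1, hmem i.1 i.2⟩ : bezS f h d) := by
      apply LinearIndependent.of_comp (bezS f h d).subtype
      exact hs
    have : Module.Finite ℂ (bezS f h d) := by
      unfold bezS
      infer_instance
    have := hli.fintype_card_le_finrank
    rwa [Fintype.card_coe] at this
  have hfin : FiniteDimensional ℂ (P2 ⧸ Ideal.span {f, h}) :=
    Module.rank_lt_aleph0_iff.mp (lt_of_le_of_lt hr (Cardinal.natCast_lt_aleph0))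
  refine ⟨hfin, ?_⟩
  exact (Module.finrank_le_of_rank_le hr).trans (Nat.mul_le_mul hf hh)

end Pool.Agent.Helper29.HP
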