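import Mathlib
import Pool.Agent.Helper29.HP.St.Bez
import Pool.Agent.Helper29.HP.St.SqIdeal
import Pool.Agent.Helper29.HP.St.Irr
import Pool.Agent.Helper29.TR.St.NoeFin

set_option autoImplicit false

/-!
Piece HP-SIX.  Six sections of the theta characteristic twisted by one.  (1) `exists_six_affine`:
assume that `δ, h` have no common zero on the line `z0 = 0`.  With `f = dh2 δ`, `g = dh2 h`, the
ideal `b` of `exists_sq_ideal` and `bezout_dim` (`finrank (P2 / b) ≤ 6 k + 9`), the space of forms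
`s` of degree `k + 4` with `dh2 s ∈ b` modulo `δ` has dimension at least
`(6 k + 15) - (6 k + 9) = 6` (`finrank_hom3` of `Pool.Agent.Helper16.CubicBez`).  For two such
forms `dh2 (s s') = g a + f e`; homogenise and divide by powers of `z0` (no common zero at
infinity), so `s s' = h A + δ E` with `A` of degree five; `A` is unique because `δ` is prime of
degree six.  (2) `exists_six`: general case by a linear change of coordinates moving a line
avoiding the finite set `δ = h = 0` (`exists_lin_avoid` in `Pool.Agent.Helper29.TR.St.NoeFin`) to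
`z0 = 0`.
-/

namespace Pool.Agent.Helper29.HP

open MvPolynomial

namespace Six

theorem eval_dh2' (P : Fin 2 → ℂ) (p : P3) : eval P (dh2 p) = eval (Fin.cons 1 P) p := by
  induction p using MvPolynomial.induction_on with
  | C a => simp [dh2]
  | add p q hp hq => rw [map_add, map_add, map_add, hp, hq]
  | mul_X p i hp =>
    rw [map_mul, map_mul, map_mul, hp]
    congr 1
    refine Fin.cases ?_ (fun j => ?_) i <;> simp [dh2]

theorem dh2_inj {p q : P3} {d : ℕ} (hp : p.IsHomogeneous d) (hq : q.IsHomogeneous d)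
    (h : dh2 p = dh2 q) : p = q := by
  have h1 : (X 0 : P3) * (p - q) = 0 := by
    apply MvPolynomial.funext
    intro z
    rw [map_mul, eval_X, map_zero]
    by_cases hz : z 0 = 0
    · rw [hz, zero_mul]
    · have hz' : z = z 0 • (Fin.cons 1 (fun i : Fin 2 => z i.succ / z 0) : Fin 3 → ℂ) := by
        funext i
        refine Fin.cases ?_ (fun i => ?_) i
        · simp
        · simp [mul_div_cancel₀ _ hz]
      rw [hz', Helper16.eval_smul_of_hom (hp.sub hq), ← eval_dh2', map_sub, h, sub_self, map_zero]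
      simp
  have h2 : (X 0 : P3) ≠ 0 := X_ne_zero 0
  have := (mul_eq_zero.mp h1).resolve_left h2
  exact sub_eq_zero.mp this

/-- homogenisation -/
noncomputable def hmg (d : ℕ) (a : P2) : P3 :=
  ∑ i ∈ Finset.range (d + 1), X 0 ^ (d - i) * rename Fin.succ (homogeneousComponent i a)

theorem hmg_hom (d : ℕ) (a : P2) : (hmg d a).IsHomogeneous d := by
  apply IsHomogeneous.sum
  intro i hi
  have h1 := (isHomogeneous_X_pow (R := ℂ) (0 : Fin 3) (d - i)).mul
    ((homogeneousComponent_isHomogeneous i a).rename_isHomogeneous (f := Fin.succ))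
  have h2 : d - i + i = d := by
    have := Finset.mem_range.mp hi
    omega
  rwa [h2] at h1

theorem dh2_hmg {d : ℕ} {a : P2} (h : a.totalDegree ≤ d) : dh2 (hmg d a) = a := by
  have h1 : ∀ i ∈ Finset.range (d + 1),
      dh2 (X 0 ^ (d - i) * rename Fin.succ (homogeneousComponent i a)) =
        homogeneousComponent i a := by
    intro i _
    rw [map_mul, map_pow]
    have h0 : dh2 (X 0) = 1 := by simp [dh2]
    rw [h0, one_pow, one_mul]
    have h3 : dh2.comp (rename Fin.succ) = AlgHom.id ℂ P2 := by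
      apply MvPolynomial.algHom_ext
      intro j
      simp [dh2]
    exact DFunLike.congr_fun h3 _
  rw [hmg, map_sum, Finset.sum_congr rfl h1]
  conv_rhs => rw [← sum_homogeneousComponent a]
  symm
  apply Finset.sum_subset
  · intro i hi
    rw [Finset.mem_range] at hi ⊢
    omega
  · intro i _ hi
    apply homogeneousComponent_eq_zero
    rw [Finset.mem_range] at hi
    omega

theorem totalDegree_dh2_le {p : P3} {d : ℕ} (hp : p.IsHomogeneous d) :
    (dh2 p).totalDegree ≤ d := by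
  rw [dh2, aeval_def, eval₂_eq']
  refine (totalDegree_finsetSum_le (d := d) ?_)
  intro m hm
  have h1 := hp.degree_eq_sum_deg_support hm
  have h2 : ∑ i ∈ m.support, m i = m 0 + m 1 + m 2 := by
    have : m.sum (fun _ e => e) = ∑ i, m i := Finsupp.sum_fintype _ _ (by simp)
    rw [Finsupp.sum] at this
    rw [this, Fin.sum_univ_three]
  rw [Fin.prod_univ_three]
  have e0 : (Fin.cons 1 X : Fin 3 → P2) 0 = 1 := rfl
  have e1 : (Fin.cons 1 X : Fin 3 → P2) 1 = X 0 := rfl
  have e2 : (Fin.cons 1 X : Fin 3 → P2) 2 = X 1 := rfl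
  rw [e0, e1, e2, one_pow, one_mul]
  refine (totalDegree_mul _ _).trans ?_
  have h3 := totalDegree_mul (X 0 ^ m 1 : P2) (X 1 ^ m 2)
  rw [totalDegree_X_pow, totalDegree_X_pow] at h3
  have h4 : (algebraMap ℂ P2 (coeff m p)).totalDegree = 0 := totalDegree_C _
  omega

/-- restriction to the line at infinity -/
noncomputable def rh : P3 →ₐ[ℂ] P3 := aeval (Fin.cons 0 (fun i : Fin 2 => X i.succ))

theorem X_dvd_sub_rh (p : P3) : (X 0 : P3) ∣ p - rh p := by
  induction p using MvPolynomial.induction_on with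
  | C a => simp [rh]
  | add p q hp hq =>
    rw [map_add]
    have := dvd_add hp hq
    convert this using 1
    ring
  | mul_X p i hp =>
    rw [map_mul]
    have h1 : (X 0 : P3) ∣ X i - rh (X i) := by
      refine Fin.cases ?_ (fun j => ?_) i <;> simp [rh]
    have h2 : p * X i - rh p * rh (X i) = (p - rh p) * X i + rh p * (X i - rh (X i)) := by ring
    rw [h2]
    exact dvd_add (hp.mul_right _) (h1.mul_left _)

theorem rh_hom {p : P3} {d : ℕ} (hp : p.IsHomogeneous d) : (rh p).IsHomogeneous d := by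
  have h := hp.aeval (Fin.cons 0 (fun i : Fin 2 => X i.succ) : Fin 3 → P3) (n := 1) (by
    intro i
    refine Fin.cases ?_ (fun j => ?_) i
    · exact isHomogeneous_zero _ _ _
    · exact isHomogeneous_X _ _)
  rwa [one_mul] at h

theorem eval_rh (p : P3) {z : Fin 3 → ℂ} (hz : z 0 = 0) : eval z (rh p) = eval z p := by
  obtain ⟨q, hq⟩ := X_dvd_sub_rh p
  have : eval z (p - rh p) = 0 := by rw [hq, map_mul, eval_X, hz, zero_mul]
  rw [map_sub, sub_eq_zero] at this
  exact this.symm

theorem rh_eq_zero {p : P3} (h : rh p = 0) : (X 0 : P3) ∣ p := by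
  have := X_dvd_sub_rh p
  rwa [h, sub_zero] at this

theorem rh_rel {δ h : P3} {n : ℕ} (hδ : δ.IsHomogeneous n) (h0 : ¬ X 0 ∣ δ)
    (hinf : ∀ z : Fin 3 → ℂ, z ≠ 0 → z 0 = 0 → eval z δ = 0 → eval z h ≠ 0) :
    IsRelPrime (rh δ) (rh h) := by
  intro π h1 h2
  have hne : rh δ ≠ 0 := fun h => h0 (rh_eq_zero h)
  obtain ⟨q, hq⟩ := h1
  have h3 := rh_hom hδ
  rw [hq] at h3 hne
  obtain ⟨a, b, ha, hb, hab⟩ := Helper16.hom_factor h3 hne
  rcases Nat.eq_zero_or_pos a with rfl | hapos
  · have h4 : π = C (coeff 0 π) := totalDegree_eq_zero_iff_eq_C.mp (by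
      have := ha.totalDegree (left_ne_zero_of_mul hne)
      exact this)
    rw [h4]
    have h5 : coeff 0 π ≠ 0 := by
      intro h5
      rw [h5, map_zero] at h4
      exact left_ne_zero_of_mul hne h4
    exact (isUnit_iff_ne_zero.mpr h5).map C
  · exfalso
    obtain ⟨z, hz0, hz⟩ := Helper16.exists_common_zero (σ := Fin 3) ![X 0, π] (by
      intro i
      fin_cases i
      · simp
      · have := Helper16.eval_smul_of_hom ha 0 (0 : Fin 3 → ℂ)
        rw [zero_smul, zero_pow (by omega), zero_mul] at this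
        exact this) (by simp)
    have hz1 : z 0 = 0 := by simpa using hz 0
    have hz2 : eval z π = 0 := by simpa using hz 1
    refine hinf z hz0 hz1 ?_ ?_
    · rw [← eval_rh δ hz1, hq, map_mul, hz2, zero_mul]
    · obtain ⟨r, hr⟩ := h2
      rw [← eval_rh h hz1, hr, map_mul, hz2, zero_mul]

theorem mem_of_X_mul {δ h : P3} (hne : rh δ ≠ 0) (hrel : IsRelPrime (rh δ) (rh h)) {p : P3}
    (hp : X 0 * p ∈ Ideal.span {δ, h}) : p ∈ Ideal.span {δ, h} := by
  rw [Ideal.mem_span_pair] at hp ⊢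
  obtain ⟨E, A, hEA⟩ := hp
  have h1 : rh E * rh δ + rh A * rh h = 0 := by
    rw [← map_mul, ← map_mul, ← map_add, hEA, map_mul]
    have : rh (X 0) = 0 := by simp [rh]
    rw [this, zero_mul]
  have h2 : rh δ ∣ rh h * rh A := ⟨-rh E, by linear_combination h1⟩
  obtain ⟨q, hq⟩ := hrel.dvd_of_dvd_mul_left h2
  have h3 : rh E = - (q * rh h) := by
    have : rh δ * (rh E + q * rh h) = 0 := by rw [hq] at h1; linear_combination h1
    have := (mul_eq_zero.mp this).resolve_left hne
    linear_combination this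
  obtain ⟨E1, hE1⟩ := X_dvd_sub_rh E
  obtain ⟨A1, hA1⟩ := X_dvd_sub_rh A
  obtain ⟨δ1, hδ1⟩ := X_dvd_sub_rh δ
  obtain ⟨g1, hg1⟩ := X_dvd_sub_rh h
  refine ⟨E1 + g1 * q, A1 - δ1 * q, ?_⟩
  have hX : (X 0 : P3) ≠ 0 := X_ne_zero 0
  apply mul_left_cancel₀ hX
  rw [← hEA]
  rw [h3] at hE1
  rw [hq] at hA1
  have eE : E = X 0 * E1 - q * rh h := by linear_combination hE1
  have eA : A = X 0 * A1 + rh δ * q := by linear_combination hA1
  have eδ : rh δ = δ - X 0 * δ1 := by linear_combination -hδ1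
  have eh : rh h = h - X 0 * g1 := by linear_combination -hg1
  rw [eE, eA, eδ, eh]
  ring

theorem mem_of_X_pow_mul {δ h : P3} (hne : rh δ ≠ 0) (hrel : IsRelPrime (rh δ) (rh h)) (N : ℕ)
    {p : P3} (hp : X 0 ^ N * p ∈ Ideal.span {δ, h}) : p ∈ Ideal.span {δ, h} := by
  induction N with
  | zero => rwa [pow_zero, one_mul] at hp
  | succ N ih =>
    apply ih
    apply mem_of_X_mul hne hrel
    rw [← mul_assoc, ← pow_succ']
    exact hp

theorem mem_of_dh2_mem {δ h p : P3} {n m d : ℕ} (hδ : δ.IsHomogeneous n)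
    (hh : h.IsHomogeneous m) (hp : p.IsHomogeneous d)
    (hmem : dh2 p ∈ Ideal.span {dh2 δ, dh2 h}) : ∃ N, X 0 ^ N * p ∈ Ideal.span {δ, h} := by
  rw [Ideal.mem_span_pair] at hmem
  obtain ⟨a, b, hab⟩ := hmem
  refine ⟨a.totalDegree + b.totalDegree + n + m, ?_⟩
  rw [Ideal.mem_span_pair]
  refine ⟨hmg (a.totalDegree + b.totalDegree + m + d) a,
    hmg (a.totalDegree + b.totalDegree + n + d) b, ?_⟩
  apply dh2_inj (d := a.totalDegree + b.totalDegree + n + m + d)
  · refine IsHomogeneous.add ?_ ?_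
    · have := (hmg_hom (a.totalDegree + b.totalDegree + m + d) a).mul hδ
      convert this using 1
      ring
    · have := (hmg_hom (a.totalDegree + b.totalDegree + n + d) b).mul hh
      convert this using 1
      ring
  · exact (isHomogeneous_X_pow (R := ℂ) (0 : Fin 3) _).mul hp
  · rw [map_add, map_mul, map_mul, map_mul, map_pow, dh2_hmg (by omega), dh2_hmg (by omega), hab]
    have h0 : dh2 (X 0) = 1 := by simp [dh2]
    rw [h0, one_pow, one_mul]

theorem homogeneousComponent_mul_of_hom {δ : P3} {n : ℕ} (hδ : δ.IsHomogeneous n) (a : P3)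
    {d : ℕ} (hd : n ≤ d) :
    homogeneousComponent d (a * δ) = homogeneousComponent (d - n) a * δ := by
  conv_lhs => rw [← sum_homogeneousComponent a, Finset.sum_mul, map_sum]
  have h1 : ∀ i ∈ Finset.range (a.totalDegree + 1),
      homogeneousComponent d (homogeneousComponent i a * δ) =
        if d = i + n then homogeneousComponent i a * δ else 0 := by
    intro i _
    exact homogeneousComponent_of_mem ((homogeneousComponent_isHomogeneous i a).mul hδ)
  rw [Finset.sum_congr rfl h1]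
  by_cases hmem : d - n ∈ Finset.range (a.totalDegree + 1)
  · rw [Finset.sum_eq_single (d - n)]
    · rw [if_pos (by omega)]
    · intro i _ hi
      rw [if_neg (by omega)]
    · intro h
      exact absurd hmem h
  · rw [Finset.sum_eq_zero, homogeneousComponent_eq_zero, zero_mul]
    · rw [Finset.mem_range] at hmem
      omega
    · intro i hi
      rw [if_neg]
      rintro rfl
      apply hmem
      rwa [Nat.add_sub_cancel]

theorem hom_decomp {δ h p : P3} {n m d : ℕ} (hδ : δ.IsHomogeneous n) (hh : h.IsHomogeneous m)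
    (hp : p.IsHomogeneous d) (hn : n ≤ d) (hm : m ≤ d) (hmem : p ∈ Ideal.span {δ, h}) :
    ∃ A : P3, A.IsHomogeneous (d - m) ∧ δ ∣ p - h * A := by
  rw [Ideal.mem_span_pair] at hmem
  obtain ⟨a, b, hab⟩ := hmem
  refine ⟨homogeneousComponent (d - m) b, homogeneousComponent_isHomogeneous _ _,
    homogeneousComponent (d - n) a, ?_⟩
  have h1 : homogeneousComponent d p = p := by
    rw [homogeneousComponent_of_mem hp, if_pos rfl]
  rw [← hab, map_add, homogeneousComponent_mul_of_hom hδ a hn,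
    homogeneousComponent_mul_of_hom hh b hm, hab] at h1
  linear_combination -h1

theorem not_X_dvd {δ : P3} (hirr : Irreducible δ) (hδ : δ.IsHomogeneous 6) : ¬ X 0 ∣ δ := by
  rintro ⟨q, hq⟩
  have hu : IsUnit q := (hirr.isUnit_or_isUnit hq).resolve_left
    (Helper16.X_irreducible (0 : Fin 3)).not_isUnit
  have hne : X 0 * q ≠ 0 := by rw [← hq]; exact hirr.ne_zero
  rw [hq] at hδ
  obtain ⟨a, b, ha, hb, hab⟩ := Helper16.hom_factor hδ hne
  have ha1 : a = 1 := ha.inj_right (isHomogeneous_X _ _) (left_ne_zero_of_mul hne)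
  have hev : eval 0 q = 0 := by
    have := Helper16.eval_smul_of_hom hb 0 (0 : Fin 3 → ℂ)
    rw [zero_smul, zero_pow (by omega), zero_mul] at this
    exact this
  have := hu.map (eval (0 : Fin 3 → ℂ))
  rw [hev] at this
  exact not_isUnit_zero this

theorem finrank_mult {δ : P3} (hδ : δ.IsHomogeneous 6) (hδ0 : δ ≠ 0) (k : ℕ)
    (M : Submodule ℂ (homogeneousSubmodule (Fin 3) ℂ (k + 4)))
    (hM : ∀ x ∈ M, δ ∣ (x : P3)) : Module.finrank ℂ M ≤ k.choose 2 := by
  rcases Nat.lt_or_ge k 2 with hk | hk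
  · have : M = ⊥ := by
      rw [eq_bot_iff]
      intro x hx
      rw [Submodule.mem_bot]
      by_contra hne
      obtain ⟨q, hq⟩ := hM x hx
      have hne' : (x : P3) ≠ 0 := fun h => hne (Subtype.ext h)
      have h1 : (x : P3).IsHomogeneous (k + 4) := x.2
      rw [hq] at h1 hne'
      obtain ⟨a, b, ha, hb, hab⟩ := Helper16.hom_factor h1 hne'
      have ha1 : a = 6 := ha.inj_right hδ hδ0
      omega
    rw [this, finrank_bot]
    exact Nat.zero_le _
  · obtain ⟨l, rfl⟩ : ∃ l, k = l + 2 := ⟨k - 2, by omega⟩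
    let φ : homogeneousSubmodule (Fin 3) ℂ l →ₗ[ℂ] homogeneousSubmodule (Fin 3) ℂ (l + 2 + 4) :=
      { toFun := fun x => ⟨δ * x.1, by
          have h1 : (δ * x.1).IsHomogeneous (6 + l) := hδ.mul x.2
          have e1 : 6 + l = l + 2 + 4 := by ring
          rw [e1] at h1
          exact h1⟩
        map_add' := fun x y => by
          ext1
          simp only [Submodule.coe_add]
          ring
        map_smul' := fun a x => by
          ext1
          simp only [Submodule.coe_smul, RingHom.id_apply, mul_smul_comm] }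
    have hle : M ≤ LinearMap.range φ := by
      intro x hx
      obtain ⟨q, hq⟩ := hM x hx
      by_cases hx0 : (x : P3) = 0
      · have : x = 0 := Subtype.ext hx0
        rw [this]
        exact Submodule.zero_mem _
      · have h1 : (x : P3).IsHomogeneous (l + 2 + 4) := x.2
        rw [hq] at h1 hx0
        obtain ⟨a, b, ha, hb, hab⟩ := Helper16.hom_factor h1 hx0
        have ha1 : a = 6 := ha.inj_right hδ hδ0
        have hb1 : b = l := by omega
        subst hb1
        exact ⟨⟨q, hb⟩, Subtype.ext hq.symm⟩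
    refine (Submodule.finrank_mono hle).trans ((LinearMap.finrank_range_le φ).trans ?_)
    rw [Helper16.finrank_hom3]

theorem two_mul_choose (k : ℕ) : 2 * (k + 2).choose 2 = (k + 2) * (k + 1) := by
  rw [Nat.choose_two_right]
  have : 2 ∣ (k + 2) * (k + 2 - 1) := by
    have := Nat.even_mul_succ_self (k + 1)
    have h2 : (k + 2) * (k + 2 - 1) = (k + 1) * (k + 1 + 1) := by
      have : k + 2 - 1 = k + 1 := by omega
      rw [this]; ring
    rw [h2]
    exact this.two_dvd
  rw [Nat.mul_div_cancel' this]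
  congr 1

theorem exists_indep_mod {V : Type*} [AddCommGroup V] [Module ℂ V] [FiniteDimensional ℂ V]
    (M K : Submodule ℂ V) (hMK : M ≤ K) (n : ℕ)
    (h : n + Module.finrank ℂ M ≤ Module.finrank ℂ K) :
    ∃ v : Fin n → V, (∀ i, v i ∈ K) ∧ ∀ c : Fin n → ℂ, ∑ i, c i • v i ∈ M → c = 0 := by
  have h5 := Submodule.finrank_quotient_add_finrank (M.submoduleOf K)
  have h6 : Module.finrank ℂ (M.submoduleOf K) = Module.finrank ℂ M :=
    (Submodule.submoduleOfEquivOfLe hMK).finrank_eq
  have h7 : n ≤ Module.finrank ℂ (K ⧸ M.submoduleOf K) := by omega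
  obtain ⟨v, hv⟩ := exists_linearIndependent_of_le_finrank h7
  choose w hw using fun i => Submodule.Quotient.mk_surjective _ (v i)
  refine ⟨fun i => (w i : V), fun i => (w i).2, ?_⟩
  intro c hc
  rw [Fintype.linearIndependent_iff] at hv
  funext i
  refine hv c ?_ i
  have h8 : ∑ i, c i • v i = Submodule.Quotient.mk (p := M.submoduleOf K)
      (∑ i, c i • w i) := by
    rw [← Submodule.mkQ_apply, map_sum]
    refine Finset.sum_congr rfl fun i _ => ?_
    rw [map_smul, Submodule.mkQ_apply, hw]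
  rw [h8, Submodule.Quotient.mk_eq_zero]
  change ((∑ i, c i • w i : K) : V) ∈ M
  rw [Submodule.coe_sum]
  exact hc

theorem exists_six_lin {δ : P3} (hδ : δ.IsHomogeneous 6) (hδ0 : δ ≠ 0) (k : ℕ) (b : Ideal P2)
    (hfb : dh2 δ ∈ b) (hfin : FiniteDimensional ℂ (P2 ⧸ b))
    (hdim : Module.finrank ℂ (P2 ⧸ b) ≤ 6 * k + 9) :
    ∃ s : Fin 6 → P3, (∀ i, (s i).IsHomogeneous (k + 4)) ∧ (∀ i, dh2 (s i) ∈ b) ∧
      (∀ c : Fin 6 → ℂ, δ ∣ ∑ i, C (c i) * s i → c = 0) := by
  classical
  let L : homogeneousSubmodule (Fin 3) ℂ (k + 4) →ₗ[ℂ] P2 ⧸ b :=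
    (Ideal.Quotient.mkₐ ℂ b).toLinearMap ∘ₗ dh2.toLinearMap ∘ₗ
      (homogeneousSubmodule (Fin 3) ℂ (k + 4)).subtype
  have hL : ∀ x : homogeneousSubmodule (Fin 3) ℂ (k + 4),
      x ∈ LinearMap.ker L ↔ dh2 (x : P3) ∈ b := by
    intro x
    rw [LinearMap.mem_ker]
    exact Ideal.Quotient.eq_zero_iff_mem
  let M : Submodule ℂ (homogeneousSubmodule (Fin 3) ℂ (k + 4)) :=
    ((Ideal.span {δ} : Ideal P3).restrictScalars ℂ).comap
      (homogeneousSubmodule (Fin 3) ℂ (k + 4)).subtype
  have hM : ∀ x : homogeneousSubmodule (Fin 3) ℂ (k + 4), x ∈ M ↔ δ ∣ (x : P3) := by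
    intro x
    change (x : P3) ∈ Ideal.span {δ} ↔ _
    exact Ideal.mem_span_singleton
  have hMK : M ≤ LinearMap.ker L := by
    intro x hx
    rw [hL]
    obtain ⟨q, hq⟩ := (hM x).mp hx
    rw [hq, map_mul]
    exact b.mul_mem_right _ hfb
  have h1 := LinearMap.finrank_range_add_finrank_ker L
  have h2 : Module.finrank ℂ (LinearMap.range L) ≤ 6 * k + 9 :=
    (Submodule.finrank_le _).trans hdim
  have h3 : Module.finrank ℂ M ≤ k.choose 2 := finrank_mult hδ hδ0 k M (fun x hx => (hM x).mp hx)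
  have h4 : Module.finrank ℂ (homogeneousSubmodule (Fin 3) ℂ (k + 4)) = (k + 4 + 2).choose 2 :=
    Helper16.finrank_hom3 _
  have h7 : 6 + Module.finrank ℂ M ≤ Module.finrank ℂ (LinearMap.ker L) := by
    have c1 := two_mul_choose (k + 4)
    have c2 : 2 * k.choose 2 = k * (k - 1) := by
      rcases Nat.lt_or_ge k 2 with hk | hk
      · interval_cases k <;> simp
      · obtain ⟨l, rfl⟩ : ∃ l, k = l + 2 := ⟨k - 2, by omega⟩
        exact two_mul_choose l
    have c3 : k * (k - 1) + k = k * k := by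
      rcases k with _ | k
      · rfl
      · rw [Nat.add_sub_cancel]; ring
    have c4 : (k + 4 + 2) * (k + 4 + 1) = k * k + 11 * k + 30 := by ring
    rw [c4] at c1
    omega
  obtain ⟨v, hv1, hv2⟩ := exists_indep_mod M (LinearMap.ker L) hMK 6 h7
  refine ⟨fun i => (v i : P3), fun i => (v i).2, fun i => (hL _).mp (hv1 i), ?_⟩
  intro c hc
  apply hv2 c
  rw [hM]
  convert hc using 1
  rw [Submodule.coe_sum]
  refine Finset.sum_congr rfl fun i _ => ?_
  rw [Submodule.coe_smul, smul_eq_C_mul]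

/-- linear substitution -/
noncomputable def lsub (ψ : (Fin 3 → ℂ) →ₗ[ℂ] (Fin 3 → ℂ)) : P3 →ₐ[ℂ] P3 :=
  aeval fun j => Helper16.linp (LinearMap.proj j ∘ₗ ψ)

theorem eval_lsub (ψ : (Fin 3 → ℂ) →ₗ[ℂ] (Fin 3 → ℂ)) (p : P3) (z : Fin 3 → ℂ) :
    eval z (lsub ψ p) = eval (ψ z) p := by
  induction p using MvPolynomial.induction_on with
  | C a => simp [lsub]
  | add p q hp hq => rw [map_add, map_add, map_add, hp, hq]
  | mul_X p i hp =>
    rw [map_mul, map_mul, map_mul, hp, eval_X, lsub, aeval_X, Helper16.eval_linp]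
    rfl

theorem lsub_hom (ψ : (Fin 3 → ℂ) →ₗ[ℂ] (Fin 3 → ℂ)) {p : P3} {d : ℕ} (hp : p.IsHomogeneous d) :
    (lsub ψ p).IsHomogeneous d := by
  have h := hp.aeval (fun j => Helper16.linp (LinearMap.proj j ∘ₗ ψ)) (n := 1)
    (fun j => Helper16.linp_hom _)
  rwa [one_mul] at h

theorem lsub_lsub {ψ φ : (Fin 3 → ℂ) →ₗ[ℂ] (Fin 3 → ℂ)} (h : ∀ z, ψ (φ z) = z) (p : P3) :
    lsub φ (lsub ψ p) = p := by
  apply MvPolynomial.funext
  intro z
  rw [eval_lsub, eval_lsub, h]

theorem pderiv_linp (l : (Fin 3 → ℂ) →ₗ[ℂ] ℂ) (i : Fin 3) :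
    pderiv i (Helper16.linp l) = C (l (Pi.single i 1)) := by
  classical
  rw [Helper16.linp, map_sum, Finset.sum_eq_single i]
  · rw [pderiv_C_mul, pderiv_X_self, mul_one]
  · intro j _ hj
    rw [pderiv_C_mul, pderiv_X_of_ne hj, mul_zero]
  · intro h
    exact absurd (Finset.mem_univ i) h

theorem eval_pderiv_lsub (ψ : (Fin 3 → ℂ) →ₗ[ℂ] (Fin 3 → ℂ)) (p : P3) (z : Fin 3 → ℂ)
    (i : Fin 3) :
    eval z (pderiv i (lsub ψ p)) = ∑ j, eval (ψ z) (pderiv j p) * ψ (Pi.single i 1) j := by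
  classical
  induction p using MvPolynomial.induction_on with
  | C a => simp [lsub]
  | add p q hp hq =>
    simp only [map_add, add_mul, Finset.sum_add_distrib, hp, hq]
  | mul_X p n hp =>
    have h1 : lsub ψ (X n) = Helper16.linp (LinearMap.proj n ∘ₗ ψ) := by rw [lsub, aeval_X]
    have h2 : eval z (lsub ψ (X n)) = ψ z n := by rw [eval_lsub, eval_X]
    have h3 : eval z (lsub ψ p) = eval (ψ z) p := eval_lsub ψ p z
    rw [map_mul, pderiv_mul, map_add, map_mul, map_mul, hp, h3, h2, h1, pderiv_linp,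
      eval_C]
    simp only [pderiv_mul, map_add, map_mul, eval_X, pderiv_X, add_mul, Finset.sum_add_distrib,
      Finset.sum_mul]
    congr 1
    · exact Finset.sum_congr rfl fun j _ => by ring
    · rw [Finset.sum_eq_single n]
      · simp
      · intro j _ hj
        rw [Pi.single_eq_of_ne' hj]
        simp
      · simp

theorem exists_lequiv {l : (Fin 3 → ℂ) →ₗ[ℂ] ℂ} (hl : l ≠ 0) :
    ∃ φ : (Fin 3 → ℂ) ≃ₗ[ℂ] (Fin 3 → ℂ), ∀ z, φ z 0 = l z := by
  classical
  obtain ⟨i0, hi0⟩ : ∃ i, l (Pi.single i 1) ≠ 0 := by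
    by_contra hcon
    push Not at hcon
    apply hl
    refine LinearMap.pi_ext' fun i => ?_
    ext
    simpa using hcon i
  let σ : Equiv.Perm (Fin 3) := Equiv.swap 0 i0
  let f : (Fin 3 → ℂ) →ₗ[ℂ] (Fin 3 → ℂ) :=
    LinearMap.pi fun j => if j = 0 then l else LinearMap.proj (σ j)
  have hf0 : ∀ z, f z 0 = l z := by
    intro z
    simp [f]
  have hfj : ∀ z j, j ≠ 0 → f z j = z (σ j) := by
    intro z j hj
    simp [f, hj]
  have hinj : Function.Injective f := by
    rw [injective_iff_map_eq_zero]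
    intro z hz
    have h1 : ∀ i, i ≠ i0 → z i = 0 := by
      intro i hi
      have hne : σ.symm i ≠ 0 := by
        intro h
        apply hi
        rw [Equiv.symm_apply_eq] at h
        rw [h]
        exact Equiv.swap_apply_left _ _
      have := hfj z _ hne
      rw [hz, Equiv.apply_symm_apply] at this
      exact this.symm
    have h2 : z = z i0 • (Pi.single i0 1 : Fin 3 → ℂ) := by
      funext i
      by_cases hi : i = i0
      · subst hi
        simp
      · rw [h1 i hi]
        simp [hi]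
    have h3 := hf0 z
    rw [hz, h2, map_smul, smul_eq_mul, Pi.zero_apply] at h3
    have h4 : z i0 = 0 := by
      rcases mul_eq_zero.mp h3.symm with h | h
      · exact h
      · exact absurd h hi0
    rw [h2, h4, zero_smul]
  refine ⟨LinearEquiv.ofInjectiveEndo f hinj, fun z => ?_⟩
  rw [← hf0]
  rfl

end Six

open Six

theorem exists_six_affine (δ h : P3) (k : ℕ) (hδ : δ.IsHomogeneous 6)
    (hsm : ∀ z : Fin 3 → ℂ, z ≠ 0 → eval z δ = 0 → ∃ i, eval z (pderiv i δ) ≠ 0)
    (hh : h.IsHomogeneous (2 * k + 3)) (hδh : ¬ δ ∣ h) (hev : EvenOn δ h)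
    (hinf : ∀ z : Fin 3 → ℂ, z ≠ 0 → z 0 = 0 → eval z δ = 0 → eval z h ≠ 0) :
    ∃ (s : Fin 6 → P3) (A : Matrix (Fin 6) (Fin 6) P3), (∀ i, (s i).IsHomogeneous (k + 4)) ∧
      (∀ c : Fin 6 → ℂ, δ ∣ ∑ i, C (c i) * s i → c = 0) ∧ A.IsSymm ∧
      (∀ i j, (A i j).IsHomogeneous 5) ∧ ∀ i j, δ ∣ s i * s j - h * A i j := by
  classical
  have hirr : Irreducible δ := irreducible_of_smooth (by norm_num) hδ hsm
  have h0 : ¬ X 0 ∣ δ := not_X_dvd hirr hδ
  have hf : Irreducible (dh2 δ) := irreducible_dh2 hδ hirr h0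
  have hfg : ¬ dh2 δ ∣ dh2 h := fun hd => hδh (dvd_of_dh2_dvd hδ hh hirr h0 hd)
  have hrel : IsRelPrime (dh2 δ) (dh2 h) := hf.isRelPrime_iff_not_dvd.mpr hfg
  obtain ⟨hfin, hdim⟩ := bezout_dim (dh2 δ) (dh2 h) 6 (2 * k + 3) (totalDegree_dh2_le hδ)
    (totalDegree_dh2_le hh) hrel
  obtain ⟨b, hfb, hb2, hbfin, hbdim⟩ := exists_sq_ideal (dh2 δ) (dh2 h) hf (smooth_dh2 hδ hsm) hfg
    (by
      intro P hP
      rw [eval_dh2'] at hP
      obtain ⟨α, β, σ, hα, hβ, hd⟩ := hev (Fin.cons 1 P) (by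
        intro h
        have := congrFun h 0
        simp at this) hP
      refine ⟨dh2 α, dh2 β, dh2 σ, by rwa [eval_dh2'], by rwa [eval_dh2'], ?_⟩
      have := map_dvd dh2 hd
      rwa [map_sub, map_mul, map_mul, map_pow] at this) hfin
  obtain ⟨s, hs1, hs2, hs3⟩ := exists_six_lin hδ hirr.ne_zero k b hfb hbfin (by omega)
  have hne : rh δ ≠ 0 := fun h => h0 (rh_eq_zero h)
  have hrr : IsRelPrime (rh δ) (rh h) := rh_rel hδ h0 hinf
  have key : ∀ i j : Fin 6, ∃ A : P3, A.IsHomogeneous 5 ∧ δ ∣ s i * s j - h * A := by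
    intro i j
    have hp : (s i * s j).IsHomogeneous (k + 4 + (k + 4)) := (hs1 i).mul (hs1 j)
    have hmem : dh2 (s i * s j) ∈ Ideal.span {dh2 δ, dh2 h} := by
      rw [map_mul]
      exact hb2 _ (hs2 i) _ (hs2 j)
    obtain ⟨N, hN⟩ := mem_of_dh2_mem hδ hh hp hmem
    obtain ⟨A, hA, hd⟩ := hom_decomp hδ hh hp (by omega) (by omega)
      (mem_of_X_pow_mul hne hrr N hN)
    have e1 : k + 4 + (k + 4) - (2 * k + 3) = 5 := by omega
    rw [e1] at hA
    exact ⟨A, hA, hd⟩
  choose B hB1 hB2 using key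
  refine ⟨s, Matrix.of fun i j => B (min i j) (max i j), hs1, hs3, ?_, fun i j => hB1 _ _, ?_⟩
  · ext1 i j
    rw [Matrix.transpose_apply, Matrix.of_apply, Matrix.of_apply, min_comm, max_comm]
  · intro i j
    rw [Matrix.of_apply]
    rcases le_total i j with hij | hij
    · rw [min_eq_left hij, max_eq_right hij]
      exact hB2 i j
    · rw [min_eq_right hij, max_eq_left hij, mul_comm (s i)]
      exact hB2 j i

theorem exists_six (δ h : P3) (k : ℕ) (hδ : δ.IsHomogeneous 6)
    (hsm : ∀ z : Fin 3 → ℂ, z ≠ 0 → eval z δ = 0 → ∃ i, eval z (pderiv i δ) ≠ 0)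
    (hh : h.IsHomogeneous (2 * k + 3)) (hδh : ¬ δ ∣ h) (hev : EvenOn δ h) :
    ∃ (s : Fin 6 → P3) (A : Matrix (Fin 6) (Fin 6) P3), (∀ i, (s i).IsHomogeneous (k + 4)) ∧
      (∀ c : Fin 6 → ℂ, δ ∣ ∑ i, C (c i) * s i → c = 0) ∧ A.IsSymm ∧
      (∀ i j, (A i j).IsHomogeneous 5) ∧ ∀ i j, δ ∣ s i * s j - h * A i j := by
  classical
  have hirr : Irreducible δ := irreducible_of_smooth (by norm_num) hδ hsm
  have hrel : IsRelPrime δ h := hirr.isRelPrime_iff_not_dvd.mpr hδh
  have hh0 : h ≠ 0 := by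
    rintro rfl
    exact hδh (dvd_zero _)
  obtain ⟨l, hl, hav⟩ := TR.exists_lin_avoid hδ hh hrel hh0
  obtain ⟨φ, hφ⟩ := exists_lequiv hl
  let a : (Fin 3 → ℂ) →ₗ[ℂ] (Fin 3 → ℂ) := φ.symm.toLinearMap
  let b : (Fin 3 → ℂ) →ₗ[ℂ] (Fin 3 → ℂ) := φ.toLinearMap
  have hab : ∀ z, a (b z) = z := φ.symm_apply_apply
  have hba : ∀ z, b (a z) = z := φ.apply_symm_apply
  have h1 : ∀ p, lsub b (lsub a p) = p := lsub_lsub hab
  have h2 : ∀ p, lsub a (lsub b p) = p := lsub_lsub hba
  have ha0 : ∀ z, a z = 0 → z = 0 := by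
    intro z hz
    rw [← hba z, hz, map_zero]
  obtain ⟨s, A, hs1, hs2, hA1, hA2, hA3⟩ := exists_six_affine (lsub a δ) (lsub a h) k
    (lsub_hom a hδ) (by
      intro z hz hzδ
      rw [eval_lsub] at hzδ
      obtain ⟨j, hj⟩ := hsm (a z) (fun h => hz (ha0 z h)) hzδ
      by_contra hcon
      push Not at hcon
      apply hj
      let g : (Fin 3 → ℂ) →ₗ[ℂ] ℂ := ∑ j, (eval (a z) (pderiv j δ)) • LinearMap.proj j
      have hg : ∀ w, g w = ∑ j, eval (a z) (pderiv j δ) * w j := by
        intro w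
        simp [g, LinearMap.sum_apply]
      have hg0 : g ∘ₗ a = 0 := by
        refine LinearMap.pi_ext' fun i => ?_
        ext
        have := hcon i
        rw [eval_pderiv_lsub, ← hg] at this
        simpa using this
      have hg1 : g (Pi.single j 1) = 0 := by
        rw [← hab (Pi.single j 1)]
        exact LinearMap.congr_fun hg0 (b (Pi.single j 1))
      rw [hg, Finset.sum_eq_single j] at hg1
      · simpa using hg1
      · intro i _ hi
        rw [Pi.single_eq_of_ne hi, mul_zero]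
      · intro h
        exact absurd (Finset.mem_univ j) h)
    (lsub_hom a hh) (by
      intro hd
      have := map_dvd (lsub b) hd
      rw [h1, h1] at this
      exact hδh this) (by
      intro z hz hzδ
      rw [eval_lsub] at hzδ
      obtain ⟨α, β, σ, hα, hβ, hd⟩ := hev (a z) (fun h => hz (ha0 z h)) hzδ
      refine ⟨lsub a α, lsub a β, lsub a σ, by rwa [eval_lsub], by rwa [eval_lsub], ?_⟩
      have := map_dvd (lsub a) hd
      rwa [map_sub, map_mul, map_mul, map_pow] at this) (by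
      intro z hz hz0 hzδ hzh
      rw [eval_lsub] at hzδ hzh
      apply hz
      apply ha0
      refine hav (a z) ?_ hzδ hzh
      rw [← hφ]
      change b (a z) 0 = 0
      rw [hba, hz0])
  refine ⟨fun i => lsub b (s i), Matrix.of fun i j => lsub b (A i j), fun i => lsub_hom b (hs1 i),
    ?_, ?_, fun i j => lsub_hom b (hA2 i j), ?_⟩
  · intro c hc
    apply hs2 c
    have := map_dvd (lsub a) hc
    rw [map_sum] at this
    convert this using 1
    refine Finset.sum_congr rfl fun i _ => ?_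
    rw [map_mul, h2, algHom_C]
    rfl
  · ext1 i j
    rw [Matrix.transpose_apply, Matrix.of_apply, Matrix.of_apply, hA1.apply]
  · intro i j
    have := map_dvd (lsub b) (hA3 i j)
    rwa [map_sub, map_mul, map_mul, h1, h1] at this

end Pool.Agent.Helper29.HP
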