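import Mathlib
import Pool.Agent.Helper5.HP.DomAux
import Pool.Agent.Helper5.HP.Pencil

set_option autoImplicit false

/-!
Piece HP-DOM.  The map `v ↦ TT m p v` from six-space to three-space is dominant when the
discriminant curve is smooth.  Proof: see `Pool.Agent.Helper5.HP.Pencil` and `DomAux`.
-/

namespace Pool.Agent.Helper29.HP

open MvPolynomial Module Matrix Pool.Agent.Helper16 Pool.Agent.Helper5.HP

theorem pi_sum3 (x : Fin 3 → ℂ) : x = ∑ k, x k • (Pi.single k 1 : Fin 3 → ℂ) := by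
  funext i
  simp only [Finset.sum_apply, Pi.smul_apply, smul_eq_mul, Pi.single_apply]
  simp

theorem dominant (m : Fin 3 → Matrix (Fin 6) (Fin 6) ℂ) (hm : ∀ k, (m k).IsSymm)
    (p : Fin 6 → ℂ) (hp : p ≠ 0) (hpp : ∀ k, p ⬝ᵥ (m k).mulVec p = 0)
    (hirr : Irreducible (netP m).det)
    (hsm : ∀ z : Fin 3 → ℂ, z ≠ 0 → eval z (netP m).det = 0 →
      ∃ i, eval z (pderiv i (netP m).det) ≠ 0) (h : P3) (hh : h ≠ 0) :
    ∃ v : Fin 6 → ℂ, eval (TT m p v) h ≠ 0 := by
  classical
  by_contra hcon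
  push Not at hcon
  -- a homogeneous form vanishing on the image
  obtain ⟨d, hd⟩ : ∃ d, homogeneousComponent d h ≠ 0 := by
    by_contra h0
    push Not at h0
    apply hh
    rw [← sum_homogeneousComponent h]
    exact Finset.sum_eq_zero fun i _ => h0 i
  set g := homogeneousComponent d h with hg
  have hgh : g.IsHomogeneous d := homogeneousComponent_isHomogeneous d h
  have hTTs : ∀ (a : ℂ) (v : Fin 6 → ℂ), TT m p (a • v) = a ^ 3 • TT m p v := by
    intro a v
    have e1 : (fun k => p ⬝ᵥ (m k).mulVec (a • v)) = a • fun k => p ⬝ᵥ (m k).mulVec v := by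
      funext k
      rw [mulVec_smul, dotProduct_smul]; rfl
    have e2 : (fun k => (a • v) ⬝ᵥ (m k).mulVec (a • v)) =
        a ^ 2 • fun k => v ⬝ᵥ (m k).mulVec v := by
      funext k
      rw [mulVec_smul, dotProduct_smul, smul_dotProduct]
      simp only [smul_eq_mul, Pi.smul_apply]; ring
    unfold TT
    rw [e1, e2, map_smul, map_smul, LinearMap.smul_apply, smul_smul]
    congr 1
  have hgv : ∀ v, eval (TT m p v) g = 0 := by
    intro v
    apply comp_of_line
    intro a
    obtain ⟨b, rfl⟩ := IsAlgClosed.exists_pow_nat_eq a (n := 3) (by norm_num)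
    rw [← hTTs]
    exact hcon _
  have hD6 := det_hom m
  -- no member of the net is singular at the base point
  have hind : ∀ c : Fin 3 → ℂ, netM m c *ᵥ p = 0 → c = 0 :=
    fun c hc => indep_of_smooth hm hp hpp hsm hc
  -- the common kernel of the three functionals
  let φ : (Fin 6 → ℂ) →ₗ[ℂ] (Fin 3 → ℂ) := LinearMap.pi fun k => fn (m k) p
  have hφ : ∀ v k, φ v k = p ⬝ᵥ m k *ᵥ v := fun v k => rfl
  have hφs : LinearMap.range φ = ⊤ := by
    by_contra hne
    obtain ⟨f, hf0, hf⟩ := Submodule.exists_le_ker_of_lt_top (LinearMap.range φ)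
      (lt_top_iff_ne_top.mpr hne)
    apply hf0
    set c : Fin 3 → ℂ := fun k => f (Pi.single k 1) with hc
    have hfc : ∀ x : Fin 3 → ℂ, f x = ∑ k, c k * x k := by
      intro x
      have h1 : x = ∑ k, x k • (Pi.single k 1 : Fin 3 → ℂ) := pi_sum3 x
      conv_lhs => rw [h1, map_sum]
      refine Finset.sum_congr rfl fun k _ => ?_
      rw [map_smul, smul_eq_mul, mul_comm]
    have h2 : c = 0 := by
      apply hind
      apply dotProduct_eq_zero
      intro w
      rw [dotProduct_comm, dot_symm (netM_symm hm c), netM_dot]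
      have h3 : f (φ w) = 0 := LinearMap.mem_ker.mp (hf (LinearMap.mem_range_self φ w))
      rw [hfc] at h3
      exact h3
    refine LinearMap.ext fun x => ?_
    rw [hfc, h2]; simp
  have hQ : finrank ℂ (LinearMap.ker φ) = 3 := by
    have h1 := LinearMap.finrank_range_add_finrank_ker φ
    rw [hφs, finrank_top] at h1
    have h2 : finrank ℂ (Fin 3 → ℂ) = 3 := by simp
    have h3 : finrank ℂ (Fin 6 → ℂ) = 6 := by simp
    omega
  obtain ⟨v1, hv1, k1, hk1⟩ := not_all_isotropic hm hirr (LinearMap.ker φ) hQ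
  have hv1' : ∀ k, p ⬝ᵥ m k *ᵥ v1 = 0 := fun k => congrFun (LinearMap.mem_ker.mp hv1) k
  set q : P3 := ∑ k, C (v1 ⬝ᵥ m k *ᵥ v1) * X k with hq
  have hqe : ∀ z, eval z q = v1 ⬝ᵥ netM m z *ᵥ v1 := by
    intro z
    rw [hq, map_sum, netM_dot]
    refine Finset.sum_congr rfl fun k _ => ?_
    rw [map_mul, eval_C, eval_X, mul_comm]
  have hq0 : q ≠ 0 := by
    intro h0
    apply hk1
    have h1 := hqe (Pi.single k1 1)
    rw [h0, map_zero, netM_dot, Finset.sum_eq_single k1] at h1
    · simpa using h1.symm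
    · intro b _ hb; simp [hb]
    · simp
  -- a point in general position
  obtain ⟨z, hz⟩ : ∃ z, eval z (g * (netP m).det * q) ≠ 0 := by
    by_contra h0
    push Not at h0
    have h1 : g * (netP m).det * q = 0 := by
      apply MvPolynomial.funext
      intro z
      rw [h0 z, map_zero]
    exact mul_ne_zero (mul_ne_zero hd hirr.ne_zero) hq0 h1
  rw [map_mul, map_mul] at hz
  have hzg : eval z g ≠ 0 := left_ne_zero_of_mul (left_ne_zero_of_mul hz)
  have hzD : (netM m z).det ≠ 0 := by
    rw [← Helper5.HP.eval_det]; exact right_ne_zero_of_mul (left_ne_zero_of_mul hz)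
  have hzq : v1 ⬝ᵥ netM m z *ᵥ v1 ≠ 0 := by
    rw [← hqe]; exact right_ne_zero_of_mul hz
  have hz0 : z ≠ 0 := by
    rintro rfl
    apply hzD
    have : netM m 0 = 0 := by simp [netM]
    rw [this, det_zero]
  obtain ⟨u, w, cu, cw, cz, hdec, hcu, hcw, hcz, hfr⟩ := exists_frame hz0
  -- the cross product vanishes
  have hcross : ∀ v, p ⬝ᵥ netM m z *ᵥ v = 0 → v ⬝ᵥ netM m z *ᵥ v = 0 → TT m p v = 0 := by
    intro v h1 h2
    by_contra hne
    rw [netM_dot] at h1 h2
    rw [Fin.sum_univ_three] at h1 h2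
    -- the cross product is proportional to `z`
    have hpar : ∀ i j : Fin 3, z i * TT m p v j = z j * TT m p v i := by
      have e0 : TT m p v 0 = (p ⬝ᵥ m 1 *ᵥ v) * (v ⬝ᵥ m 2 *ᵥ v) -
          (p ⬝ᵥ m 2 *ᵥ v) * (v ⬝ᵥ m 1 *ᵥ v) := by
        simp [TT, cross_apply]
      have e1 : TT m p v 1 = (p ⬝ᵥ m 2 *ᵥ v) * (v ⬝ᵥ m 0 *ᵥ v) -
          (p ⬝ᵥ m 0 *ᵥ v) * (v ⬝ᵥ m 2 *ᵥ v) := by
        simp [TT, cross_apply]
      have e2 : TT m p v 2 = (p ⬝ᵥ m 0 *ᵥ v) * (v ⬝ᵥ m 1 *ᵥ v) -
          (p ⬝ᵥ m 1 *ᵥ v) * (v ⬝ᵥ m 0 *ᵥ v) := by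
        simp [TT, cross_apply]
      have a01 : z 0 * TT m p v 1 = z 1 * TT m p v 0 := by
        rw [e0, e1]
        linear_combination (p ⬝ᵥ m 2 *ᵥ v) * h2 - (v ⬝ᵥ m 2 *ᵥ v) * h1
      have a02 : z 0 * TT m p v 2 = z 2 * TT m p v 0 := by
        rw [e0, e2]
        linear_combination (v ⬝ᵥ m 1 *ᵥ v) * h1 - (p ⬝ᵥ m 1 *ᵥ v) * h2
      have a12 : z 1 * TT m p v 2 = z 2 * TT m p v 1 := by
        rw [e1, e2]
        linear_combination (p ⬝ᵥ m 0 *ᵥ v) * h2 - (v ⬝ᵥ m 0 *ᵥ v) * h1
      intro i j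
      fin_cases i <;> fin_cases j
      · rfl
      · exact a01
      · exact a02
      · exact a01.symm
      · rfl
      · exact a12
      · exact a02.symm
      · exact a12.symm
      · rfl
    obtain ⟨i, hi⟩ := Function.ne_iff.mp hz0
    have hi : z i ≠ 0 := hi
    have hκ : TT m p v = (TT m p v i / z i) • z := by
      funext j
      rw [Pi.smul_apply, smul_eq_mul, div_mul_eq_mul_div, eq_div_iff hi]
      linear_combination -(hpar j i)
    have hκ0 : TT m p v i / z i ≠ 0 := by
      intro h0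
      apply hne
      rw [hκ, h0, zero_smul]
    have h3 := hgv v
    rw [hκ, eval_smul_of_hom hgh] at h3
    exact (mul_ne_zero (pow_ne_zero _ hκ0) hzg) h3
  -- apply the pencil lemma
  have hpz : ∀ z' : Fin 3 → ℂ, p ⬝ᵥ netM m z' *ᵥ p = 0 := by
    intro z'
    rw [netM_dot]
    exact Finset.sum_eq_zero fun k _ => by rw [hpp k, mul_zero]
  obtain ⟨s, t, hst⟩ := pencil (netM_symm hm u) (netM_symm hm w) (netM_symm hm z) hzD (hpz u)
    (hpz w) (hpz z) (by
      intro r s t h0
      apply hfr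
      apply hind
      rw [netM_add, netM_add, netM_smul, netM_smul, netM_smul, add_mulVec, add_mulVec,
        smul_mulVec, smul_mulVec, smul_mulVec]
      exact h0) ⟨v1, by
        rw [netM_dot]
        exact Finset.sum_eq_zero fun k _ => by rw [hv1' k, mul_zero], by
        rw [netM_dot]
        exact Finset.sum_eq_zero fun k _ => by rw [hv1' k, mul_zero], by
        rw [netM_dot]
        exact Finset.sum_eq_zero fun k _ => by rw [hv1' k, mul_zero], hzq⟩ (by
      intro v h1 h2
      have h3 := hcross v h1 h2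
      have c0 := congrFun h3 0
      have c1 := congrFun h3 1
      have c2 := congrFun h3 2
      simp only [TT, cross_apply, Matrix.cons_val_zero, Matrix.cons_val_one, Matrix.cons_val,
        Pi.zero_apply] at c0 c1 c2
      rw [netM_dot, netM_dot, netM_dot, netM_dot]
      simp only [Fin.sum_univ_three]
      linear_combination (u 1 * w 2 - u 2 * w 1) * c0 + (u 2 * w 0 - u 0 * w 2) * c1 +
        (u 0 * w 1 - u 1 * w 0) * c2)
  -- the discriminant vanishes on a line
  let l : (Fin 3 → ℂ) →ₗ[ℂ] ℂ := cz - t • cu + s • cw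
  have hl : ∀ v, l v = cz v - t * cu v + s * cw v := fun v => rfl
  have hl0 : l ≠ 0 := by
    intro h0
    have h1 := LinearMap.congr_fun h0 z
    rw [hl, hcz, hcu, hcw] at h1
    simp at h1
  have hdvd : linp l ∣ (netP m).det := by
    apply null_lite (linp_irreducible hl0)
    intro v hv
    rw [eval_linp, hl] at hv
    rw [Helper5.HP.eval_det]
    have h1 := hst (cu v) (cw v)
    have h2 : netM m v = cu v • (netM m u + t • netM m z) + cw v • (netM m w - s • netM m z) := by
      conv_lhs => rw [hdec v]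
      rw [netM_add, netM_add, netM_smul, netM_smul, netM_smul]
      have h3 : cz v = t * cu v - s * cw v := by linear_combination hv
      rw [h3]
      module
    rw [h2]
    exact h1
  obtain ⟨r, hr⟩ := hdvd
  rcases hirr.isUnit_or_isUnit hr with hu | hu
  · exact (linp_irreducible hl0).not_isUnit hu
  · obtain ⟨a, b, ha, hb, hab⟩ := hom_factor (p := linp l) (q := r) (by rw [← hr]; exact hD6)
      (by rw [← hr]; exact hirr.ne_zero)
    have ha1 : a = 1 := ha.inj_right (linp_hom l) (linp_ne_zero hl0)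
    have hr0 : r ≠ 0 := by
      rintro rfl
      exact not_isUnit_zero hu
    have h1 := MvPolynomial.isUnit_iff_totalDegree_of_isReduced.mp hu
    have h2 := hb.totalDegree hr0
    omega

end Pool.Agent.Helper29.HP
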