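import Pool.Agent.Helper29.HP.St.EvenAff
import Pool.Agent.Helper29.HP.St.Irr

set_option autoImplicit false

/-!
Piece HP-EO.  Projective form of `even_affine` (permute the coordinates so that `z 0 ≠ 0`,
dehomogenise, homogenise `α, β, σ`), multiplicativity and the even-ness of the cubic minor.
`evenOn_adj`: at a point `z` of the curve some `N.adjugate i i` does not vanish (otherwise all
entries of the adjugate vanish, as `adj i j ^ 2 - adj i i * adj j j ∈ (det)`, and then all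
derivatives of `det` vanish), and `adj i i * adj j j - adj i j ^ 2` is divisible by the
determinant.
-/

namespace Pool.Agent.Helper29.HP

open MvPolynomial

theorem evenOn_mul {δ h h' : P3} (H : EvenOn δ h) (H' : EvenOn δ h') : EvenOn δ (h * h') := by
  intro z hz hδ
  obtain ⟨α, β, σ, hα, hβ, hd⟩ := H z hz hδ
  obtain ⟨α', β', σ', hα', hβ', hd'⟩ := H' z hz hδ
  refine ⟨α * α', β * β', σ * σ', ?_, ?_, ?_⟩
  · rw [map_mul]; exact mul_ne_zero hα hα'
  · rw [map_mul]; exact mul_ne_zero hβ hβ'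
  · obtain ⟨c, hc⟩ := hd
    obtain ⟨c', hc'⟩ := hd'
    exact ⟨α * h * c' + β' * σ' ^ 2 * c, by linear_combination (α * h) * hc' + β' * σ' ^ 2 * hc⟩

lemma eo_eval_smul {G : P3} {n : ℕ} (hG : G.IsHomogeneous n) (c : ℂ) (w : Fin 3 → ℂ) :
    eval (c • w) G = c ^ n * eval w G := by
  rw [eval_eq, eval_eq, Finset.mul_sum]
  refine Finset.sum_congr rfl fun d hd => ?_
  have hn := hG.degree_eq_sum_deg_support hd
  simp only [Pi.smul_apply, smul_eq_mul, mul_pow]
  rw [Finset.prod_mul_distrib, Finset.prod_pow_eq_pow_sum, ← hn]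
  ring

/-- an irreducible form divisible by `X 0` is `X 0` up to a constant -/
lemma eo_X0 {p : P3} (hp : Irreducible p) (h : X 0 ∣ p) : ∃ c : ℂ, c ≠ 0 ∧ p = C c * X 0 := by
  obtain ⟨q, hq⟩ := h
  rcases hp.isUnit_or_isUnit hq with h1 | h1
  · exfalso
    have h2 := h1.map (eval (0 : Fin 3 → ℂ))
    simp at h2
  · obtain ⟨c, hc, rfl⟩ := MvPolynomial.isUnit_iff_eq_C_of_isReduced.mp h1
    exact ⟨c, hc.ne_zero, by rw [hq, mul_comm]⟩

lemma eo_core (δ π : P3) (n : ℕ) (hδ : δ.IsHomogeneous 6) (hirr : Irreducible δ)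
    (hsm : ∀ z : Fin 3 → ℂ, z ≠ 0 → eval z δ = 0 → ∃ i, eval z (pderiv i δ) ≠ 0)
    (hπ : Irreducible π) (hn : π.IsHomogeneous n) (hδπ : ¬ δ ∣ π) (d : ℕ) (g h : P3)
    (hh : h.IsHomogeneous d) (hπh : ¬ π ∣ h)
    (hgh : π ∣ g ^ 2 - δ * h ^ 2) (z : Fin 3 → ℂ) (hz : z 0 ≠ 0) (hzδ : eval z δ = 0) :
    ∃ α β σ : P3, eval z α ≠ 0 ∧ eval z β ≠ 0 ∧ δ ∣ α * π - β * σ ^ 2 := by
  by_cases hπz : eval z π = 0
  swap
  · exact ⟨1, π, 1, by simp, hπz, by simp⟩
  have hδ0 : ¬ X 0 ∣ δ := by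
    intro h0
    obtain ⟨c, hc, h1⟩ := eo_X0 hirr h0
    rw [h1] at hzδ
    simp [hc, hz] at hzδ
  have hπ0 : ¬ X 0 ∣ π := by
    intro h0
    obtain ⟨c, hc, h1⟩ := eo_X0 hπ h0
    rw [h1] at hπz
    simp [hc, hz] at hπz
  set P : Fin 2 → ℂ := fun i => (z 0)⁻¹ * z i.succ with hP
  have hzP : z = z 0 • (Fin.cons 1 P : Fin 3 → ℂ) := by
    funext i
    refine Fin.cases ?_ (fun j => ?_) i
    · simp
    · simp [hP, hz]
  have hev : ∀ {G : P3} {m : ℕ}, G.IsHomogeneous m → eval z G = z 0 ^ m * eval P (dh2 G) := by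
    intro G m hG
    rw [eval_dh2, ← eo_eval_smul hG, ← hzP]
  have hPδ : eval P (dh2 δ) = 0 := by
    have := hev hδ
    rw [hzδ] at this
    exact (mul_eq_zero.mp this.symm).resolve_left (pow_ne_zero _ hz)
  obtain ⟨α, β, σ, hα, hβ, hd⟩ := even_affine (dh2 δ) (dh2 π) (dh2 g) (dh2 h)
    (irreducible_dh2 hδ hirr hδ0) (irreducible_dh2 hn hπ hπ0)
    (fun h0 => hδπ (dvd_of_dh2_dvd hδ hn hirr hδ0 h0))
    (fun h0 => hπh (dvd_of_dh2_dvd hn hh hπ hπ0 h0))
    (by
      have := map_dvd dh2 hgh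
      simpa only [map_sub, map_mul, map_pow] using this)
    P hPδ (smooth_dh2 hδ hsm P hPδ)
  set N1 := α.totalDegree + β.totalDegree + 2 * σ.totalDegree with hN1
  set N2 := α.totalDegree + β.totalDegree + n with hN2
  refine ⟨hmg2 N1 α, hmg2 N2 β, hmg2 σ.totalDegree σ, ?_, ?_, ?_⟩
  · rw [hev (hmg2_hom N1 α), dh2_hmg2 (by omega)]
    exact mul_ne_zero (pow_ne_zero _ hz) hα
  · rw [hev (hmg2_hom N2 β), dh2_hmg2 (by omega)]
    exact mul_ne_zero (pow_ne_zero _ hz) hβ
  · have h1 : (hmg2 N1 α * π - hmg2 N2 β * hmg2 σ.totalDegree σ ^ 2).IsHomogeneous (N1 + n) := by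
      apply IsHomogeneous.sub
      · exact (hmg2_hom N1 α).mul hn
      · have h2 := (hmg2_hom N2 β).mul ((hmg2_hom σ.totalDegree σ).pow 2)
        have h3 : N2 + σ.totalDegree * 2 = N1 + n := by omega
        rwa [h3] at h2
    refine dvd_of_dh2_dvd hδ h1 hirr hδ0 ?_
    rw [map_sub, map_mul, map_mul, map_pow, dh2_hmg2 (by omega), dh2_hmg2 (by omega),
      dh2_hmg2 le_rfl]
    exact hd

theorem evenOn_split (δ π : P3) (n : ℕ) (hδ : δ.IsHomogeneous 6) (hirr : Irreducible δ)
    (hsm : ∀ z : Fin 3 → ℂ, z ≠ 0 → eval z δ = 0 → ∃ i, eval z (pderiv i δ) ≠ 0)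
    (hπ : Irreducible π) (hn : π.IsHomogeneous n) (hδπ : ¬ δ ∣ π) (d : ℕ) (g h : P3)
    (hg : g.IsHomogeneous (d + 3)) (hh : h.IsHomogeneous d) (hπh : ¬ π ∣ h)
    (hgh : π ∣ g ^ 2 - δ * h ^ 2) : EvenOn δ π := by
  intro z hz hzδ
  obtain ⟨i, hi⟩ := Function.ne_iff.mp hz
  have hi : z i ≠ 0 := hi
  set e : Equiv.Perm (Fin 3) := Equiv.swap 0 i with he
  have hee : ∀ j, e (e j) = j := fun j => by rw [he]; exact Equiv.swap_apply_self _ _ _
  let ρ : P3 ≃ₐ[ℂ] P3 := renameEquiv ℂ e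
  have hρ : ∀ p : P3, ρ p = rename e p := fun p => rfl
  have hρρ : ∀ p : P3, ρ (ρ p) = p := by
    intro p
    rw [hρ, hρ, rename_rename]
    have : (e ∘ e : Fin 3 → Fin 3) = id := by funext j; exact hee j
    rw [this, rename_id_apply]
  have hev : ∀ (w : Fin 3 → ℂ) (p : P3), eval w (ρ p) = eval (w ∘ e) p := fun w p => by
    rw [hρ, eval_rename]
  have hze : z ∘ e ∘ e = z := by
    funext j; simp [hee]
  have hdvd : ∀ p q : P3, ρ p ∣ ρ q ↔ p ∣ q := fun p q =>
    map_dvd_iff ρ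
  obtain ⟨α, β, σ, hα, hβ, hd⟩ := eo_core (ρ δ) (ρ π) n hδ.rename_isHomogeneous
    ((MulEquiv.irreducible_iff ρ.toMulEquiv).mpr hirr)
    (by
      intro w hw hwδ
      rw [hev] at hwδ
      have hw' : w ∘ e ≠ 0 := by
        intro h0
        apply hw
        funext j
        have := congr_fun h0 (e j)
        simpa [hee] using this
      obtain ⟨k, hk⟩ := hsm _ hw' hwδ
      refine ⟨e k, ?_⟩
      rw [hρ, pderiv_rename e.injective, eval_rename]
      exact hk)
    ((MulEquiv.irreducible_iff ρ.toMulEquiv).mpr hπ) hn.rename_isHomogeneous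
    (fun h0 => hδπ ((hdvd _ _).mp h0)) d (ρ g) (ρ h) hh.rename_isHomogeneous
    (fun h0 => hπh ((hdvd _ _).mp h0))
    (by
      have := map_dvd ρ hgh
      simpa only [map_sub, map_mul, map_pow] using this)
    (z ∘ e) (by simpa [he] using hi) (by rw [hev]; simpa [Function.comp_assoc, hze] using hzδ)
  refine ⟨ρ α, ρ β, ρ σ, ?_, ?_, ?_⟩
  · rw [hev]; exact hα
  · rw [hev]; exact hβ
  · have := map_dvd ρ hd
    simpa only [map_sub, map_mul, map_pow, hρρ] using this

/-- two columns of the identity -/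
def eoU (R : Type*) [CommRing R] {n : ℕ} (j l : Fin n) : Matrix (Fin n) (Fin 2) R :=
  Matrix.of fun a b => if a = ![j, l] b then 1 else 0

/-- two rows of the identity -/
def eoW (R : Type*) [CommRing R] {n : ℕ} (i k : Fin n) : Matrix (Fin 2) (Fin n) R :=
  Matrix.of fun b a => if a = ![i, k] b then 1 else 0

lemma eo_WAU {R : Type*} [CommRing R] {n : ℕ} (A : Matrix (Fin n) (Fin n) R)
    (i j k l : Fin n) (a b : Fin 2) :
    (eoW R i k * (A * eoU R j l)) a b = A (![i, k] a) (![j, l] b) := by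
  simp [eoW, eoU, Matrix.mul_apply]

lemma eo_field {K : Type*} [Field K] {n : ℕ} (N : Matrix (Fin n) (Fin n) K) (hN : N.det ≠ 0)
    (i j k l : Fin n) :
    N.det * ((N + eoU K j l * eoW K i k).det - N.det - N.adjugate i j - N.adjugate k l) =
      N.adjugate i j * N.adjugate k l - N.adjugate i l * N.adjugate k j := by
  have hu : IsUnit N.det := isUnit_iff_ne_zero.mpr hN
  have h1 : N + eoU K j l * eoW K i k = N * (1 + (N⁻¹ * eoU K j l) * eoW K i k) := by
    rw [Matrix.mul_add, Matrix.mul_one, ← Matrix.mul_assoc, ← Matrix.mul_assoc,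
      Matrix.mul_nonsing_inv _ hu, Matrix.one_mul]
  have h2 : ∀ a b, (eoW K i k * (N⁻¹ * eoU K j l)) a b =
      (N.det)⁻¹ * N.adjugate (![i, k] a) (![j, l] b) := by
    intro a b
    rw [eo_WAU, Matrix.inv_def, Matrix.smul_apply, Ring.inverse_eq_inv', smul_eq_mul]
  rw [h1, Matrix.det_mul, Matrix.det_one_add_mul_comm, Matrix.det_fin_two]
  simp only [Matrix.add_apply, h2, Matrix.one_apply_eq, ne_eq, zero_ne_one, one_ne_zero,
    not_false_eq_true, Matrix.one_apply_ne, Matrix.cons_val_zero, Matrix.cons_val_one,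
    Matrix.cons_val_fin_one]
  field_simp
  ring

lemma eo_map {R S : Type*} [CommRing R] [CommRing S] (f : R →+* S) {n : ℕ}
    (N : Matrix (Fin n) (Fin n) R) (i j k l : Fin n) :
    f ((N + eoU R j l * eoW R i k).det) = (N.map f + eoU S j l * eoW S i k).det := by
  rw [RingHom.map_det, RingHom.mapMatrix_apply]
  congr 1
  ext a b
  simp only [eoU, eoW, Matrix.map_apply, Matrix.add_apply, Matrix.mul_apply, Matrix.of_apply,
    map_add, map_sum, map_mul, apply_ite f, map_one, map_zero]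

lemma eo_hadj {R S : Type*} [CommRing R] [CommRing S] (f : R →+* S) {n : ℕ}
    (N : Matrix (Fin n) (Fin n) R) (a b : Fin n) :
    f (N.adjugate a b) = (N.map f).adjugate a b := by
  have := RingHom.map_adjugate f N
  rw [RingHom.mapMatrix_apply, RingHom.mapMatrix_apply] at this
  rw [← this, Matrix.map_apply]

lemma eo_hdet {R S : Type*} [CommRing R] [CommRing S] (f : R →+* S) {n : ℕ}
    (N : Matrix (Fin n) (Fin n) R) : f N.det = (N.map f).det := by
  rw [RingHom.map_det, RingHom.mapMatrix_apply]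

/-- the identity, as a predicate -/
def EoId {R : Type*} [CommRing R] {n : ℕ} (N : Matrix (Fin n) (Fin n) R)
    (i j k l : Fin n) : Prop :=
    N.det * ((N + eoU R j l * eoW R i k).det - N.det - N.adjugate i j - N.adjugate k l) =
      N.adjugate i j * N.adjugate k l - N.adjugate i l * N.adjugate k j

lemma eo_tr {R S : Type*} [CommRing R] [CommRing S] (f : R →+* S) {n : ℕ}
    (N : Matrix (Fin n) (Fin n) R) (i j k l : Fin n) :
    (f (N.det * ((N + eoU R j l * eoW R i k).det - N.det - N.adjugate i j - N.adjugate k l)) =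
      f (N.adjugate i j * N.adjugate k l - N.adjugate i l * N.adjugate k j)) ↔
    EoId (N.map f) i j k l := by
  unfold EoId
  rw [map_mul, map_sub, map_sub, map_sub, eo_map, eo_hdet f N, map_sub, map_mul, map_mul,
    eo_hadj, eo_hadj, eo_hadj, eo_hadj]

lemma eo_id {R : Type*} [CommRing R] {n : ℕ} (N : Matrix (Fin n) (Fin n) R)
    (i j k l : Fin n) : EoId N i j k l := by
  have key : EoId (Matrix.mvPolynomialX (Fin n) (Fin n) ℤ) i j k l := by
    have hinj := IsFractionRing.injective (MvPolynomial (Fin n × Fin n) ℤ)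
      (FractionRing (MvPolynomial (Fin n × Fin n) ℤ))
    apply hinj
    rw [eo_tr]
    apply eo_field
    rw [← eo_hdet]
    intro h0
    exact Matrix.det_mvPolynomialX_ne_zero (Fin n) ℤ (hinj (by rw [h0, map_zero]))
  have hN : (Matrix.mvPolynomialX (Fin n) (Fin n) ℤ).map
      (aeval fun p : Fin n × Fin n => N p.1 p.2 :
      MvPolynomial (Fin n × Fin n) ℤ →ₐ[ℤ] R).toRingHom = N := by
    ext a b
    simp [Matrix.mvPolynomialX_apply]
  have h := (eo_tr (aeval fun p : Fin n × Fin n => N p.1 p.2 :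
      MvPolynomial (Fin n × Fin n) ℤ →ₐ[ℤ] R).toRingHom
      (Matrix.mvPolynomialX (Fin n) (Fin n) ℤ) i j k l).mp (congr_arg _ key)
  rwa [hN] at h

/-- minors of the adjugate -/
theorem det_dvd_adj {R : Type*} [CommRing R] {n : ℕ} (N : Matrix (Fin n) (Fin n) R)
    (i j k l : Fin n) :
    N.det ∣ N.adjugate i j * N.adjugate k l - N.adjugate i l * N.adjugate k j :=
  ⟨_, (eo_id N i j k l).symm⟩

/-- derivative of a product -/
lemma eo_prod (k : Fin 3) {ι : Type*} [DecidableEq ι] (s : Finset ι) (f : ι → P3) :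
    pderiv k (∏ i ∈ s, f i) = ∑ i ∈ s, pderiv k (f i) * ∏ j ∈ s.erase i, f j := by
  induction s using Finset.induction_on with
  | empty => simp
  | insert a s ha ih =>
    rw [Finset.prod_insert ha, pderiv_mul, ih, Finset.sum_insert ha, Finset.erase_insert ha,
      Finset.mul_sum]
    congr 1
    refine Finset.sum_congr rfl fun i hi => ?_
    have hne : a ≠ i := by rintro rfl; exact ha hi
    rw [Finset.erase_insert_of_ne hne, Finset.prod_insert (fun h => ha (Finset.mem_of_mem_erase h))]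
    ring

/-- derivative of a determinant -/
lemma eo_pdet (k : Fin 3) {n : ℕ} (N : Matrix (Fin n) (Fin n) P3) :
    pderiv k N.det = ∑ i, ∑ a, N.adjugate i a * pderiv k (N a i) := by
  have h1 : pderiv k N.det = ∑ i, (N.updateCol i (fun a => pderiv k (N a i))).det := by
    simp_rw [Matrix.det_apply']
    rw [map_sum, Finset.sum_comm]
    refine Finset.sum_congr rfl fun σ _ => ?_
    have h2 : pderiv k (((Equiv.Perm.sign σ : ℤ) : P3) * ∏ i, N (σ i) i) =
        ((Equiv.Perm.sign σ : ℤ) : P3) * pderiv k (∏ i, N (σ i) i) := by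
      rw [pderiv_mul]
      have : pderiv k (((Equiv.Perm.sign σ : ℤ) : P3)) = 0 := by
        exact Derivation.map_intCast _ _
      rw [this, zero_mul, zero_add]
    rw [h2, eo_prod, Finset.mul_sum]
    refine Finset.sum_congr rfl fun i _ => ?_
    congr 1
    rw [← Finset.mul_prod_erase Finset.univ _ (Finset.mem_univ i), Matrix.updateCol_self]
    congr 1
    refine Finset.prod_congr rfl fun j hj => ?_
    rw [Matrix.updateCol_ne (Finset.ne_of_mem_erase hj)]
  rw [h1]
  refine Finset.sum_congr rfl fun i _ => ?_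
  rw [← Matrix.cramer_apply, Matrix.cramer_eq_adjugate_mulVec]
  rfl

theorem evenOn_adj (N : Matrix (Fin 4) (Fin 4) P3) (hN : N.IsSymm)
    (hsm : ∀ z : Fin 3 → ℂ, z ≠ 0 → eval z N.det = 0 → ∃ i, eval z (pderiv i N.det) ≠ 0)
    (j : Fin 4) : EvenOn N.det (N.adjugate j j) := by
  intro z hz hdet
  have hA : ∀ a b, N.adjugate a b = N.adjugate b a := fun a b => hN.adjugate.apply b a
  have hex : ∃ i, eval z (N.adjugate i i) ≠ 0 := by
    by_contra hcon
    push Not at hcon
    have h0 : ∀ a b, eval z (N.adjugate a b) = 0 := by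
      intro a b
      obtain ⟨c, hc⟩ := det_dvd_adj N a a b b
      have h1 := congr_arg (eval z) hc
      rw [map_sub, map_mul, map_mul, map_mul, hcon a, hdet, hA b a] at h1
      have h2 : eval z (N.adjugate a b) * eval z (N.adjugate a b) = 0 := by
        linear_combination -h1
      exact mul_self_eq_zero.mp h2
    obtain ⟨i, hi⟩ := hsm z hz hdet
    apply hi
    rw [eo_pdet, map_sum]
    refine Finset.sum_eq_zero fun a _ => ?_
    rw [map_sum]
    refine Finset.sum_eq_zero fun b _ => ?_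
    rw [map_mul, h0, zero_mul]
  obtain ⟨i, hi⟩ := hex
  refine ⟨N.adjugate i i, 1, N.adjugate i j, hi, by simp, ?_⟩
  have h := det_dvd_adj N i i j j
  rw [hA j i] at h
  rw [one_mul, sq]
  exact h

end Pool.Agent.Helper29.HP
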