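import Pool.Agent.Helper29.HP.Defs
import Pool.Agent.Helper82.HP.Transfer

set_option autoImplicit false

/-!
Piece HP-PSI (helper82).  Gauss lemma: dehomogenisation `psi : C[z0, z1, z2] → C(x)[y]`.
-/

namespace Pool.Agent.Helper29.HP

open MvPolynomial

theorem psi_eq_ph : psi = Pool.Agent.Helper82.HP.ph := rfl

theorem psi_ne_zero {p : P3} {n : ℕ} (hp : p.IsHomogeneous n) (h0 : p ≠ 0) : psi p ≠ 0 :=
  fun h => h0 (Pool.Agent.Helper82.HP.ph_inj hp h)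

theorem psi_prime {p : P3} {n : ℕ} (hp : Irreducible p) (hn : p.IsHomogeneous n) :
    IsUnit (psi p) ∨ Prime (psi p) := by
  by_cases h2 : degreeOf 2 p = 0
  · exact Or.inl (Pool.Agent.Helper82.HP.ph_unit hn hp.ne_zero h2)
  · exact Or.inr (Pool.Agent.Helper82.HP.ph_prime hn hp h2)

theorem psi_prime_of_deg {p : P3} {n : ℕ} (hp : Irreducible p) (hn : p.IsHomogeneous n)
    (h2 : 2 ≤ n) : Prime (psi p) :=
  Pool.Agent.Helper82.HP.ph_prime hn hp (Pool.Agent.Helper82.HP.degreeOf_two_ne h2 hn hp)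

theorem dvd_of_psi_dvd {p q : P3} {n m : ℕ} (hp : Irreducible p) (hn : p.IsHomogeneous n)
    (hq : q.IsHomogeneous m) (hpr : Prime (psi p)) (h : psi p ∣ psi q) : p ∣ q := by
  have h2 : degreeOf 2 p ≠ 0 := fun h2 =>
    hpr.not_isUnit (Pool.Agent.Helper82.HP.ph_unit hn hp.ne_zero h2)
  exact (Pool.Agent.Helper82.HP.ph_dvd hn hp h2 hq).mp h

theorem exists_factor {μ : P3} {n : ℕ} (hμ : μ.IsHomogeneous n) (hμ0 : μ ≠ 0) {π : AA}
    (hπ : Prime π) (h : π ∣ psi μ) :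
    ∃ p : P3, Irreducible p ∧ p ∣ μ ∧ (∃ d, p.IsHomogeneous d) ∧ Associated π (psi p) := by
  obtain ⟨p, e, h1, h2, h3, -, h4⟩ := Pool.Agent.Helper82.HP.exists_prime_form hμ hμ0 hπ h
  exact ⟨p, h2, h3, ⟨e, h1⟩, h4⟩

/-- transfer of the splitting condition -/
theorem psi_sq {μ δ : P3} {m n : ℕ} (hμ : μ.IsHomogeneous m) (h0 : μ ≠ 0)
    (hδ : δ.IsHomogeneous n)
    (hsp : ∀ π, Irreducible π → π ∣ μ → ∃ g h, ¬ π ∣ h ∧ π ∣ g ^ 2 - δ * h ^ 2) :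
    ∀ ϖ : AA, Prime ϖ → ϖ ∣ psi μ → ∃ g h, ¬ ϖ ∣ h ∧ ϖ ∣ g ^ 2 - psi δ * h ^ 2 :=
  Pool.Agent.Helper82.HP.sq_transfer hμ h0 hδ hsp

end Pool.Agent.Helper29.HP
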