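import Pool.Agent.Helper64.HA.Main

set_option autoImplicit false

/-!
Piece HP-PURITY (helper27, helper64, helper89).  The form `N - μ M` over `C(x, y)` is hyperbolic.
-/

namespace Pool.Agent.Helper29.HP

open MvPolynomial

theorem purity (N : Matrix (Fin 4) (Fin 4) AA) (M : Matrix (Fin 6) (Fin 6) AA) (hN : N.IsSymm)
    (hM : M.IsSymm) (δ μ s : AA) (hδ : Prime δ) (hdN : N.det = δ) (hdM : M.det = δ) (hμ : μ ≠ 0)
    (hμδ : ¬ δ ∣ μ)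
    (hsp : ∀ π : AA, Prime π → π ∣ μ → ∃ g h : AA, ¬ π ∣ h ∧ π ∣ g ^ 2 - δ * h ^ 2)
    (i : Fin 4) (j : Fin 6) (hi : ¬ δ ∣ N.adjugate i i) (hj : ¬ δ ∣ M.adjugate j j)
    (hs : δ ∣ s ^ 2 - μ * N.adjugate i i * M.adjugate j j) :
    ∃ (u : Fin 5 → Fin 4 → AA) (v : Fin 5 → Fin 6 → AA),
      LinearIndependent AA (fun a => (u a, v a)) ∧
      ∀ a b, u a ⬝ᵥ N.mulVec (u b) = μ * (v a ⬝ᵥ M.mulVec (v b)) :=
  Pool.Agent.Helper64.HA.purity_full N M hN hM δ μ s hδ hdN hdM hμ hμδ hsp i j hi hj hs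

end Pool.Agent.Helper29.HP
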