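import Mathlib
import Pool.Agent.Helper29.HP.Defs
import Pool.Agent.Helper16.CubicQB
import Pool.Agent.Helper82.HP.Transfer
import Pool.Agent.Helper16.CubicDec

set_option autoImplicit false

/-!
Piece HP-R0.  If the quadric surface bundle has a rational section over `C(x, y)` then the cubic
is rational.  Hint: clear denominators to get a section with coordinates in `C[x, y]`, homogenise
(compare `section_hom` in `Pool.Agent.Helper29.TR.St.SecHom`, here the last coordinate may vanish)
and apply `Cub.rat4_of_section`.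
-/

namespace Pool.Agent.Helper29.HP

open MvPolynomial

theorem psiK_apply (p : P3) : psiK p = algebraMap AA KK (psi p) := rfl

theorem psiK_inj {p : P3} {n : ℕ} (hp : p.IsHomogeneous n) (h : psiK p = 0) : p = 0 := by
  rw [psiK_apply] at h
  have h1 : psi p = 0 := IsFractionRing.injective AA KK (h.trans (map_zero _).symm)
  exact Pool.Agent.Helper82.HP.ph_inj hp h1

open Pool.Agent.Helper16 in
theorem rat4_of_iso {c : Cub (I6 → ℂ)} (hP : c.Iso P0) (y : Fin 4 → KK) (hy : y ≠ 0)
    (h : y ⬝ᵥ ((c.Nm (X : Fin 3 → P3)).map psiK).mulVec y = 0) : c.Rat4 := by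
  classical
  obtain ⟨D, m, q, p, hq0, hq, hp, hp1⟩ :=
    Pool.Agent.Helper82.HP.lift_family_frac (L := KK) y (![1, 1, 1, 0] : Fin 4 → ℕ)
  have hp2 : ∀ i, psiK (p i) = psiK q * y i := hp1
  have hq1 : psiK q ≠ 0 := fun h => hq0 (psiK_inj hq h)
  refine Cub.rat4_of_section hP p hp ?_ ?_
  · have hpz : ∀ i, HZ (p i) ((D : ℤ) + wt i) := by
      intro i
      refine (HZ.of_hom (hp i)).congr ?_
      fin_cases i <;> simp [wt]
    have hsum : HZ (c.nf (X : Fin 3 → P3) p p) ((2 * D + 3 : ℕ) : ℤ) := by
      rw [Cub.nf_eq_dot, dotProduct]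
      apply HZ.sum
      intro i _
      rw [Matrix.mulVec, dotProduct, Finset.mul_sum]
      apply HZ.sum
      intro j _
      refine ((hpz i).mul ((Cub.Nm_hz i j).mul (hpz j))).congr ?_
      push_cast
      ring
    have hz : psiK (c.nf (X : Fin 3 → P3) p p) = 0 := by
      have h1 : psiK (c.nf (X : Fin 3 → P3) p p) = psiK q * psiK q *
          (y ⬝ᵥ ((c.Nm (X : Fin 3 → P3)).map psiK).mulVec y) := by
        rw [Cub.nf_eq_dot]
        simp only [dotProduct, Matrix.mulVec, map_sum, map_mul, hp2, Matrix.map_apply,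
          Finset.mul_sum]
        refine Finset.sum_congr rfl fun i _ => Finset.sum_congr rfl fun j _ => ?_
        ring
      rw [h1, h, mul_zero]
    rcases hsum with h1 | ⟨-, h1⟩
    · exact h1
    · exact psiK_inj h1 hz
  · intro h0
    apply hy
    funext i
    have h1 := hp2 i
    rw [h0, Pi.zero_apply, map_zero] at h1
    exact (mul_eq_zero.mp h1.symm).resolve_left hq1

end Pool.Agent.Helper29.HP
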