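import Mathlib
import Pool.Agent.Helper72.HP.GoodPoint

set_option autoImplicit false
set_option linter.unusedVariables false
set_option linter.unusedSectionVars false
set_option linter.unusedSimpArgs false

/-!
Piece HP-R1 (helper72).  If the quadric surface `N` over `C(x, y)` is similar to `p^⊥ / p` for a
net of quadrics in five-dimensional projective space with base point `p` then the cubic is
rational.  The function field is generated by the ratios of the coordinates of `v = Φ w` modulo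
`p`: the point `z` of the plane is recovered from the two linear equations `z.β(v) = 0 = z.M(v)`
and `w` from `v` because `Φ` is a similarity.
-/

namespace Pool.Agent.Helper29.HP

open MvPolynomial

section

open Pool.Agent.Helper16 Module

variable {c : Cub (I6 → ℂ)} {m : Fin 3 → Matrix (Fin 6) (Fin 6) ℂ} {p : Fin 6 → ℂ}

/-- affine form of genericity -/
theorem gen_affine {K : Type} [Field K] [Algebra ℂ K] {x : I6 → K} (hx : c.Gen x)
    (hx0 : x (.inr 0) ≠ 0) (P : MvPolynomial I6 ℂ)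
    (h : aeval ((x (.inr 0))⁻¹ • x) P = 0) (q : I6 → ℂ) (hq : c.T q q q = 0)
    (hq0 : q (.inr 0) = 1) : eval q P = 0 := by
  set a := x (.inr 0) with ha
  set n := P.totalDegree with hn
  set G : MvPolynomial I6 ℂ := ∑ i ∈ Finset.range (n + 1),
    X (.inr 0) ^ (n - i) * homogeneousComponent i P with hG
  have hGh : G.IsHomogeneous n := by
    refine IsHomogeneous.sum _ _ _ fun i hi => ?_
    have h1 := (isHomogeneous_X_pow (R := ℂ) (.inr 0 : I6) (n - i)).mul
      (homogeneousComponent_isHomogeneous i P)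
    have h2 : n - i + i = n := by
      have := Finset.mem_range.mp hi
      omega
    rwa [h2] at h1
  have hGx : aeval x G = 0 := by
    have h1 : ∀ i, aeval x (homogeneousComponent i P) =
        a ^ i * aeval (a⁻¹ • x) (homogeneousComponent i P) := by
      intro i
      rw [← aeval_smul_hom (homogeneousComponent_isHomogeneous i P), smul_smul,
        mul_inv_cancel₀ hx0, one_smul]
    have h2 : aeval x G = a ^ n * aeval (a⁻¹ • x) P := by
      conv_rhs => rw [← sum_homogeneousComponent P]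
      rw [hG, map_sum, map_sum, Finset.mul_sum]
      refine Finset.sum_congr rfl fun i hi => ?_
      rw [map_mul, map_pow, aeval_X, h1, ← mul_assoc, ← ha, ← pow_add]
      have h2 : n - i + i = n := by
        have := Finset.mem_range.mp hi
        omega
      rw [h2]
    rw [h2, h, mul_zero]
  have h3 := hx.gen G n hGh hGx q hq
  rw [hG, map_sum] at h3
  rw [← sum_homogeneousComponent P, map_sum, ← h3]
  refine Finset.sum_congr rfl fun i _ => ?_
  rw [map_mul, map_pow, eval_X, hq0, one_pow, one_mul]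

theorem rat4_of_simD (hP : c.Iso P0) (D : Sim c m p) (hm : ∀ k, (m k).IsSymm) (hp : p ≠ 0)
    (hpp : ∀ k, p ⬝ᵥ (m k).mulVec p = 0)
    (hdet : (netP m).det ≠ 0) (hdom : ∀ h : P3, h ≠ 0 → ∃ v : Fin 6 → ℂ, eval (TT m p v) h ≠ 0) :
    c.Rat4 := by
  classical
  obtain ⟨t, w, j, hw3, hww, hα, hγ, hN, hT⟩ := D.good_point hP hm hp hpp hdet hdom
  intro K _ _ x hx
  -- the complex point
  set q : I6 → ℂ := pt (ZZ t) w with hq
  have hq0 : q (.inr 0) = 1 := by
    rw [hq, pt_apply]
    simp [ZZ, hw3]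
  have hqk : ∀ k : Fin 2, q (.inr k.succ) = t k := by
    intro k
    rw [hq, pt_apply]
    simp [ZZ, hw3]
  have hql : ∀ k : Fin 3, q (.inl k) = w k.castSucc := by
    intro k
    rw [hq, pt_apply]
    simp
  have hqT : c.T q q q = 0 := by
    rw [hq, Cub.T_pt hP, hww, mul_zero]
  have hx0 : x (.inr 0) ≠ 0 := by
    intro h0
    have h1 := hx.gen (X (.inr 0)) 1 (isHomogeneous_X _ _) (by rw [aeval_X, h0]) q hqT
    rw [eval_X, hq0] at h1
    exact one_ne_zero h1
  set a := x (.inr 0) with ha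
  set x' : I6 → K := a⁻¹ • x with hx'
  have hx'0 : x' (.inr 0) = 1 := by
    rw [hx', Pi.smul_apply, smul_eq_mul, ← ha, inv_mul_cancel₀ hx0]
  have hgen : ∀ P : MvPolynomial I6 ℂ, eval q P ≠ 0 → aeval x' P ≠ 0 := fun P hPq h0 =>
    hPq (gen_affine hx hx0 P h0 q hqT hq0)
  -- the coordinates
  set th : Fin 2 → K := fun k => x' (.inr k.succ) with hth
  set wK : Fin 4 → K := mk4 (pY K x') 1 with hwK
  have hwK3 : wK 3 = 1 := by rw [hwK, mk4_3]
  have hxpt : x' = pt (ZZ th) wK := by
    apply vec_ext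
    · rw [pt_apply, hwK, Cub.vY_mk4S, mk4_3, one_smul, map_add, pY_iY, pY_iZ, add_zero]
    · rw [pt_apply, hwK, Cub.vY_mk4S, mk4_3, one_smul, map_add, pZ_iY, pZ_iZ, zero_add]
      funext k
      refine Fin.cases ?_ (fun j => ?_) k
      · rw [pZ_apply, hx'0]; simp [ZZ]
      · rw [pZ_apply]; simp [ZZ, hth]
  have h3K : (3 : K) ≠ 0 := by
    have h : (3 : K) = algebraMap ℂ K 3 := (map_ofNat _ 3).symm
    rw [h]
    exact (map_ne_zero _).mpr (by norm_num)
  have hwwK : c.nf (ZZ th) wK wK = 0 := by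
    have h1 := Cub.T_ptS hP (ZZ th) wK
    have h2 : c.ext K x' x' x' = 0 := by
      rw [hx']
      simp only [map_smul, LinearMap.smul_apply, smul_eq_mul, hx.zero, mul_zero]
    rw [← hxpt, h2, hwK3, mul_one] at h1
    exact (mul_eq_zero.mp h1.symm).resolve_left h3K
  -- transfer of polynomials in two variables
  have haev : ∀ (S : Type) [CommRing S] [Algebra ℂ S] (y : I6 → S) (g : P2),
      aeval y (rename (fun k : Fin 2 => (.inr k.succ : I6)) g) =
        aeval (fun k : Fin 2 => y (.inr k.succ)) g := by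
    intro S _ _ y g
    rw [aeval_rename]; rfl
  have htq : (fun k : Fin 2 => q (.inr k.succ)) = t := funext hqk
  have htr : ∀ g : P2, aeval t g ≠ 0 → aeval th g ≠ 0 := by
    intro g hg
    have h1 := hgen (rename (fun k : Fin 2 => (.inr k.succ : I6)) g) (by
      rw [← aeval_eval, haev, htq]; exact hg)
    rwa [haev] at h1
  have hαK := htr _ hα
  have hγK := htr _ hγ
  have hNK : (c.Nm (ZZ th)).det ≠ 0 := by
    have h1 : ∀ (S : Type) [CommRing S] [Algebra ℂ S] (s : Fin 2 → S),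
        aeval s (dh2 c.disc) = (c.Nm (ZZ s)).det := by
      intro S _ _ s
      rw [aeval_dh2]
      change aeval (ZZ s) c.disc = _
      rw [Cub.disc, AlgHom.map_det, AlgHom.mapMatrix_apply, Nm_map_aeval]
    rw [← h1]
    apply htr
    rw [h1]
    exact hN
  -- the vector `TT`
  set v : Fin 6 → K := (D.Φ.map (aeval th)).mulVec wK with hv
  have hTK : TTS m p v j ≠ 0 := by
    let tP : Fin 2 → MvPolynomial I6 ℂ := fun k => X (.inr k.succ)
    let wP : Fin 4 → MvPolynomial I6 ℂ := mk4 (fun k => X (.inl k)) 1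
    let G : MvPolynomial I6 ℂ := TTS m p ((D.Φ.map (aeval tP)).mulVec wP) j
    have hG : ∀ (S : Type) [CommRing S] [Algebra ℂ S] (y : I6 → S), aeval y G =
        TTS m p ((D.Φ.map (aeval (fun k : Fin 2 => y (.inr k.succ)))).mulVec
          (mk4 (fun k => y (.inl k)) 1)) j := by
      intro S _ _ y
      rw [map_TTS]
      congr 2
      funext k
      simp only [Matrix.mulVec, dotProduct, map_sum, map_mul, Matrix.map_apply]
      refine Finset.sum_congr rfl fun i _ => ?_
      congr 1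
      · rw [← AlgHom.comp_apply]
        congr 1
        apply MvPolynomial.algHom_ext
        intro l
        rw [AlgHom.comp_apply, aeval_X, aeval_X]
        simp only [tP, aeval_X]
      · fin_cases i <;> simp [wP, mk4]
    have h1 := hgen G (by
      rw [← aeval_eval, hG, htq]
      have h2 : mk4 (fun k => q (.inl k)) 1 = w := by
        funext i
        fin_cases i
        · exact hql 0
        · exact hql 1
        · exact hql 2
        · exact hw3.symm
      rw [h2]
      exact hT)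
    rw [hG] at h1
    exact h1
  -- symmetry and isotropy over `K`
  set MK := netS m (ZZ th) with hMK
  have hMs : MK.IsSymm := by
    rw [hMK, netS_eq_sum]
    ext i j
    rw [Matrix.transpose_apply, Matrix.sum_apply, Matrix.sum_apply]
    refine Finset.sum_congr rfl fun k _ => ?_
    rw [Matrix.smul_apply, Matrix.smul_apply, (mS_symm hm k).apply]
  have hE1 := fun y => D.E1 th y
  have hpMp : pS K p ⬝ᵥ MK.mulVec (pS K p) = 0 := by
    rw [hMK, netS_dot]
    refine Finset.sum_eq_zero fun k _ => ?_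
    rw [pS_dot hpp k, mul_zero]
  have hpv : pS K p ⬝ᵥ MK.mulVec v = 0 := hE1 wK
  have hvv : v ⬝ᵥ MK.mulVec v = 0 := by
    have h1 := D.E2 th wK wK
    rw [hwwK, mul_zero] at h1
    exact (mul_eq_zero.mp h1.symm).resolve_left hαK
  -- remove the component along `p`
  obtain ⟨j0, hj0⟩ := Function.ne_iff.mp hp
  have hj0 : p j0 ≠ 0 := hj0
  have hpj0 : pS K p j0 ≠ 0 := (map_ne_zero _).mpr hj0
  set l : K := v j0 / pS K p j0 with hl
  set v' : Fin 6 → K := v + (-l) • pS K p with hv'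
  have hv'j0 : v' j0 = 0 := by
    rw [hv', Pi.add_apply, Pi.smul_apply, smul_eq_mul, hl]
    field_simp
    ring
  have hTv' : TTS m p v' = TTS m p v := TTS_add hm hpp _ _
  have hpv' : pS K p ⬝ᵥ MK.mulVec v' = 0 := by
    rw [hv', Matrix.mulVec_add, dotProduct_add, Matrix.mulVec_smul, dotProduct_smul, hpv, hpMp,
      smul_zero, add_zero]
  have hvv' : v' ⬝ᵥ MK.mulVec v' = 0 := by
    have hvp : v ⬝ᵥ MK.mulVec (pS K p) = 0 := by rw [dot_symm hMs, hpv]
    rw [hv', Matrix.mulVec_add, dotProduct_add, add_dotProduct, add_dotProduct,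
      Matrix.mulVec_smul, dotProduct_smul, dotProduct_smul, smul_dotProduct, smul_dotProduct,
      hpMp, hvp, hpv, hvv]
    simp
  have hv'0 : v' ≠ 0 := by
    intro h0
    apply hTK
    rw [← hTv', h0]
    have : (0 : Fin 6 → K) = (0 : K) • (0 : Fin 6 → K) := by simp
    rw [this, TTS_smul]
    simp
  obtain ⟨j1, hj1⟩ := Function.ne_iff.mp hv'0
  have hj1 : v' j1 ≠ 0 := hj1
  have hj01 : j1 ≠ j0 := by
    rintro rfl
    exact hj1 hv'j0
  set s : K := (v' j1)⁻¹ with hs
  have hs0 : s ≠ 0 := inv_ne_zero hj1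
  -- the generators
  have hcov : ∀ i j : Fin 6, i ≠ j → ∃ e : Fin 4 → Fin 6, ∀ k, k = i ∨ k = j ∨ ∃ b, e b = k := by
    intro i j hij
    obtain ⟨j', hj'⟩ := Fin.exists_succAbove_eq (Ne.symm hij)
    refine ⟨fun b => i.succAbove (j'.succAbove b), fun k => ?_⟩
    by_cases h1 : k = i
    · exact Or.inl h1
    obtain ⟨k', hk'⟩ := Fin.exists_succAbove_eq h1
    by_cases h2 : k' = j'
    · exact Or.inr (Or.inl (by rw [← hk', h2, hj']))
    obtain ⟨b, hb⟩ := Fin.exists_succAbove_eq h2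
    exact Or.inr (Or.inr ⟨b, by
      change i.succAbove (j'.succAbove b) = k
      rw [hb, hk']⟩)
  obtain ⟨e, he⟩ := hcov j1 j0 hj01
  let r : Fin 4 → K := fun b => (s • v') (e b)
  let L := IntermediateField.adjoin ℂ (Set.range r)
  have hr : ∀ i, r i ∈ L := fun i => IntermediateField.subset_adjoin _ _ ⟨i, rfl⟩
  have hsvL : ∀ k, (s • v') k ∈ L := by
    intro k
    rcases he k with h | h | ⟨b, h⟩
    · rw [h, Pi.smul_apply, smul_eq_mul, hs, inv_mul_cancel₀ hj1]; exact L.one_mem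
    · rw [h, Pi.smul_apply, hv'j0, smul_zero]; exact L.zero_mem
    · rw [← h]; exact hr b
  have hmL : ∀ k i j, mS K m k i j ∈ L := fun k i j => L.algebraMap_mem _
  have hpL : ∀ i, pS K p i ∈ L := fun i => L.algebraMap_mem _
  have hmulL : ∀ (A : Matrix (Fin 6) (Fin 6) K) (y : Fin 6 → K), (∀ i j, A i j ∈ L) →
      (∀ i, y i ∈ L) → ∀ i, A.mulVec y i ∈ L := by
    intro A y hA hy i
    rw [Matrix.mulVec, dotProduct]
    exact L.sum_mem fun j _ => L.mul_mem (hA i j) (hy j)
  have hdotL : ∀ (y z : Fin 6 → K), (∀ i, y i ∈ L) → (∀ i, z i ∈ L) → y ⬝ᵥ z ∈ L := by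
    intro y z hy hz
    rw [dotProduct]
    exact L.sum_mem fun j _ => L.mul_mem (hy j) (hz j)
  -- the point of the plane
  have hTsL : ∀ i, TTS m p (s • v') i ∈ L := by
    have hb : ∀ k, pS K p ⬝ᵥ (mS K m k).mulVec (s • v') ∈ L := fun k =>
      hdotL _ _ hpL (hmulL _ _ (hmL k) hsvL)
    have hg : ∀ k, (s • v') ⬝ᵥ (mS K m k).mulVec (s • v') ∈ L := fun k =>
      hdotL _ _ hsvL (hmulL _ _ (hmL k) hsvL)
    intro i
    change (crossProduct (fun k => pS K p ⬝ᵥ (mS K m k).mulVec (s • v'))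
      (fun k => (s • v') ⬝ᵥ (mS K m k).mulVec (s • v'))) i ∈ L
    rw [cross_apply]
    fin_cases i
    · exact L.sub_mem (L.mul_mem (hb 1) (hg 2)) (L.mul_mem (hb 2) (hg 1))
    · exact L.sub_mem (L.mul_mem (hb 2) (hg 0)) (L.mul_mem (hb 0) (hg 2))
    · exact L.sub_mem (L.mul_mem (hb 0) (hg 1)) (L.mul_mem (hb 1) (hg 0))
  have hTs : TTS m p (s • v') = s ^ 3 • TTS m p v := by rw [TTS_smul, hTv']
  have hprop := TTS_prop (m := m) (p := p) (ZZ th) v hpv hvv
  have hT0 : TTS m p v 0 ≠ 0 := by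
    intro h0
    apply hTK
    have h1 := hprop 0 j
    rw [h0, mul_zero] at h1
    have h2 : (ZZ th : Fin 3 → K) 0 = 1 := by simp [ZZ]
    rwa [h2, one_mul] at h1
  have hthL : ∀ k, (ZZ th : Fin 3 → K) k ∈ L := by
    intro k
    have h1 := hprop 0 k
    have h2 : (ZZ th : Fin 3 → K) 0 = 1 := by simp [ZZ]
    rw [h2, one_mul] at h1
    have h3 : (ZZ th : Fin 3 → K) k = TTS m p (s • v') k / TTS m p (s • v') 0 := by
      rw [hTs, Pi.smul_apply, Pi.smul_apply, smul_eq_mul, smul_eq_mul,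
        mul_div_mul_left _ _ (pow_ne_zero 3 hs0), h1, mul_div_cancel_right₀ _ hT0]
    rw [h3]
    exact L.div_mem (hTsL k) (hTsL 0)
  have hthL' : ∀ k, th k ∈ L := by
    intro k
    have := hthL k.succ
    simpa [ZZ] using this
  have hMKL : ∀ i j, MK i j ∈ L := by
    intro i j
    rw [hMK, netS, Matrix.of_apply]
    exact L.sum_mem fun k _ => L.mul_mem (L.algebraMap_mem _) (hthL k)
  have hΦL : ∀ i j, D.Φ.map (aeval th) i j ∈ L := by
    intro i j
    rw [Matrix.map_apply]
    exact aeval_mem_of L th hthL' _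
  -- the vector `w`
  have hNwL : ∀ k : Fin 4, s * c.nf (ZZ th) (Pi.single k 1) wK ∈ L := by
    intro k
    have h1 := D.E2 th (Pi.single k 1) wK
    have h2 : (D.Φ.map (aeval th)).mulVec (Pi.single k 1) ⬝ᵥ MK.mulVec v =
        (D.Φ.map (aeval th)).mulVec (Pi.single k 1) ⬝ᵥ MK.mulVec v' := by
      have h3 : v = v' + l • pS K p := by
        rw [hv']
        funext i
        simp
      rw [h3, Matrix.mulVec_add, dotProduct_add, Matrix.mulVec_smul, dotProduct_smul,
        dot_symm hMs _ (pS K p), hE1, smul_zero, add_zero]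
    rw [← hv, ← hMK, h2] at h1
    have h4 : s * c.nf (ZZ th) (Pi.single k 1) wK = aeval th D.α / aeval th D.γ *
        ((D.Φ.map (aeval th)).mulVec (Pi.single k 1) ⬝ᵥ MK.mulVec (s • v')) := by
      rw [Matrix.mulVec_smul, dotProduct_smul, smul_eq_mul, div_mul_eq_mul_div, eq_div_iff hγK]
      linear_combination s * h1
    rw [h4]
    refine L.mul_mem (L.div_mem (aeval_mem_of L th hthL' _) (aeval_mem_of L th hthL' _))
      (hdotL _ _ ?_ (hmulL _ _ hMKL hsvL))
    intro i
    rw [Matrix.mulVec_single_one]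
    exact hΦL i k
  have hNL : ∀ i j, c.Nm (ZZ th) i j ∈ L := by
    intro i j
    have h1 : c.Nm (ZZ th) i j = aeval (ZZ th) (c.Nm (X : Fin 3 → P3) i j) := by
      rw [← Nm_map_aeval, Matrix.map_apply]
    rw [h1]
    exact aeval_mem_of L _ hthL _
  have hswL : ∀ k, s * wK k ∈ L := by
    have h1 : (c.Nm (ZZ th)).mulVec (s • wK) = fun k => s * c.nf (ZZ th) (Pi.single k 1) wK := by
      funext k
      rw [Cub.nf_single_left, Matrix.mulVec_smul]; rfl
    have h2 : s • wK = (c.Nm (ZZ th))⁻¹.mulVec (fun k => s * c.nf (ZZ th) (Pi.single k 1) wK) := by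
      rw [← h1, Matrix.mulVec_mulVec, Matrix.nonsing_inv_mul _ (isUnit_iff_ne_zero.mpr hNK),
        Matrix.one_mulVec]
    intro k
    have h3 := congrFun h2 k
    rw [Pi.smul_apply, smul_eq_mul] at h3
    rw [h3, Matrix.mulVec, dotProduct]
    refine L.sum_mem fun i _ => L.mul_mem ?_ (hNwL i)
    -- entries of the inverse
    rw [Matrix.inv_def, Matrix.smul_apply, smul_eq_mul, Ring.inverse_eq_inv']
    have hdetL : ∀ A : Matrix (Fin 4) (Fin 4) K, (∀ i j, A i j ∈ L) → A.det ∈ L := by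
      intro A hA
      rw [Matrix.det_apply']
      refine L.sum_mem fun σ _ => L.mul_mem ?_ (L.prod_mem fun i _ => hA _ _)
      exact L.intCast_mem _
    refine L.mul_mem (L.inv_mem (hdetL _ hNL)) ?_
    rw [Matrix.adjugate_apply]
    refine hdetL _ fun a b => ?_
    rw [Matrix.updateRow_apply]
    split_ifs
    · rw [Pi.single_apply]
      split_ifs
      · exact L.one_mem
      · exact L.zero_mem
    · exact hNL a b
  refine ⟨r, s * a⁻¹, mul_ne_zero hs0 (inv_ne_zero hx0), ?_⟩
  intro k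
  have h1 : s * a⁻¹ * x k = s * x' k := by
    rw [hx', Pi.smul_apply, smul_eq_mul]; ring
  rw [h1]
  rcases k with k | k
  · have h2 : x' (.inl k) = wK k.castSucc := by
      rw [hwK]
      fin_cases k <;> rfl
    rw [h2]; exact hswL _
  · have h2 : x' (.inr k) = (ZZ th : Fin 3 → K) k := by
      conv_lhs => rw [hxpt]
      rw [pt_apply]
      simp [hwK3]
    rw [h2]
    have h3 := hswL 3
    rw [hwK3, mul_one] at h3
    exact L.mul_mem h3 (hthL k)

end

open Pool.Agent.Helper16 in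
theorem rat4_of_sim {c : Cub (I6 → ℂ)} (hP : c.Iso P0) (m : Fin 3 → Matrix (Fin 6) (Fin 6) ℂ)
    (hm : ∀ k, (m k).IsSymm) (p : Fin 6 → ℂ) (hp : p ≠ 0) (hpp : ∀ k, p ⬝ᵥ (m k).mulVec p = 0)
    (hdet : (netP m).det ≠ 0) (hdom : ∀ h : P3, h ≠ 0 → ∃ v : Fin 6 → ℂ, eval (TT m p v) h ≠ 0)
    (Φ : Matrix (Fin 6) (Fin 4) KK) (μ : KK) (hμ : μ ≠ 0)
    (h1 : ∀ y, (fun i => algebraMap ℂ KK (p i)) ⬝ᵥ
      ((netP m).map psiK).mulVec (Φ.mulVec y) = 0)
    (h2 : ∀ y y', y ⬝ᵥ ((c.Nm (X : Fin 3 → P3)).map psiK).mulVec y' =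
      μ * (Φ.mulVec y ⬝ᵥ ((netP m).map psiK).mulVec (Φ.mulVec y'))) : c.Rat4 := by
  obtain ⟨D⟩ := exists_sim Φ μ hμ h1 h2
  exact rat4_of_simD hP D hm hp hpp hdet hdom

end Pool.Agent.Helper29.HP
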