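import Mathlib

set_option autoImplicit false
set_option linter.unusedVariables false

/-!
Piece HP-C1 (helper72).  A totally isotropic subspace of half dimension in `N - μ M` gives an
isotropic vector of `N` or a similarity of `N` with `p^⊥ / p`.
-/

namespace Pool.Agent.Helper29.HP

open MvPolynomial


open Matrix Module

section refl

variable {K : Type*} [Field K] {V W : Type*} [AddCommGroup V] [Module K V] [AddCommGroup W]
  [Module K W]

/-- reflection step -/
theorem refl_step (B : V →ₗ[K] V →ₗ[K] K) (hB : ∀ x y, B x y = B y x) (C : W → W → K) (μ : K)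
    (r p : V) (hr : B r r = 0) (hp : B p p = 0) (hrp : B r p ≠ 0) (Φ : W →ₗ[K] V)
    (h1 : ∀ y, B r (Φ y) = 0) (h2 : ∀ y y', C y y' = μ * B (Φ y) (Φ y')) :
    ∃ Φ' : W →ₗ[K] V, (∀ y, B p (Φ' y) = 0) ∧ ∀ y y', C y y' = μ * B (Φ' y) (Φ' y') := by
  refine ⟨Φ - ((B r p)⁻¹ • ((B p).comp Φ)).smulRight (r - p), ?_, ?_⟩
  · intro y
    simp only [LinearMap.sub_apply, LinearMap.smulRight_apply, LinearMap.smul_apply,
      LinearMap.comp_apply, smul_eq_mul, map_sub, map_smul, hp, sub_zero]
    rw [hB p r]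
    field_simp
    ring
  · intro y y'
    rw [h2]
    congr 1
    simp only [LinearMap.sub_apply, LinearMap.smulRight_apply, LinearMap.smul_apply,
      LinearMap.comp_apply, smul_eq_mul, map_sub, map_smul, hp, hr, h1, sub_zero, zero_sub]
    rw [hB (Φ y) r, h1, hB (Φ y) p, hB p r]
    field_simp
    ring

/-- two nonzero functionals have a common nonzero -/
theorem exists_both' {f g : V →ₗ[K] K} (hf : f ≠ 0) (hg : g ≠ 0) : ∃ w, f w ≠ 0 ∧ g w ≠ 0 := by
  obtain ⟨a, ha⟩ : ∃ a, f a ≠ 0 := by
    by_contra hcon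
    push Not at hcon
    exact hf (LinearMap.ext hcon)
  obtain ⟨b, hb⟩ : ∃ b, g b ≠ 0 := by
    by_contra hcon
    push Not at hcon
    exact hg (LinearMap.ext hcon)
  by_cases hga : g a = 0
  · by_cases hfb : f b = 0
    · exact ⟨a + b, by rw [map_add, hfb, add_zero]; exact ha, by
        rw [map_add, hga, zero_add]; exact hb⟩
    · exact ⟨b, hfb, hb⟩
  · exact ⟨a, ha, hga⟩

/-- transitivity on isotropic vectors -/
theorem move_step (h20 : (2 : K) ≠ 0) (B : V →ₗ[K] V →ₗ[K] K) (hB : ∀ x y, B x y = B y x)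
    (C : W → W → K) (μ : K)
    (r p : V) (hr : B r r = 0) (hp : B p p = 0) (hr0 : B r ≠ 0) (hp0 : B p ≠ 0) (Φ : W →ₗ[K] V)
    (h1 : ∀ y, B r (Φ y) = 0) (h2 : ∀ y y', C y y' = μ * B (Φ y) (Φ y')) :
    ∃ Φ' : W →ₗ[K] V, (∀ y, B p (Φ' y) = 0) ∧ ∀ y y', C y y' = μ * B (Φ' y) (Φ' y') := by
  by_cases hrp : B r p = 0
  · obtain ⟨z', hz1, hz2⟩ := exists_both' hr0 hp0
    set t : K := - (B z' z') / (2 * B r z') with ht
    set z : V := z' + t • r with hz
    have hzz : B z z = 0 := by
      rw [hz]
      simp only [map_add, map_smul, LinearMap.add_apply, LinearMap.smul_apply, smul_eq_mul, hr,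
        hB z' r]
      rw [ht]
      field_simp
      ring
    have hrz : B r z ≠ 0 := by
      rw [hz]
      simp only [map_add, map_smul, smul_eq_mul, hr, mul_zero, add_zero]
      exact hz1
    have hzp : B z p ≠ 0 := by
      rw [hz]
      simp only [map_add, map_smul, LinearMap.add_apply, LinearMap.smul_apply, smul_eq_mul, hrp,
        mul_zero, add_zero]
      rw [hB]
      exact hz2
    obtain ⟨Φ1, h3, h4⟩ := refl_step B hB C μ r z hr hzz hrz Φ h1 h2
    exact refl_step B hB C μ z p hzz hp hzp Φ1 h3 h4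
  · exact refl_step B hB C μ r p hr hp hrp Φ h1 h2

end refl

section main

variable {K : Type*} [Field K]

/-- the bilinear form of a matrix -/
noncomputable def bil {n : ℕ} (M : Matrix (Fin n) (Fin n) K) :
    (Fin n → K) →ₗ[K] (Fin n → K) →ₗ[K] K :=
  LinearMap.mk₂ K (fun x y => x ⬝ᵥ M *ᵥ y)
    (by intro a b c; rw [add_dotProduct])
    (by intro a b c; rw [smul_dotProduct])
    (by intro a b c; rw [mulVec_add, dotProduct_add])
    (by intro a b c; rw [mulVec_smul, dotProduct_smul])

theorem bil_apply {n : ℕ} (M : Matrix (Fin n) (Fin n) K) (x y : Fin n → K) :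
    bil M x y = x ⬝ᵥ M *ᵥ y := rfl

theorem bil_symm {n : ℕ} {M : Matrix (Fin n) (Fin n) K} (hM : M.IsSymm) (x y : Fin n → K) :
    bil M x y = bil M y x := by
  rw [bil_apply, bil_apply, dotProduct_mulVec, ← mulVec_transpose, hM.eq, dotProduct_comm]

theorem bil_ne_zero {n : ℕ} {M : Matrix (Fin n) (Fin n) K} (hM : M.IsSymm) (hd : M.det ≠ 0)
    {x : Fin n → K} (hx : x ≠ 0) : bil M x ≠ 0 := by
  intro h
  apply hx
  have h1 : M *ᵥ x = 0 := by
    funext i
    have := LinearMap.congr_fun h (Pi.single i 1)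
    rw [bil_symm hM, bil_apply] at this
    simpa using this
  exact eq_zero_of_mulVec_eq_zero hd h1

theorem sim_or_iso {K : Type*} [Field K] (h2 : (2 : K) ≠ 0) (N : Matrix (Fin 4) (Fin 4) K)
    (M : Matrix (Fin 6) (Fin 6) K) (hN : N.IsSymm) (hM : M.IsSymm) (hN0 : N.det ≠ 0)
    (hM0 : M.det ≠ 0) (μ : K) (hμ : μ ≠ 0) (u : Fin 5 → Fin 4 → K) (v : Fin 5 → Fin 6 → K)
    (hli : LinearIndependent K (fun a => (u a, v a)))
    (h : ∀ a b, u a ⬝ᵥ N.mulVec (u b) = μ * (v a ⬝ᵥ M.mulVec (v b))) (p : Fin 6 → K)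
    (hp : p ≠ 0) (hpp : p ⬝ᵥ M.mulVec p = 0) :
    (∃ y : Fin 4 → K, y ≠ 0 ∧ y ⬝ᵥ N.mulVec y = 0) ∨
      ∃ Φ : Matrix (Fin 6) (Fin 4) K, (∀ y, p ⬝ᵥ M.mulVec (Φ.mulVec y) = 0) ∧
        ∀ y y', y ⬝ᵥ N.mulVec y' = μ * (Φ.mulVec y ⬝ᵥ M.mulVec (Φ.mulVec y')) := by
  classical
  by_cases hiso : ∃ y : Fin 4 → K, y ≠ 0 ∧ y ⬝ᵥ N *ᵥ y = 0
  · exact Or.inl hiso
  right
  push Not at hiso
  -- linear combinations
  let U : (Fin 5 → K) →ₗ[K] (Fin 4 → K) := Fintype.linearCombination K u
  let T : (Fin 5 → K) →ₗ[K] (Fin 6 → K) := Fintype.linearCombination K v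
  have hUT : ∀ a b, bil N (U a) (U b) = μ * bil M (T a) (T b) := by
    intro a b
    simp only [U, T, Fintype.linearCombination_apply, map_sum, map_smul, LinearMap.sum_apply,
      LinearMap.smul_apply, smul_eq_mul, bil_apply, Finset.mul_sum]
    refine Finset.sum_congr rfl fun i _ => Finset.sum_congr rfl fun j _ => ?_
    rw [h]; ring
  have hinj0 : ∀ c, U c = 0 → T c = 0 → c = 0 := by
    intro c h1 h2
    have := Fintype.linearIndependent_iff.mp hli c (by
      have e1 : ∑ i, c i • (u i, v i) = (U c, T c) := by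
        simp only [U, T, Fintype.linearCombination_apply, Prod.ext_iff]
        constructor
        · rw [Prod.fst_sum]; rfl
        · rw [Prod.snd_sum]; rfl
      rw [e1, h1, h2]; rfl)
    exact funext this
  have hTinj : ∀ c, T c = 0 → c = 0 := by
    intro c hc
    refine hinj0 c ?_ hc
    by_contra hne
    apply hiso _ hne
    rw [← bil_apply, hUT, hc]
    simp
  have hTinj' : Function.Injective T := (injective_iff_map_eq_zero T).mpr hTinj
  -- a dependency
  obtain ⟨c0, hc0U, hc0⟩ : ∃ c, U c = 0 ∧ c ≠ 0 := by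
    by_contra hcon
    push Not at hcon
    have hU : Function.Injective U := (injective_iff_map_eq_zero U).mpr hcon
    have := LinearMap.finrank_le_finrank_of_injective hU
    simp at this
  set r : Fin 6 → K := T c0 with hr
  have hr0 : r ≠ 0 := fun h0 => hc0 (hTinj c0 h0)
  have hrT : ∀ c, bil M r (T c) = 0 := by
    intro c
    have h1 := hUT c0 c
    rw [hc0U, map_zero, LinearMap.zero_apply] at h1
    exact (mul_eq_zero.mp h1.symm).resolve_left hμ
  -- the orthogonal of the image of `T` is spanned by `r`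
  have horth : ∀ x : Fin 6 → K, (∀ c, bil M x (T c) = 0) → ∃ s : K, x = s • r := by
    intro x hx
    -- the map `z ↦ (bil M z (T c))` from `K^6` to the dual of `K^5` is surjective
    let D : (Fin 6 → K) →ₗ[K] ((Fin 5 → K) →ₗ[K] K) :=
      (LinearMap.lcomp K K T).comp (bil M)
    have hDa : ∀ z c, D z c = bil M z (T c) := fun z c => rfl
    have hD : Function.Surjective D := by
      intro f
      obtain ⟨g, hg⟩ := LinearMap.exists_leftInverse_of_injective T
        (LinearMap.ker_eq_bot.mpr hTinj')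
      -- extend `f` to `K^6`
      let F : (Fin 6 → K) →ₗ[K] K := f.comp g
      have hF : ∀ c, F (T c) = f c := by
        intro c
        have := LinearMap.congr_fun hg c
        simp only [LinearMap.comp_apply, LinearMap.id_apply] at this
        simp only [F, LinearMap.comp_apply, this]
      -- represent `F`
      have hsurj : Function.Surjective (bil M) := by
        have hinj : Function.Injective (bil M) :=
          (injective_iff_map_eq_zero _).mpr fun z hz => by
            by_contra hz0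
            exact bil_ne_zero hM hM0 hz0 hz
        have hfr : finrank K (Fin 6 → K) = finrank K ((Fin 6 → K) →ₗ[K] K) := by
          rw [Module.finrank_linearMap]; simp
        exact (LinearMap.injective_iff_surjective_of_finrank_eq_finrank hfr).mp hinj
      obtain ⟨z, hz⟩ := hsurj F
      exact ⟨z, LinearMap.ext fun c => by rw [hDa, hz, hF]⟩
    have hker : finrank K (LinearMap.ker D) = 1 := by
      have h1 := LinearMap.finrank_range_add_finrank_ker D
      rw [LinearMap.range_eq_top.mpr hD, finrank_top, Module.finrank_linearMap] at h1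
      simp at h1
      omega
    have hrk : r ∈ LinearMap.ker D := by
      rw [LinearMap.mem_ker]
      exact LinearMap.ext fun c => by rw [hDa, hrT]; rfl
    have hxk : x ∈ LinearMap.ker D := by
      rw [LinearMap.mem_ker]
      exact LinearMap.ext fun c => by rw [hDa, hx]; rfl
    have h2 := (finrank_eq_one_iff_of_nonzero' (⟨r, hrk⟩ : LinearMap.ker D)
      (by intro h0; exact hr0 (congrArg Subtype.val h0))).mp hker ⟨x, hxk⟩
    obtain ⟨s, hs⟩ := h2
    exact ⟨s, (congrArg Subtype.val hs).symm⟩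
  -- `U` is surjective
  have hUsurj : Function.Surjective U := by
    have hker : finrank K (LinearMap.ker U) ≤ 1 := by
      refine finrank_le_one (⟨c0, by rw [LinearMap.mem_ker]; exact hc0U⟩ : LinearMap.ker U) ?_
      rintro ⟨c, hc⟩
      rw [LinearMap.mem_ker] at hc
      obtain ⟨s, hs⟩ := horth (T c) (fun c' => by
        have h1 := hUT c c'
        rw [hc, map_zero, LinearMap.zero_apply] at h1
        exact (mul_eq_zero.mp h1.symm).resolve_left hμ)
      refine ⟨s, Subtype.ext ?_⟩
      apply hTinj'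
      change T (s • c0) = T c
      rw [map_smul, hs]
    have h1 := LinearMap.finrank_range_add_finrank_ker U
    rw [Module.finrank_fin_fun] at h1
    have h2 : finrank K (LinearMap.range U) = finrank K (Fin 4 → K) := by
      have h3 : finrank K (LinearMap.range U) ≤ finrank K (Fin 4 → K) :=
        Submodule.finrank_le _
      rw [Module.finrank_fin_fun] at h3 ⊢
      omega
    exact LinearMap.range_eq_top.mp (Submodule.eq_top_of_finrank_eq h2)
  obtain ⟨S, hS⟩ := LinearMap.exists_rightInverse_of_surjective U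
    (LinearMap.range_eq_top.mpr hUsurj)
  have hS' : ∀ y, U (S y) = y := fun y => LinearMap.congr_fun hS y
  -- the isometry for `r`
  have hrr : bil M r r = 0 := hrT c0
  obtain ⟨Φ, h3, h4⟩ := move_step h2 (bil M) (bil_symm hM) (fun y y' => bil N y y') μ r p hrr hpp
    (bil_ne_zero hM hM0 hr0) (bil_ne_zero hM hM0 hp) (T.comp S) (fun y => hrT (S y))
    (fun y y' => by
      change bil N y y' = μ * bil M (T (S y)) (T (S y'))
      rw [← hUT, hS', hS'])
  refine ⟨LinearMap.toMatrix' Φ, ?_, ?_⟩
  · intro y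
    rw [LinearMap.toMatrix'_mulVec]
    exact h3 y
  · intro y y'
    rw [LinearMap.toMatrix'_mulVec, LinearMap.toMatrix'_mulVec]
    exact h4 y y'

end main

end Pool.Agent.Helper29.HP
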