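import Pool.Agent.Helper29.HP.Defs

set_option autoImplicit false

/-!
Piece HP-DED.  The coordinate ring of a smooth affine plane curve is a Dedekind domain.  Hint:
maximal ideals are points (Nullstellensatz); if `∂f/∂y ≠ 0` at the point then `x - a` generates
the maximal ideal of the local ring, so it is a discrete valuation ring; use
`IsDedekindDomainDvr`.
-/

namespace Pool.Agent.Helper29.HP

open MvPolynomial

private lemma ded_sub_mem (P : Fin 2 → ℂ) (g : P2) :
    g - C (eval P g) ∈ Ideal.span {X 0 - C (P 0), X 1 - C (P 1)} := by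
  induction g using MvPolynomial.induction_on with
  | C a => simp
  | add p q hp hq =>
    have : p + q - C (eval P (p + q)) = (p - C (eval P p)) + (q - C (eval P q)) := by
      simp only [map_add]; ring
    rw [this]
    exact Ideal.add_mem _ hp hq
  | mul_X p i hp =>
    have : p * X i - C (eval P (p * X i)) =
        (p - C (eval P p)) * X i + C (eval P p) * (X i - C (P i)) := by
      simp only [map_mul, eval_X]; ring
    rw [this]
    refine Ideal.add_mem _ (Ideal.mul_mem_right _ _ hp) (Ideal.mul_mem_left _ _ ?_)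
    fin_cases i
    · exact Ideal.subset_span (by simp)
    · exact Ideal.subset_span (by simp)

private lemma ded_exists (P : Fin 2 → ℂ) (g : P2) (hg : eval P g = 0) :
    ∃ A B : P2, g = A * (X 0 - C (P 0)) + B * (X 1 - C (P 1)) := by
  have h := ded_sub_mem P g
  rw [hg, map_zero, sub_zero, Ideal.mem_span_pair] at h
  obtain ⟨A, B, h⟩ := h
  exact ⟨A, B, h.symm⟩

private lemma ded_span {R : Type*} [CommRing R] (u v a b : R) (hb : IsUnit b)
    (h : a * u + b * v = 0) : Ideal.span {u, v} = Ideal.span {u} := by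
  obtain ⟨b, rfl⟩ := hb
  apply le_antisymm
  · rw [Ideal.span_le]
    intro x hx
    rcases hx with hx | hx
    · rw [hx]
      exact Ideal.subset_span rfl
    · rw [Set.mem_singleton_iff] at hx
      rw [hx, SetLike.mem_coe, Ideal.mem_span_singleton']
      refine ⟨-(↑b⁻¹ * a), ?_⟩
      have h1 : (↑b⁻¹ : R) * (a * u + ↑b * v) = 0 := by rw [h, mul_zero]
      have h3 : (↑b⁻¹ : R) * ↑b = 1 := Units.inv_mul b
      linear_combination (-1 : R) * h1 + v * h3
  · exact Ideal.span_mono (by simp)

private lemma ded_dvr (f : P2) [hdom : IsDomain (P2 ⧸ Ideal.span {f})]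
    (hsm : ∀ P : Fin 2 → ℂ, eval P f = 0 → ∃ i, eval P (pderiv i f) ≠ 0)
    (M : Ideal (P2 ⧸ Ideal.span {f})) [hM : M.IsMaximal] (hM0 : M ≠ ⊥) :
    IsDiscreteValuationRing (Localization.AtPrime M) := by
  have hnoeth : IsNoetherianRing (Localization.AtPrime M) :=
    IsLocalization.isNoetherianRing M.primeCompl _ inferInstance
  have hnf := IsLocalization.AtPrime.not_isField (P2 ⧸ Ideal.span {f}) hM0
    (Localization.AtPrime M)
  refine ((IsDiscreteValuationRing.TFAE (Localization.AtPrime M) hnf).out 0 4).mpr ?_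
  -- the point
  have hN : (M.comap (Ideal.Quotient.mk (Ideal.span {f}))).IsMaximal :=
    Ideal.comap_isMaximal_of_surjective _ Ideal.Quotient.mk_surjective
  obtain ⟨P, hP⟩ := MvPolynomial.isMaximal_iff_eq_vanishingIdeal_singleton.1 hN
  have hmem : ∀ g : P2, Ideal.Quotient.mk (Ideal.span {f}) g ∈ M ↔ eval P g = 0 := by
    intro g
    have : g ∈ M.comap (Ideal.Quotient.mk (Ideal.span {f})) ↔ eval P g = 0 := by
      rw [hP, MvPolynomial.mem_vanishingIdeal_singleton_iff]
      have hev : (aeval P : P2 →ₐ[ℂ] ℂ) g = eval P g := by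
        rw [← MvPolynomial.coe_aeval_eq_eval]; rfl
      rw [hev]
    simpa using this
  have hf0 : eval P f = 0 := by
    rw [← hmem f]
    have : Ideal.Quotient.mk (Ideal.span {f}) f = 0 :=
      Ideal.Quotient.eq_zero_iff_mem.2 (Ideal.subset_span rfl)
    rw [this]
    exact M.zero_mem
  obtain ⟨A, B, hAB⟩ := ded_exists P f hf0
  set φ : P2 →+* Localization.AtPrime M :=
    (algebraMap (P2 ⧸ Ideal.span {f}) (Localization.AtPrime M)).comp
      (Ideal.Quotient.mk (Ideal.span {f})) with hφ
  have hφf : φ f = 0 := by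
    have : Ideal.Quotient.mk (Ideal.span {f}) f = 0 :=
      Ideal.Quotient.eq_zero_iff_mem.2 (Ideal.subset_span rfl)
    simp [hφ, this]
  have hrel : φ A * φ (X 0 - C (P 0)) + φ B * φ (X 1 - C (P 1)) = 0 := by
    rw [← map_mul, ← map_mul, ← map_add, ← hAB, hφf]
  have hunit : ∀ g : P2, eval P g ≠ 0 → IsUnit (φ g) := by
    intro g hg
    have : Ideal.Quotient.mk (Ideal.span {f}) g ∈ M.primeCompl := by
      intro h
      exact hg ((hmem g).1 h)
    exact IsLocalization.map_units (Localization.AtPrime M)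
      (⟨_, this⟩ : M.primeCompl)
  have hmax : IsLocalRing.maximalIdeal (Localization.AtPrime M) =
      Ideal.span {φ (X 0 - C (P 0)), φ (X 1 - C (P 1))} := by
    rw [← Localization.AtPrime.map_eq_maximalIdeal]
    apply le_antisymm
    · rw [Ideal.map_le_iff_le_comap]
      intro r hr
      obtain ⟨g, rfl⟩ := Ideal.Quotient.mk_surjective r
      obtain ⟨A', B', h'⟩ := ded_exists P g ((hmem g).1 hr)
      rw [Ideal.mem_comap]
      have h2 : algebraMap (P2 ⧸ Ideal.span {f}) (Localization.AtPrime M)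
          (Ideal.Quotient.mk (Ideal.span {f}) g) = φ g := rfl
      rw [h2, h', map_add, map_mul, map_mul]
      exact Ideal.mem_span_pair.2 ⟨_, _, rfl⟩
    · rw [Ideal.span_le]
      rintro _ (rfl | rfl)
      · exact Ideal.mem_map_of_mem _ ((hmem _).2 (by simp))
      · exact Ideal.mem_map_of_mem _ ((hmem _).2 (by simp))
  have hA : eval P (pderiv 0 f) = eval P A := by
    conv_lhs => rw [hAB]
    simp [Derivation.leibniz, pderiv_X]
  have hB : eval P (pderiv 1 f) = eval P B := by
    conv_lhs => rw [hAB]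
    simp [Derivation.leibniz, pderiv_X]
  obtain ⟨i, hi⟩ := hsm P hf0
  rw [hmax]
  fin_cases i
  · have hA' : IsUnit (φ A) := hunit A (by rw [← hA]; exact hi)
    have h5 := ded_span (R := Localization.AtPrime M) (φ (X 1 - C (P 1))) (φ (X 0 - C (P 0)))
      (φ B) (φ A) hA' (by rw [add_comm]; exact hrel)
    rw [Set.pair_comm, h5]
    exact ⟨⟨_, rfl⟩⟩
  · have hB' : IsUnit (φ B) := hunit B (by rw [← hB]; exact hi)
    have h5 := ded_span (R := Localization.AtPrime M) (φ (X 0 - C (P 0))) (φ (X 1 - C (P 1)))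
      (φ A) (φ B) hB' hrel
    rw [h5]
    exact ⟨⟨_, rfl⟩⟩

private lemma ded_max {A : Type*} [CommRing A] [IsDomain A]
    (h : ∀ M : Ideal A, ∀ _ : M.IsMaximal, M ≠ ⊥ →
      IsDiscreteValuationRing (Localization.AtPrime M))
    (p : Ideal A) (hp : p ≠ ⊥) (hpp : p.IsPrime) : p.IsMaximal := by
  rcases p.exists_le_maximal (Ideal.IsPrime.ne_top hpp) with ⟨q, hq, hpq⟩
  let f := (IsLocalization.orderIsoOfPrime q.primeCompl (Localization.AtPrime q)).symm
  let P := f ⟨p, hpp, hpq.disjoint_compl_left⟩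
  let Q := f ⟨q, hq.isPrime, Set.disjoint_left.mpr fun _ a => a⟩
  have hinj : Function.Injective (algebraMap A (Localization.AtPrime q)) :=
    IsLocalization.injective (Localization.AtPrime q) q.primeCompl_le_nonZeroDivisors
  have hp1 : P.1 ≠ ⊥ := fun x => hp ((p.map_eq_bot_iff_of_injective hinj).mp x)
  have hq1 : Q.1 ≠ ⊥ :=
    fun x => (ne_bot_of_le_ne_bot hp hpq) ((q.map_eq_bot_iff_of_injective hinj).mp x)
  rcases (IsDiscreteValuationRing.iff_pid_with_one_nonzero_prime (Localization.AtPrime q)).mp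
    (h q hq (ne_bot_of_le_ne_bot hp hpq)) with ⟨_, huq⟩
  rw [show p = q from Subtype.val_inj.mpr <| f.injective <|
    Subtype.val_inj.mp (huq.unique ⟨hp1, P.2⟩ ⟨hq1, Q.2⟩)]
  exact hq

theorem dedekind_of_smooth (f : P2) (hf : Irreducible f)
    (hsm : ∀ P : Fin 2 → ℂ, eval P f = 0 → ∃ i, eval P (pderiv i f) ≠ 0) :
    IsDedekindDomain (P2 ⧸ Ideal.span {f}) := by
  have hprime : (Ideal.span {f} : Ideal P2).IsPrime :=
    (Ideal.span_singleton_prime hf.ne_zero).2 hf.prime
  have hdom : IsDomain (P2 ⧸ Ideal.span {f}) := Ideal.Quotient.isDomain _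
  have hmax : ∀ M : Ideal (P2 ⧸ Ideal.span {f}), ∀ _ : M.IsMaximal, M ≠ ⊥ →
      IsDiscreteValuationRing (Localization.AtPrime M) :=
    fun M hM hM0 => ded_dvr f hsm M hM0
  have hdvr : IsDedekindDomainDvr (P2 ⧸ Ideal.span {f}) :=
    { (inferInstance : IsNoetherian (P2 ⧸ Ideal.span {f}) (P2 ⧸ Ideal.span {f})) with
      is_dvr_at_nonzero_prime := fun P hP hPp => by
        have : P.IsMaximal := ded_max hmax P hP hPp
        exact hmax P this hP }
  infer_instance

end Pool.Agent.Helper29.HP
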