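import Pool.Agent.Helper29.HP.Defs

set_option autoImplicit false

/-!
Piece HP-ENLARGE (helper27).  Enlarging an integral lattice by explicit vectors: a basis of
`A^n + sum A v_i / d_i`.
-/

namespace Pool.Agent.Helper29.HP

open MvPolynomial

theorem enlarge {A : Type*} [CommRing A] [IsDomain A] [IsPrincipalIdealRing A] {n : ℕ}
    (G : Matrix (Fin n) (Fin n) A) (hG : G.IsSymm) (hdet : G.det ≠ 0) {ι : Type*} [Finite ι]
    (v : ι → Fin n → A) (d : ι → A) (hd : ∀ i, d i ≠ 0)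
    (h1 : ∀ i l, d i ∣ G.mulVec (v i) l) (h2 : ∀ i j, d i * d j ∣ v i ⬝ᵥ G.mulVec (v j)) :
    ∃ C G' : Matrix (Fin n) (Fin n) A, G'.IsSymm ∧ G = C.transpose * G' * C ∧
      ∀ i l, d i ∣ C.mulVec (v i) l := by
  sorry

/-- `r` vectors independent modulo `π` in the kernel of `C` modulo `π` -/
theorem pow_dvd_det {A : Type*} [CommRing A] [IsDomain A] [IsPrincipalIdealRing A] {n r : ℕ}
    (π : A) (hπ : Prime π) (C : Matrix (Fin n) (Fin n) A) (v : Fin r → Fin n → A)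
    (hv : ∀ a : Fin r → A, (∀ l, π ∣ ∑ i, a i * v i l) → ∀ i, π ∣ a i)
    (hC : ∀ i l, π ∣ C.mulVec (v i) l) : π ^ r ∣ C.det := by
  sorry

end Pool.Agent.Helper29.HP
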