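import Pool.Agent.Helper29.HP.Defs

set_option autoImplicit false

/-!
Piece HP-EV.  A curve `π = 0` on which `f` is a square meets the smooth curve `f = 0` with even
multiplicities.  Hint: let `O` be the local ring of the plane at `P` and `Ring.ord`
(`Mathlib.RingTheory.OrderOfVanishing`) the length of `R / (x)`.  In `E = O / (π)`:
`ord f + 2 ord h = ord (g^2) = 2 ord g` (`Ring.ord_mul`, finite lengths since `π, h` and `π, f`
are coprime), so `ord_E f` is even; it equals the length of `O / (π, f)`, which is the valuation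
of `π` in the discrete valuation ring `O / (f)`.  So `π = unit * ϖ^(2 n)` there.
-/

namespace Pool.Agent.Helper29.HP

open MvPolynomial

/-- both orders are the length of the quotient by both elements -/
lemma ea_ord_comm {O : Type*} [CommRing O] (a b : O) :
    Ring.ord (O ⧸ Ideal.span {a}) (Ideal.Quotient.mk _ b) =
      Ring.ord (O ⧸ Ideal.span {b}) (Ideal.Quotient.mk _ a) := by
  have key : ∀ c d : O, Ring.ord (O ⧸ Ideal.span {c}) (Ideal.Quotient.mk _ d) =
      Module.length O ((O ⧸ Ideal.span {c}) ⧸ (Ideal.span {d}).map (Ideal.Quotient.mk (Ideal.span {c}))) := by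
    intro c d
    rw [Ring.ord, Module.length_eq_of_surjective (R := O ⧸ Ideal.span {c}) (S := O)
      Ideal.Quotient.mk_surjective]
    have : Ideal.span {(Ideal.Quotient.mk (Ideal.span {c})) d} =
        (Ideal.span {d}).map (Ideal.Quotient.mk (Ideal.span {c})) := by
      rw [Ideal.map_span, Set.image_singleton]
    rw [this]
  rw [key, key]
  exact LinearEquiv.length_eq (DoubleQuot.quotQuotEquivCommₐ O (Ideal.span {a}) (Ideal.span {b})).toLinearEquiv

lemma ea_parity {E : Type*} [CommRing E] [IsDomain E] [IsNoetherianRing E] [Ring.KrullDimLE 1 E]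
    (f g h : E) (hf : f ≠ 0) (hh : h ≠ 0) (hg : g ^ 2 = f * h ^ 2) :
    ∃ n : ℕ, Ring.ord E f = ((2 * n : ℕ) : ℕ∞) := by
  have hg0 : g ≠ 0 := by
    rintro rfl
    have : f * h ^ 2 ≠ 0 := mul_ne_zero hf (pow_ne_zero _ hh)
    exact this (by rw [← hg]; ring)
  have e1 := Ring.ord_pow (mem_nonZeroDivisors_of_ne_zero hg0) 2
  have e2 := Ring.ord_pow (mem_nonZeroDivisors_of_ne_zero hh) 2
  have e3 := Ring.ord_mul E (a := f) (b := h ^ 2)
    (mem_nonZeroDivisors_of_ne_zero (pow_ne_zero _ hh))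
  rw [← hg, e1, e2] at e3
  obtain ⟨a, ha⟩ := ENat.ne_top_iff_exists.mp (Ring.ord_ne_top (mem_nonZeroDivisors_of_ne_zero hf))
  obtain ⟨b, hb⟩ := ENat.ne_top_iff_exists.mp (Ring.ord_ne_top (mem_nonZeroDivisors_of_ne_zero hh))
  obtain ⟨c, hc⟩ := ENat.ne_top_iff_exists.mp (Ring.ord_ne_top (mem_nonZeroDivisors_of_ne_zero hg0))
  rw [← ha, ← hb, ← hc] at e3
  have e4 : 2 * c = a + 2 * b := by
    have : ((2 * c : ℕ) : ℕ∞) = ((a + 2 * b : ℕ) : ℕ∞) := by
      push_cast
      simpa [nsmul_eq_mul] using e3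
    exact_mod_cast this
  refine ⟨c - b, ?_⟩
  rw [← ha]
  have : a = 2 * (c - b) := by omega
  exact_mod_cast this

lemma ea_dvr {D : Type*} [CommRing D] [IsDomain D] [IsDiscreteValuationRing D] {ϖ x : D}
    (hϖ : Irreducible ϖ) (n : ℕ) (hx : Ring.ord D x = ((2 * n : ℕ) : ℕ∞)) (hx0 : x ≠ 0) :
    ∃ u : Dˣ, x = u * (ϖ ^ n) ^ 2 := by
  obtain ⟨k, u, rfl⟩ := IsDiscreteValuationRing.eq_unit_mul_pow_irreducible hx0 hϖ
  rw [Ring.ord_eq_addVal] at hx
  rw [IsDiscreteValuationRing.addVal_def' u hϖ] at hx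
  have : k = 2 * n := by exact_mod_cast hx
  exact ⟨u, by rw [this, pow_mul']⟩

/-- a polynomial minus its value -/
lemma ea_span (P : Fin 2 → ℂ) (p : P2) :
    p - C (eval P p) ∈ Ideal.span {(X 0 - C (P 0) : P2), X 1 - C (P 1)} := by
  induction p using MvPolynomial.induction_on with
  | C a => simp
  | add p q hp hq =>
    have : p + q - C (eval P (p + q)) = (p - C (eval P p)) + (q - C (eval P q)) := by
      simp; ring
    rw [this]
    exact Ideal.add_mem _ hp hq
  | mul_X p i hp =>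
    have : p * X i - C (eval P (p * X i)) = (p - C (eval P p)) * X i + C (eval P p) * (X i - C (P i)) := by
      simp; ring
    rw [this]
    refine Ideal.add_mem _ (Ideal.mul_mem_right _ _ hp) (Ideal.mul_mem_left _ _ ?_)
    apply Ideal.subset_span
    fin_cases i <;> simp

lemma ea_smooth (P : Fin 2 → ℂ) (f : P2) (hP : eval P f = 0) (i : Fin 2)
    (hi : eval P (pderiv i f) ≠ 0) :
    ∃ (j : Fin 2) (A B : P2), f = A * (X i - C (P i)) + B * (X j - C (P j)) ∧ eval P A ≠ 0 ∧
      Ideal.span {(X 0 - C (P 0) : P2), X 1 - C (P 1)} =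
        Ideal.span {(X i - C (P i) : P2), X j - C (P j)} := by
  have h0 := ea_span P f
  rw [hP, C_0, sub_zero, Ideal.mem_span_pair] at h0
  obtain ⟨A0, A1, h⟩ := h0
  fin_cases i
  · refine ⟨1, A0, A1, h.symm, ?_, rfl⟩
    have h2 : eval P (pderiv 0 f) = eval P A0 := by
      rw [← h]
      simp [pderiv_X]
    simpa [h2] using hi
  · refine ⟨0, A1, A0, by rw [← h]; simp; ring, ?_, ?_⟩
    · have h2 : eval P (pderiv 1 f) = eval P A1 := by
        rw [← h]
        simp [pderiv_X]
      simpa [h2] using hi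
    · simp [Set.pair_comm]


/-- the abstract form -/
lemma ea_abs {R : Type*} [CommRing R] [IsDomain R] [IsNoetherianRing R]
    (hdim : ringKrullDim R ≤ 2) (m : Ideal R) [hm : m.IsPrime] (x y A B f π g h : R)
    (hxy : m = Ideal.span {x, y}) (hfe : f = A * x + B * y) (hA : A ∉ m)
    (hf : Prime f) (hπ : Prime π) (hfπ : ¬ f ∣ π) (hπf : ¬ π ∣ f) (hπh : ¬ π ∣ h)
    (hgh : π ∣ g ^ 2 - f * h ^ 2) (hfm : f ∈ m) (hπm : π ∈ m) :
    ∃ α β σ : R, α ∉ m ∧ β ∉ m ∧ f ∣ α * π - β * σ ^ 2 := by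
  set O := Localization.AtPrime m with hO
  let ι := algebraMap R O
  have hinj : Function.Injective ι := IsLocalization.injective O m.primeCompl_le_nonZeroDivisors
  have hdim' : ringKrullDim O ≤ 2 := by
    rw [IsLocalization.AtPrime.ringKrullDim_eq_height m O]
    exact m.height_le_ringKrullDim_of_isPrime.trans hdim
  -- prime elements inside `m`
  have hprime : ∀ p : R, Prime p → p ∈ m → (Ideal.span {ι p}).IsPrime ∧
      ∀ a : R, ι a ∈ Ideal.span {ι p} → p ∣ a := by
    intro p hp hpm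
    have h1 : (Ideal.span {p}).IsPrime := (Ideal.span_singleton_prime hp.ne_zero).mpr hp
    have hd : Disjoint (m.primeCompl : Set R) (Ideal.span {p} : Ideal R) := by
      rw [Set.disjoint_left]
      intro a ha hb
      exact ha ((Ideal.span_singleton_le_iff_mem m).mpr hpm hb)
    have h2 : (Ideal.span {p}).map ι = Ideal.span {ι p} := by
      rw [Ideal.map_span, Set.image_singleton]
    refine ⟨h2 ▸ IsLocalization.isPrime_of_isPrime_disjoint m.primeCompl O _ h1 hd, ?_⟩
    intro a ha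
    have h3 := IsLocalization.under_map_of_isPrime_disjoint m.primeCompl O h1 hd
    rw [← Ideal.mem_span_singleton, ← h3]
    show ι a ∈ (Ideal.span {p}).map ι
    rw [h2]
    exact ha
  obtain ⟨hEp, hEm⟩ := hprime π hπ hπm
  obtain ⟨hDp, hDm⟩ := hprime f hf hfm
  have hE0 : ι π ≠ 0 := fun h0 => hπ.ne_zero (hinj (by rw [h0, map_zero]))
  have : IsDomain (O ⧸ Ideal.span {ι π}) := Ideal.Quotient.isDomain _
  have : IsDomain (O ⧸ Ideal.span {ι f}) := Ideal.Quotient.isDomain _
  have : Ring.KrullDimLE 1 (O ⧸ Ideal.span {ι π}) := by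
    rw [Ring.KrullDimLE, Order.krullDimLE_iff, ← ENat.WithBot.add_le_add_one_right_iff]
    refine (ringKrullDim_quotient_succ_le_of_nonZeroDivisor
      (mem_nonZeroDivisors_of_ne_zero hE0)).trans (hdim'.trans ?_)
    norm_num
  have mk0 : ∀ (p : R) (a : O), Ideal.Quotient.mk (Ideal.span {ι p}) a = 0 ↔
      a ∈ Ideal.span {ι p} := fun p a => Ideal.Quotient.eq_zero_iff_mem
  obtain ⟨n, hn⟩ := ea_parity (Ideal.Quotient.mk (Ideal.span {ι π}) (ι f))
    (Ideal.Quotient.mk (Ideal.span {ι π}) (ι g)) (Ideal.Quotient.mk (Ideal.span {ι π}) (ι h))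
    (fun h0 => hπf (hEm _ ((mk0 _ _).mp h0))) (fun h0 => hπh (hEm _ ((mk0 _ _).mp h0))) (by
      have h5 : Ideal.Quotient.mk (Ideal.span {ι π}) (ι (g ^ 2 - f * h ^ 2)) = 0 :=
        (mk0 _ _).mpr (Ideal.mem_span_singleton.mpr (map_dvd ι hgh))
      rw [map_sub, map_sub, sub_eq_zero] at h5
      simpa only [map_pow, map_mul] using h5)
  rw [ea_ord_comm] at hn
  have hsurj : Function.Surjective (Ideal.Quotient.mk (Ideal.span {ι f})) :=
    Ideal.Quotient.mk_surjective
  have : IsLocalRing (O ⧸ Ideal.span {ι f}) := IsLocalRing.of_surjective' _ hsurj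
  have : IsLocalHom (Ideal.Quotient.mk (Ideal.span {ι f})) := IsLocalHom.of_surjective _ hsurj
  have hmax : IsLocalRing.maximalIdeal O = Ideal.span {ι x, ι y} := by
    have h6 := Localization.AtPrime.map_eq_maximalIdeal (I := m)
    rw [← h6]
    have h7 : m.map ι = (Ideal.span {x, y}).map ι := congrArg _ hxy
    exact h7.trans (by rw [Ideal.map_span, Set.image_pair])
  set D := O ⧸ Ideal.span {ι f} with hD
  let q : O →+* D := Ideal.Quotient.mk (Ideal.span {ι f})
  have hq0 : ∀ a : O, q a = 0 ↔ a ∈ Ideal.span {ι f} := mk0 f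
  have hxm : ι x ∈ IsLocalRing.maximalIdeal O := by
    rw [hmax]; exact Ideal.subset_span (by simp)
  have hym : ι y ∈ IsLocalRing.maximalIdeal O := by
    rw [hmax]; exact Ideal.subset_span (by simp)
  have hunit : ∀ a : R, a ∉ m → IsUnit (ι a) := fun a ha =>
    IsLocalization.map_units O (⟨a, ha⟩ : m.primeCompl)
  have hqm : ∀ a : O, a ∈ IsLocalRing.maximalIdeal O → q a ∈ IsLocalRing.maximalIdeal D := by
    intro a ha
    rw [IsLocalRing.mem_maximalIdeal] at ha ⊢
    exact fun hu => ha (isUnit_of_map_unit q a hu)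
  have hmaxD : IsLocalRing.maximalIdeal D = Ideal.span {q (ι y)} := by
    apply le_antisymm
    · intro z hz
      obtain ⟨w, rfl⟩ := hsurj z
      have hw : w ∈ IsLocalRing.maximalIdeal O := by
        rw [IsLocalRing.mem_maximalIdeal] at hz ⊢
        exact fun hu => hz (hu.map q)
      rw [hmax, Ideal.mem_span_pair] at hw
      obtain ⟨a, b, rfl⟩ := hw
      have hx : q (ι x) ∈ Ideal.span {q (ι y)} := by
        have h8 : q (ι A) * q (ι x) = -(q (ι B)) * q (ι y) := by
          have : q (ι f) = 0 := (hq0 _).mpr (Ideal.mem_span_singleton_self _)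
          have h88 : q (ι f) = q (ι A) * q (ι x) + q (ι B) * q (ι y) := by
            rw [← map_mul, ← map_mul, ← map_mul, ← map_mul, ← map_add, ← map_add, ← hfe]
          rw [h88] at this
          linear_combination this
        obtain ⟨u, hu⟩ := (hunit A hA).map q
        have h9 : q (ι x) = (↑u⁻¹ * -(q (ι B))) * q (ι y) := by
          calc q (ι x) = ↑u⁻¹ * (↑u * q (ι x)) := by rw [← mul_assoc, Units.inv_mul, one_mul]
            _ = ↑u⁻¹ * (q (ι A) * q (ι x)) := by rw [hu]
            _ = _ := by rw [h8]; ring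
        rw [h9]
        exact Ideal.mul_mem_left _ _ (Ideal.mem_span_singleton_self _)
      show q (a * ι x + b * ι y) ∈ _
      rw [map_add, map_mul, map_mul]
      exact Ideal.add_mem _ (Ideal.mul_mem_left _ _ hx)
        (Ideal.mul_mem_left _ _ (Ideal.mem_span_singleton_self _))
    · rw [Ideal.span_singleton_le_iff_mem]
      exact hqm _ hym
  have hπ0 : q (ι π) ≠ 0 := fun h0 => hfπ (hDm _ ((hq0 _).mp h0))
  have hmem : ∀ a : R, a ∈ m → ι a ∈ IsLocalRing.maximalIdeal O := by
    intro a ha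
    have h6 := Localization.AtPrime.map_eq_maximalIdeal (I := m)
    rw [← h6]
    exact Ideal.mem_map_of_mem _ ha
  have hnf : ¬ IsField D := by
    rw [IsLocalRing.isField_iff_maximalIdeal_eq]
    intro h0
    have := hqm _ (hmem π hπm)
    rw [h0] at this
    exact hπ0 (by simpa using this)
  have : IsNoetherianRing D := inferInstance
  have hdvr : IsDiscreteValuationRing D :=
    ((IsDiscreteValuationRing.TFAE D hnf).out 4 0 rfl rfl).mp ⟨⟨q (ι y), hmaxD⟩⟩
  have hirr : Irreducible (q (ι y)) := (IsDiscreteValuationRing.irreducible_iff_uniformizer _).mpr hmaxD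
  obtain ⟨u, hu⟩ := ea_dvr hirr n hn hπ0
  obtain ⟨v, hv⟩ := hsurj (u : D)
  have hvu : IsUnit v := isUnit_of_map_unit q v (by rw [show q v = u from hv]; exact u.isUnit)
  obtain ⟨b, t, hbt⟩ := IsLocalization.exists_mk'_eq m.primeCompl v
  have hb : b ∉ m := by
    intro hb
    have h10 : v * ι t = ι b := by rw [← hbt, IsLocalization.mk'_spec]
    have h11 : IsUnit (ι b) := by rw [← h10]; exact hvu.mul (hunit _ t.2)
    exact (IsLocalRing.mem_maximalIdeal _).mp (hmem b hb) h11
  have h12 : ι π - v * (ι y ^ n) ^ 2 ∈ Ideal.span {ι f} := by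
    rw [← hq0, map_sub, map_mul, map_pow, map_pow, sub_eq_zero]
    rw [show q v = u from hv]
    exact hu
  rw [Ideal.mem_span_singleton] at h12
  obtain ⟨w, hw⟩ := h12
  obtain ⟨c, s, hcs⟩ := IsLocalization.exists_mk'_eq m.primeCompl w
  have h13 : v * ι t = ι b := by rw [← hbt, IsLocalization.mk'_spec]
  have h14 : w * ι s = ι c := by rw [← hcs, IsLocalization.mk'_spec]
  refine ⟨s * t, s * b, y ^ n, ?_, ?_, t * c, ?_⟩
  · exact fun h => (hm.mem_or_mem h).elim s.2 t.2
  · exact fun h => (hm.mem_or_mem h).elim s.2 hb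
  · apply hinj
    rw [map_sub, map_mul, map_mul, map_mul, map_mul, map_mul, map_mul, map_pow, map_pow, ← h13, ← h14]
    linear_combination (ι s * ι t) * hw

theorem even_affine (f π g h : P2) (hf : Irreducible f) (hπ : Irreducible π) (hfπ : ¬ f ∣ π)
    (hπh : ¬ π ∣ h) (hgh : π ∣ g ^ 2 - f * h ^ 2) (P : Fin 2 → ℂ) (hP : eval P f = 0)
    (hsm : ∃ i, eval P (pderiv i f) ≠ 0) :
    ∃ α β σ : P2, eval P α ≠ 0 ∧ eval P β ≠ 0 ∧ f ∣ α * π - β * σ ^ 2 := by
  by_cases hπP : eval P π = 0
  swap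
  · exact ⟨1, π, 1, by simp, hπP, by simp⟩
  obtain ⟨i, hi⟩ := hsm
  obtain ⟨j, A, B, hfe, hA, hspan⟩ := ea_smooth P f hP i hi
  have hm : (RingHom.ker (eval P)).IsPrime := RingHom.ker_isPrime _
  have hker : RingHom.ker (eval P) = Ideal.span {(X i - C (P i) : P2), X j - C (P j)} := by
    rw [← hspan]
    apply le_antisymm
    · intro p hp
      have := ea_span P p
      rw [(RingHom.mem_ker).mp hp, C_0, sub_zero] at this
      exact this
    · rw [Ideal.span_le]
      rintro p (rfl | rfl) <;> simp [RingHom.mem_ker]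
  have hdim : ringKrullDim P2 ≤ 2 := by
    rw [MvPolynomial.ringKrullDim_of_isNoetherianRing, ringKrullDim_eq_zero_of_field]
    simp
  obtain ⟨α, β, σ, hα, hβ, hd⟩ := ea_abs hdim (RingHom.ker (eval P)) (X i - C (P i))
    (X j - C (P j)) A B f π g h hker hfe (fun h => hA ((RingHom.mem_ker).mp h)) hf.prime hπ.prime
    hfπ (fun h => hfπ (hπ.associated_of_dvd hf h).symm.dvd) hπh hgh ((RingHom.mem_ker).mpr hP)
    ((RingHom.mem_ker).mpr hπP)
  exact ⟨α, β, σ, fun h => hα ((RingHom.mem_ker).mpr h), fun h => hβ ((RingHom.mem_ker).mpr h), hd⟩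

end Pool.Agent.Helper29.HP
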