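import Pool.Agent.Helper29.HP.Defs
import Pool.Agent.Helper89.PU.Harder

set_option autoImplicit false

/-!
Piece HP-HARDER (helper64).  A symmetric unimodular matrix over `k[Y]` represents zero or is
congruent to a constant matrix.  Hint (half-integral weights): consider bases `v_i` with weights
`a_i : Z` such that `2 * deg B(v_i, v_j) <= a_i + a_j`; induct on `sum a_i`.
-/

namespace Pool.Agent.Helper29.HP

open MvPolynomial

theorem harder {k : Type*} [Field k] (n : ℕ) (G : Matrix (Fin n) (Fin n) (Polynomial k))
    (hG : G.IsSymm) (hdet : IsUnit G.det) :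
    ∃ P : Matrix (Fin n) (Fin n) (Polynomial k), IsUnit P.det ∧
      ((∃ i, (P.transpose * G * P) i i = 0) ∨
        ∃ G0 : Matrix (Fin n) (Fin n) k, P.transpose * G * P = G0.map Polynomial.C) :=
  Pool.Agent.Helper89.PU.harder n G hG hdet

theorem iso3_field {k : Type*} [Field k] (hk : Tern k) : Iso3 k := by
  intro n G hn hG _
  -- restrict to the first three coordinates
  let ι : Fin 3 → Fin n := Fin.castLE hn
  have hι : Function.Injective ι := Fin.castLE_injective hn
  obtain ⟨v, hv0, hv⟩ := hk (G.submatrix ι ι) (hG.submatrix ι)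
  let w : Fin n → k := fun i => ∑ s, if ι s = i then v s else 0
  have hw : ∀ s, w (ι s) = v s := by
    intro s
    change ∑ t, (if ι t = ι s then v t else 0) = v s
    rw [Finset.sum_eq_single s]
    · rw [if_pos rfl]
    · intro t _ hts
      rw [if_neg (fun h => hts (hι h))]
    · intro h
      exact absurd (Finset.mem_univ s) h
  have hsum : ∀ f : Fin n → k, ∑ i, w i * f i = ∑ s, v s * f (ι s) := by
    intro f
    have h1 : ∀ i, w i * f i = ∑ s, if ι s = i then v s * f (ι s) else 0 := by
      intro i
      change (∑ s, if ι s = i then v s else 0) * f i = _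
      rw [Finset.sum_mul]
      refine Finset.sum_congr rfl fun s _ => ?_
      by_cases h : ι s = i
      · rw [if_pos h, if_pos h, h]
      · rw [if_neg h, if_neg h, zero_mul]
    simp only [h1]
    rw [Finset.sum_comm]
    refine Finset.sum_congr rfl fun s _ => ?_
    rw [Finset.sum_ite_eq Finset.univ (ι s) fun _ => v s * f (ι s)]
    simp
  refine ⟨w, ?_, ?_⟩
  · intro h
    apply hv0
    ext s
    rw [← hw s, h]
    rfl
  · rw [← hv]
    have h2 : ∀ i, G.mulVec w i = ∑ s, v s * G i (ι s) := by
      intro i
      rw [← hsum (fun j => G i j)]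
      rw [Matrix.mulVec, dotProduct]
      exact Finset.sum_congr rfl fun j _ => mul_comm _ _
    rw [dotProduct, hsum, dotProduct]
    refine Finset.sum_congr rfl fun s _ => ?_
    rw [h2, Matrix.mulVec, dotProduct]
    congr 1
    exact Finset.sum_congr rfl fun t _ => mul_comm _ _

theorem iso3_poly {k : Type*} [Field k] (hk : Tern k) : Iso3 (Polynomial k) := by
  intro n G hn hG hdet
  obtain ⟨P, hP, hP2⟩ := harder n G hG hdet
  have hinj : ∀ w : Fin n → Polynomial k, P.mulVec w = 0 → w = 0 := by
    intro w hw
    by_contra h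
    exact hP.ne_zero (Matrix.exists_mulVec_eq_zero_iff.1 ⟨w, h, hw⟩)
  have hform : ∀ w : Fin n → Polynomial k, P.mulVec w ⬝ᵥ G.mulVec (P.mulVec w) =
      w ⬝ᵥ (P.transpose * G * P).mulVec w := by
    intro w
    rw [Matrix.mul_assoc, ← Matrix.mulVec_mulVec, Matrix.dotProduct_mulVec w,
      Matrix.vecMul_transpose, Matrix.mulVec_mulVec]
  rcases hP2 with ⟨i, hi⟩ | ⟨G0, hG0⟩
  · refine ⟨P.mulVec (Pi.single i 1), ?_, ?_⟩
    · intro h
      have := congrFun (hinj _ h) i
      simp at this
    · rw [hform, Matrix.mulVec_single_one, single_dotProduct, one_mul]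
      exact hi
  · have hG0s : G0.IsSymm := by
      have h1 : (P.transpose * G * P).IsSymm := by
        rw [Matrix.IsSymm, Matrix.transpose_mul, Matrix.transpose_mul, Matrix.transpose_transpose,
          hG.eq, Matrix.mul_assoc]
      rw [hG0] at h1
      ext i j
      have := h1.apply i j
      rw [Matrix.map_apply, Matrix.map_apply] at this
      exact Polynomial.C_injective this
    have hu : IsUnit G0.det := by
      have h1 : (P.transpose * G * P).det = Polynomial.C G0.det := by
        rw [hG0]
        exact (RingHom.map_det Polynomial.C G0).symm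
      have h2 : IsUnit (P.transpose * G * P).det := by
        rw [Matrix.det_mul, Matrix.det_mul, Matrix.det_transpose]
        exact (hP.mul hdet).mul hP
      rw [h1] at h2
      exact Polynomial.isUnit_C.1 h2
    obtain ⟨v, hv0, hv⟩ := iso3_field hk n G0 hn hG0s hu
    refine ⟨P.mulVec (fun i => Polynomial.C (v i)), ?_, ?_⟩
    · intro h
      apply hv0
      ext i
      exact Polynomial.C_eq_zero.1 (congrFun (hinj _ h) i)
    · rw [hform, hG0]
      have : (fun i => Polynomial.C (v i)) ⬝ᵥ (G0.map Polynomial.C).mulVec
          (fun i => Polynomial.C (v i)) = Polynomial.C (v ⬝ᵥ G0.mulVec v) := by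
        simp only [dotProduct, Matrix.mulVec, map_sum, map_mul, Matrix.map_apply]
      rw [this, hv, Polynomial.C_0]

end Pool.Agent.Helper29.HP
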