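import Pool.Agent.Helper29.HP.Defs

set_option autoImplicit false

/-!
Piece HP-LAG (helper27).  Totally isotropic submodules of half rank in unimodular lattices over a
principal ideal domain with `Iso3`.
-/

namespace Pool.Agent.Helper29.HP

open MvPolynomial

theorem exists_lagrangian {A : Type*} [CommRing A] [IsDomain A] [IsPrincipalIdealRing A]
    (h2 : IsUnit (2 : A)) (hA : Iso3 A) (m : ℕ) (G : Matrix (Fin (2 * m)) (Fin (2 * m)) A)
    (hG : G.IsSymm) (d : A) (hd : IsUnit d) (hdet : (-1) ^ m * G.det = d ^ 2) :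
    ∃ v : Fin m → (Fin (2 * m) → A), LinearIndependent A v ∧
      ∀ i j, v i ⬝ᵥ G.mulVec (v j) = 0 := by
  sorry

end Pool.Agent.Helper29.HP
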