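import Pool.Agent.Helper29.HP.Defs
import Pool.Agent.Helper89.PU.Tsen

set_option autoImplicit false

/-!
Piece HP-TSEN (helper89).  Tsen for quadratic forms in three variables over a finite extension of
`C(x)`.  Hint: take a `kx`-basis `e_1..e_d` of `k'`, a common denominator for the structure
constants and the entries of `G`; unknown `v_a = sum_i x_ai e_i` with `x_ai` polynomials of degree
`<= N` in `x`: `3 d (N+1)` complex unknowns against `d (2 N + E + 1)` quadratic equations; use
`quad_zero` of `Pool.Agent.Helper29.TR.St.QuadZero` (or `exists_common_zero`).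
-/

namespace Pool.Agent.Helper29.HP

open MvPolynomial

theorem tern_finite (k' : Type*) [Field k'] [Algebra kx k'] [FiniteDimensional kx k'] :
    Tern k' :=
  Pool.Agent.Helper89.PU.tern_finite kx k'

theorem tern_kx : Tern kx := tern_finite kx

/-- residue fields of `C(x)[y]` -/
theorem tern_residue (π : AA) [Fact (Irreducible π)] : Tern (AdjoinRoot π) :=
  Pool.Agent.Helper89.PU.tern_adjoinRoot kx π

end Pool.Agent.Helper29.HP
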